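import Mathlib

/-!
# Effective Hamiltonian of `H(y,p) = a(y)|p|` on the two-dimensional torus
-/

namespace Pool.Agent.Lib.MP_b2c218_an

/-- The Euclidean plane. -/
abbrev Plane : Type := EuclideanSpace ℝ (Fin 2)

/-- `f` is periodic with respect to the integer lattice, that is, a function on the torus. -/
def IsZPeriodic (f : Plane → ℝ) : Prop :=
  ∀ (k : Fin 2 → ℤ) (y : Plane), f (y + WithLp.toLp 2 fun i => (k i : ℝ)) = f y

/-- The effective Hamiltonian: the infimum over periodic `C^1` functions `φ` of the maximum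
over `y` of `a y * |p + Dφ y|`. -/
noncomputable def effHam (a : Plane → ℝ) (p : Plane) : ℝ :=
  ⨅ φ : {φ : Plane → ℝ // ContDiff ℝ 1 φ ∧ IsZPeriodic φ}, ⨆ y : Plane, a y * ‖p + gradient φ.1 y‖

end Pool.Agent.Lib.MP_b2c218_an
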