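import Pool.Agent.Lib.MP_b2c218_an.Sides

-- part Pool.Agent.Lib.MP_b2c218_an.Convex
section

/-!
# Support points of the dual unit ball
-/

namespace Pool.Agent.Lib.MP_b2c218_an

open Complex Set Filter Topology

/-- unit vector of angle `θ` -/
noncomputable def nu (θ : ℝ) : ℂ := ⟨Real.cos θ, Real.sin θ⟩

lemma norm_nu (θ : ℝ) : ‖nu θ‖ = 1 := by
  have : ‖nu θ‖ ^ 2 = 1 := by
    rw [← dot_self]; simp only [dot, nu]; nlinarith [Real.cos_sq_add_sin_sq θ]
  nlinarith [norm_nonneg (nu θ)]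

lemma nu_add (θ h : ℝ) : nu (θ + h) = Real.cos h • nu θ + Real.sin h • (I * nu θ) := by
  apply Complex.ext <;> simp [nu, Real.cos_add, Real.sin_add, -ofReal_cos, -ofReal_sin] <;> ring

lemma nu_add_pi (θ : ℝ) : nu (θ + Real.pi) = -nu θ := by
  rw [nu_add]; simp

@[fun_prop]
lemma continuous_nu : Continuous nu := by
  have : nu = fun θ => (Real.cos θ : ℂ) + (Real.sin θ : ℂ) * I := by
    funext θ; apply Complex.ext <;> simp [nu, -ofReal_cos, -ofReal_sin]
  rw [this]; fun_prop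

lemma det_nu (θ θ' : ℝ) : det (nu θ) (nu θ') = Real.sin (θ' - θ) := by
  simp only [det, nu, Real.sin_sub]; ring

lemma norm_nu_sub (θ θ' : ℝ) : ‖nu θ' - nu θ‖ ≤ |θ' - θ| := by
  refine abs_le_of_sq_le_sq' ?_ (abs_nonneg _) |>.2
  rw [← dot_self, sq_abs]
  have h1 := Real.one_sub_sq_div_two_le_cos (x := θ' - θ)
  rw [Real.cos_sub] at h1
  simp only [dot, nu, sub_re, sub_im]
  nlinarith [Real.cos_sq_add_sin_sq θ, Real.cos_sq_add_sin_sq θ']

lemma countable_rational : {θ : ℝ | ∃ k ∈ Lat, k ≠ 0 ∧ det (nu θ) k = 0}.Countable := by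
  have : {θ : ℝ | ∃ k ∈ Lat, k ≠ 0 ∧ det (nu θ) k = 0} =
      ⋃ k ∈ (Lat : Set ℂ), {θ : ℝ | k ≠ 0 ∧ det (nu θ) k = 0} := by
    ext θ; simp only [mem_ofPred_eq, mem_iUnion, SetLike.mem_coe, exists_prop]
  rw [this]
  refine Lat_countable.biUnion fun k _ => ?_
  rcases Set.eq_empty_or_nonempty {θ : ℝ | k ≠ 0 ∧ det (nu θ) k = 0} with h | ⟨θ0, hk, h0⟩
  · rw [h]; exact countable_empty
  refine (countable_range fun m : ℤ => θ0 + m * Real.pi).mono ?_
  rintro θ ⟨-, h1⟩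
  have h2 : det (nu θ0) (nu θ) * ‖k‖ ^ 2 =
      det (nu θ0) k * dot k (nu θ) - dot k (nu θ0) * det (nu θ) k := by
    rw [← dot_self]; unfold det dot; ring
  rw [h0, h1, det_nu] at h2
  have h3 : Real.sin (θ - θ0) = 0 := by
    have : ‖k‖ ^ 2 ≠ 0 := by positivity
    simpa [hk] using h2
  obtain ⟨m, hm⟩ := Real.sin_eq_zero_iff.1 h3
  exact ⟨m, by linarith⟩

lemma exists_lat_right {ν : ℂ} (hν : ‖ν‖ = 1) (hirr : ∀ k ∈ Lat, k ≠ 0 → det ν k ≠ 0)
    {ε : ℝ} (hε : 0 < ε) (K : ℝ) : ∃ v ∈ Lat, K ≤ dot ν v ∧ -ε ≤ det ν v ∧ det ν v < 0 := by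
  have step : ∀ δ > 0, ∃ w ∈ Lat, w ≠ 0 ∧ |det ν w| ≤ δ ∧ 0 ≤ dot ν w := by
    intro δ hδ
    have hre : ν.re ≠ 0 := by simpa [det] using hirr I I_mem_Lat I_ne_zero
    obtain ⟨N, hN⟩ := exists_nat_one_div_lt hδ
    obtain ⟨j, k, hk, -, h⟩ := Real.exists_int_int_abs_mul_sub_le (ν.im / ν.re) (Nat.succ_pos N)
    have hw : (k : ℂ) + j * I ≠ 0 := by
      intro h0
      have := congrArg Complex.re h0
      simp at this; omega
    have hd : |det ν (k + j * I)| ≤ δ := by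
      have e : det ν (k + j * I) = -ν.re * (k * (ν.im / ν.re) - j) := by
        simp only [det]; simp; field_simp; ring
      have h1 : |ν.re| ≤ 1 := hν ▸ Complex.abs_re_le_norm ν
      have h2 : 1 / (((N + 1 : ℕ) : ℝ) + 1) ≤ 1 / ((N : ℝ) + 1) := by
        gcongr; linarith
      rw [e, abs_mul, abs_neg]
      calc _ ≤ 1 * δ := by gcongr; exact h.trans (h2.trans hN.le)
        _ = δ := one_mul δ
    rcases le_total 0 (dot ν (k + j * I)) with h1 | h1
    · exact ⟨_, ⟨k, j, rfl⟩, hw, hd, h1⟩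
    · exact ⟨-(k + j * I), Lat.neg_mem ⟨k, j, rfl⟩, neg_ne_zero.2 hw,
        by rwa [det_neg_right, abs_neg], by rw [dot_neg_right]; linarith⟩
  set l : ℕ := ⌈2 * K⌉₊ + 1 with hl
  have hl0 : (0 : ℝ) < l := by positivity
  have hl1 : (1 : ℝ) ≤ l := by exact_mod_cast Nat.le_add_left 1 _
  have hlK : 2 * K ≤ l := (Nat.le_ceil _).trans (by rw [hl]; push_cast; linarith)
  obtain ⟨w, hw, hw0, hw1, hw2⟩ := step (min (1 / 2) (ε / l)) (by positivity)
  have hw3 : |det ν w| ≤ 1 / 2 := hw1.trans (min_le_left _ _)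
  have hw4 : |det ν w| ≤ ε / l := hw1.trans (min_le_right _ _)
  rcases lt_or_gt_of_ne (hirr w hw hw0) with h | h
  · refine ⟨_, natsmul_mem_Lat hw l, ?_, ?_, ?_⟩
    · have h1 := dot_sq_add_det_sq ν w
      have h2 := one_le_norm_of_mem_Lat hw hw0
      have h3 : 1 / 2 ≤ dot ν w := by
        rw [hν] at h1
        have := abs_le.1 hw3
        by_contra hh
        nlinarith
      rw [dot_smul_right]; nlinarith
    · rw [det_smul_right]
      have := (abs_le.1 hw4).1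
      rw [neg_le, le_div_iff₀ hl0] at this
      linarith
    · rw [det_smul_right]; exact mul_neg_of_pos_of_neg hl0 h
  · obtain ⟨v0, hv0, hv1⟩ := exists_lat_near ((|K| + 2) • ν - (2 : ℝ) • (I * ν))
    have h1 := abs_le.1 (abs_dot_le ν ((|K| + 2) • ν - (2 : ℝ) • (I * ν) - v0))
    have h2 := abs_le.1 (abs_det_le ν ((|K| + 2) • ν - (2 : ℝ) • (I * ν) - v0))
    have h3 : det ν (I * ν) = 1 := by rw [det_eq_dot, dot_self, norm_I_mul, hν]; norm_num
    simp only [dot_sub_right, dot_smul_right, dot_self, hν, dot_I_mul_self, det_sub_right,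
      det_smul_right, det_self, h3] at h1 h2
    set m : ℕ := ⌊-det ν v0 / det ν w⌋₊ with hm
    have h4 : (m : ℝ) * det ν w ≤ -det ν v0 := by
      rw [← le_div_iff₀ h]; exact Nat.floor_le (div_nonneg (by linarith) h.le)
    have h5 : -det ν v0 < (m + 1 : ℝ) * det ν w := by
      rw [← div_lt_iff₀ h]; exact Nat.lt_floor_add_one _
    have h6 : 0 ≤ (m : ℝ) * dot ν w := by positivity
    have h7 : det ν w ≤ ε := (le_abs_self _).trans (hw4.trans (div_le_self hε.le hl1))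
    have hv : v0 + (m : ℝ) • w ∈ Lat := Lat.add_mem hv0 (natsmul_mem_Lat hw m)
    have h8 : |K| + 1 ≤ dot ν (v0 + (m : ℝ) • w) := by
      rw [dot_add_right, dot_smul_right]; linarith
    refine ⟨_, hv, by linarith [le_abs_self K], ?_, ?_⟩
    · rw [det_add_right, det_smul_right]; linarith
    · refine lt_of_le_of_ne ?_ (hirr _ hv ?_)
      · rw [det_add_right, det_smul_right]; linarith
      · intro h0
        rw [h0, dot_zero_right] at h8
        linarith [abs_nonneg K]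

/-- A monotonicity lemma with a countable exceptional set. -/
lemma zygmund {D lam : ℝ → ℝ} {a b ε0 : ℝ} {Bad : Set ℝ} (hab : a ≤ b) (hε0 : 0 < ε0)
    (hBad : Bad.Countable) (hlam : Continuous lam)
    (husc : ∀ φ : ℝ → ℝ, Continuous φ → IsClosed {t | φ t ≤ D t}) (ha : D a = 0)
    (h1 : ∀ t ∈ Ico a b, -ε0 < D t → ∀ δ > 0, ∀ᶠ t' in 𝓝[>] t, D t - δ ≤ D t')
    (h2 : ∀ t ∈ Ico a b, -ε0 < D t → t ∉ Bad → ∀ ε > 0,
      ∀ᶠ t' in 𝓝[>] t, D t - ε * (lam t' - lam t) ≤ D t') : 0 ≤ D b := by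
  by_contra hb
  push Not at hb
  obtain ⟨Λ, hΛ⟩ := ((isCompact_Icc (a := a) (b := b)).image
    (hlam.sub (continuous_const (y := lam a)))).isBounded.exists_norm_le
  have hΛ' : ∀ t ∈ Icc a b, lam t - lam a ≤ |Λ| + 1 := fun t ht => by
    have : |lam t - lam a| ≤ Λ := hΛ _ ⟨t, ht, rfl⟩
    linarith [le_abs_self (lam t - lam a), le_abs_self Λ]
  set ε := min (ε0 / 2) (-D b / 2) / (|Λ| + 1) with hε
  have hε1 : 0 < ε := div_pos (lt_min (by linarith) (by linarith)) (by positivity)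
  have hε2 : ∀ t ∈ Icc a b, ε * (lam t - lam a) ≤ min (ε0 / 2) (-D b / 2) := fun t ht => by
    calc ε * (lam t - lam a) ≤ ε * (|Λ| + 1) := by gcongr; exact hΛ' t ht
      _ = _ := by rw [hε]; field_simp
  set G : ℝ → ℝ := fun t => D t + ε * (lam t - lam a) with hG
  have hGb : G b < 0 := by
    have := (hε2 b (right_mem_Icc.2 hab)).trans (min_le_right _ _)
    simp only [hG]; linarith
  obtain ⟨c, hc1, hc2⟩ := ((hBad.image G).dense_compl ℝ).exists_mem_open
    (isOpen_Ioo (a := max (G b) (-ε0 / 2)) (b := 0))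
    (nonempty_Ioo.2 (max_lt hGb (by linarith)))
  have hc3 : G b < c := (le_max_left _ _).trans_lt hc2.1
  have hc4 : -ε0 / 2 < c := (le_max_right _ _).trans_lt hc2.1
  set T := Icc a b ∩ {t | c - ε * (lam t - lam a) ≤ D t} with hT
  have hTc : IsCompact T := isCompact_Icc.inter_right (husc _ (by fun_prop))
  have hTa : a ∈ T := ⟨left_mem_Icc.2 hab, by simp [ha, hc2.2.le]⟩
  obtain ⟨t, ⟨ht1, ht2⟩, ht3⟩ := hTc.exists_isGreatest ⟨a, hTa⟩
  have ht2' : c ≤ G t := by simp only [hG]; exact sub_le_iff_le_add.1 ht2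
  have htb : t < b := lt_of_le_of_ne ht1.2 (by rintro rfl; linarith)
  have hDt : -ε0 < D t := by
    have := (hε2 t ht1).trans (min_le_left _ _)
    simp only [hG] at ht2'; linarith
  have key : ∀ᶠ t' in 𝓝[>] t, c ≤ G t' := by
    rcases ht2'.eq_or_lt with h | h
    · filter_upwards [h2 t ⟨ht1.1, htb⟩ hDt (fun hB => hc1 ⟨t, hB, h.symm⟩) ε hε1] with t' ht'
      simp only [hG] at h ⊢; linarith
    · have h3 : Tendsto (fun t' => ε * (lam t' - lam a)) (𝓝[>] t) (𝓝 (ε * (lam t - lam a))) :=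
        (Continuous.tendsto (by fun_prop) t).mono_left nhdsWithin_le_nhds
      filter_upwards [h1 t ⟨ht1.1, htb⟩ hDt ((G t - c) / 2) (by linarith),
        h3.eventually (lt_mem_nhds (show ε * (lam t - lam a) - (G t - c) / 2 < _ by linarith))]
        with t' a1 a2
      simp only [hG] at a1 a2 ⊢; linarith
  obtain ⟨t', a1, a2⟩ := (key.and (Ioo_mem_nhdsGT htb)).exists
  have : t' ∈ T := ⟨⟨by linarith [a2.1, ht1.1], a2.2.le⟩, by
    simp only [hG] at a1; exact sub_le_iff_le_add.2 a1⟩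
  linarith [ht3 this, a2.1]

namespace Ctx

variable (C : Ctx)

/-- strict convexity of the dual unit ball -/
def SC : Prop := ∀ q ∈ C.S, ∀ q' ∈ C.S, q ≠ q' → ∃ c > 0, ((1 + c) / 2 : ℝ) • (q + q') ∈ C.S

/-- `q` is a support point in direction `v` -/
def IsMx (q v : ℂ) : Prop := q ∈ C.S ∧ ∀ g ∈ C.S, dot g v ≤ dot q v

lemma exists_isMx (v : ℂ) : ∃ q, C.IsMx q v := by
  obtain ⟨q, h1, h2⟩ := isCompact_S.exists_isMaxOn
    ⟨0, mem_S_of_norm_le (C := C) (by simpa using C.n0_pos.le)⟩ (f := fun g => dot g v)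
    (Continuous.continuousOn (by fun_prop))
  exact ⟨q, h1, fun g hg => h2 hg⟩

/-- the support point in direction of angle `θ` -/
noncomputable def P (θ : ℝ) : ℂ := (C.exists_isMx (nu θ)).choose

lemma P_isMx (θ : ℝ) : C.IsMx (C.P θ) (nu θ) := (C.exists_isMx (nu θ)).choose_spec

lemma P_mem (θ : ℝ) : C.P θ ∈ C.S := (C.P_isMx θ).1

/-- a control function for the variation of `P` -/
noncomputable def lam (R θ : ℝ) : ℝ := dot (C.P θ) (I * nu θ) + R * θ

variable {C}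

lemma IsMx.le {q v : ℂ} (h : C.IsMx q v) : C.n0 * ‖v‖ ≤ dot q v := by
  rcases eq_or_ne v 0 with rfl | hv
  · simp
  have h0 : 0 < ‖v‖ := norm_pos_iff.2 hv
  have := h.2 ((C.n0 / ‖v‖) • v) (mem_S_of_norm_le (by
    rw [norm_smul, Real.norm_of_nonneg (div_nonneg C.n0_pos.le h0.le), div_mul_cancel₀ _ h0.ne']))
  rw [dot_smul_left, dot_self] at this
  refine le_of_eq_of_le ?_ this
  field_simp

lemma IsMx.unique (hS : C.SC) {q q' v : ℂ} (h : C.IsMx q v) (h' : C.IsMx q' v) (hv : v ≠ 0) :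
    q = q' := by
  by_contra hne
  obtain ⟨c, hc, hm⟩ := hS q h.1 q' h'.1 hne
  have h1 := h.2 _ hm
  have h2 := h'.2 _ h.1
  have h3 := h.2 _ h'.1
  have h4 : 0 < dot q v := lt_of_lt_of_le (mul_pos C.n0_pos (norm_pos_iff.2 hv)) h.le
  rw [dot_smul_left, dot_add_left] at h1
  nlinarith

lemma IsMx.neg {q v : ℂ} (h : C.IsMx q v) : C.IsMx (-q) (-v) :=
  ⟨neg_mem_S h.1, fun g hg => by simpa using h.2 _ (neg_mem_S hg)⟩

lemma nu_ne_zero (θ : ℝ) : nu θ ≠ 0 := by
  intro h; simpa [h] using norm_nu θ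

lemma n0_le_dot_P (θ : ℝ) : C.n0 ≤ dot (C.P θ) (nu θ) := by
  simpa [norm_nu] using (C.P_isMx θ).le

lemma n0_le_norm_P (θ : ℝ) : C.n0 ≤ ‖C.P θ‖ := by
  simpa [norm_nu] using (n0_le_dot_P θ).trans (dot_le _ _)

lemma P_not_scale (θ : ℝ) : ∀ c > 0, (1 + c : ℝ) • C.P θ ∉ C.S := fun c hc h => by
  have h1 := (C.P_isMx θ).2 _ h
  rw [dot_smul_left] at h1
  nlinarith [n0_le_dot_P (C := C) θ, C.n0_pos]

lemma P_add_pi (hS : C.SC) (θ : ℝ) : C.P (θ + Real.pi) = -C.P θ :=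
  (C.P_isMx _).unique hS (by rw [nu_add_pi]; exact (C.P_isMx θ).neg) (nu_ne_zero _)

lemma continuous_P (hS : C.SC) : Continuous C.P := by
  refine continuous_iff_continuousAt.2 fun θ => ?_
  refine isCompact_S.tendsto_nhds_of_unique_mapClusterPt (Eventually.of_forall C.P_mem)
    fun x hx hc => ?_
  obtain ⟨U, hU, hl⟩ := mapClusterPt_iff_ultrafilter.1 hc
  refine IsMx.unique hS ⟨hx, fun g hg => ?_⟩ (C.P_isMx θ) (nu_ne_zero θ)
  have h1 : Tendsto nu U (𝓝 (nu θ)) := (continuous_nu.tendsto θ).mono_left hU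
  have hd : Continuous fun p : ℂ × ℂ => dot p.1 p.2 := by fun_prop
  exact le_of_tendsto_of_tendsto' ((hd.tendsto (g, nu θ)).comp (tendsto_const_nhds.prodMk_nhds h1))
    ((hd.tendsto (x, nu θ)).comp (hl.prodMk_nhds h1)) fun t => (C.P_isMx t).2 g hg

lemma continuous_lam (hS : C.SC) (R : ℝ) : Continuous (C.lam R) := by
  have := continuous_P hS
  unfold lam; fun_prop

lemma IsMx.det_nonneg {q g ν v : ℂ} (hq : C.IsMx q ν) (hg : C.IsMx g v) (h : 0 < det ν v) :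
    0 ≤ det q g := by
  have a1 := hq.2 g hg.1
  have a2 := hq.2 _ (neg_mem_S hg.1)
  have a3 := hg.2 q hq.1
  have a4 := hg.2 _ (neg_mem_S hq.1)
  rw [dot_neg_left] at a2 a4
  have e : det q g * det ν v = dot q ν * dot g v - dot q v * dot g ν := by unfold det dot; ring
  have : 0 ≤ det q g * det ν v := by
    rw [e]
    have h1 : |dot q v| ≤ dot g v := abs_le.2 ⟨by linarith, a3⟩
    have h2 : |dot g ν| ≤ dot q ν := abs_le.2 ⟨by linarith, a1⟩
    have h3 : dot q v * dot g ν ≤ |dot q v| * |dot g ν| := by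
      rw [← abs_mul]; exact le_abs_self _
    have h4 : |dot q v| * |dot g ν| ≤ dot g v * dot q ν :=
      mul_le_mul h1 h2 (abs_nonneg _) ((abs_nonneg _).trans h1)
    linarith
  exact nonneg_of_mul_nonneg_left this h

lemma det_P_nonneg {θ θ' : ℝ} (h1 : θ < θ') (h2 : θ' < θ + Real.pi) :
    0 ≤ det (C.P θ) (C.P θ') :=
  (C.P_isMx θ).det_nonneg (C.P_isMx θ') (by
    rw [det_nu]; exact Real.sin_pos_of_pos_of_lt_pi (by linarith) (by linarith))

lemma dot_delta_nu (θ θ' : ℝ) : dot (nu θ) (C.P θ' - C.P θ) ≤ 0 := by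
  rw [dot_comm, dot_sub_left]; linarith [(C.P_isMx θ).2 _ (C.P_mem θ')]

lemma dot_delta_cone (θ h : ℝ) : 0 ≤ Real.cos h * dot (nu θ) (C.P (θ + h) - C.P θ) +
    Real.sin h * det (nu θ) (C.P (θ + h) - C.P θ) := by
  have := dot_delta_nu (C := C) (θ + h) θ
  rw [nu_add, dot_add_left, dot_smul_left, dot_smul_left, ← det_eq_dot, ← neg_sub,
    dot_neg_right, det_neg_right] at this
  linarith

lemma det_delta_le {R θ θ' : ℝ} (h : θ ≤ θ') (hR : ‖C.P θ'‖ ≤ R) :
    det (nu θ) (C.P θ' - C.P θ) ≤ C.lam R θ' - C.lam R θ := by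
  have h1 := neg_le_dot (C.P θ') (I * (nu θ' - nu θ))
  have h2 := norm_nu_sub θ θ'
  rw [abs_of_nonneg (by linarith)] at h2
  rw [norm_I_mul, mul_sub, dot_sub_right] at h1
  have h3 : ‖C.P θ'‖ * ‖nu θ' - nu θ‖ ≤ R * (θ' - θ) :=
    mul_le_mul hR h2 (norm_nonneg _) ((norm_nonneg _).trans hR)
  rw [det_eq_dot, dot_sub_right, dot_comm _ (C.P θ'), dot_comm _ (C.P θ)]
  unfold lam
  linarith

lemma delta_bounds {θ h : ℝ} (h0 : 0 < h) (h1 : h ≤ 1) :
    0 ≤ det (nu θ) (C.P (θ + h) - C.P θ) ∧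
      -dot (nu θ) (C.P (θ + h) - C.P θ) ≤ 2 * h * det (nu θ) (C.P (θ + h) - C.P θ) := by
  have a1 := dot_delta_nu (C := C) θ (θ + h)
  have a2 := dot_delta_cone (C := C) θ h
  have a3 : 1 / 2 ≤ Real.cos h := by nlinarith [Real.one_sub_sq_div_two_le_cos (x := h)]
  have a4 : 0 < Real.sin h := Real.sin_pos_of_pos_of_lt_pi h0 (by linarith [Real.pi_gt_three])
  have a5 : Real.sin h ≤ h := Real.sin_le h0.le
  have a6 : 0 ≤ det (nu θ) (C.P (θ + h) - C.P θ) := by
    by_contra hh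
    nlinarith
  exact ⟨a6, by nlinarith⟩

/-- a lattice vector strictly to the right of the calibrated lines of slope `q` -/
def RightVec (C : Ctx) (q : ℂ) (K : ℝ) (v : ℂ) : Prop :=
  v ∈ Lat ∧ K ≤ dot q v ∧ ∃ g ∈ C.S, dot g (I * q) ≤ 0 ∧ dot q v < dot g v

lemma exists_rightVec {q : ℂ} (hq : q ≠ 0) (K : ℝ) : ∃ v, C.RightVec q K v := by
  have h0 : 0 < ‖q‖ := norm_pos_iff.2 hq
  have hn := C.n0_pos
  set A := (|K| + ‖q‖) / ‖q‖ ^ 2 with hA
  set B := (|K| + 2 * ‖q‖ + C.n0 + 1) / (C.n0 * ‖q‖) with hB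
  obtain ⟨v, hv, h1⟩ := exists_lat_near (A • q - B • (I * q))
  have hg : ‖(-(C.n0 / ‖q‖)) • (I * q)‖ = C.n0 := by
    rw [norm_smul, norm_I_mul, norm_neg, Real.norm_of_nonneg (by positivity)]; field_simp
  have h2 := abs_le.1 (abs_dot_le q (A • q - B • (I * q) - v))
  have h3 := abs_le.1 (abs_dot_le ((-(C.n0 / ‖q‖)) • (I * q)) (A • q - B • (I * q) - v))
  rw [hg] at h3
  have h4 : ‖q‖ * ‖A • q - B • (I * q) - v‖ ≤ ‖q‖ := by nlinarith
  have h5 : C.n0 * ‖A • q - B • (I * q) - v‖ ≤ C.n0 := by nlinarith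
  have h6 : A * ‖q‖ ^ 2 = |K| + ‖q‖ := by rw [hA]; field_simp
  have h7 : B * (-(C.n0 / ‖q‖) * ‖q‖ ^ 2) = -(|K| + 2 * ‖q‖ + C.n0 + 1) := by
    rw [hB]; field_simp
  rw [dot_sub_right, dot_sub_right, dot_smul_right, dot_smul_right, dot_self, dot_I_mul_self,
    h6] at h2
  rw [dot_sub_right, dot_sub_right, dot_smul_right, dot_smul_right, dot_smul_left, dot_smul_left,
    dot_I_mul_self', dot_I_mul_I_mul, dot_self, h7] at h3
  refine ⟨v, hv, by linarith [le_abs_self K], _, mem_S_of_norm_le hg.le, ?_, by linarith⟩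
  rw [dot_smul_left, dot_self]
  exact mul_nonpos_of_nonpos_of_nonneg (neg_nonpos.2 (by positivity)) (by positivity)

lemma P_ne_zero (θ : ℝ) : C.P θ ≠ 0 :=
  norm_pos_iff.1 (C.n0_pos.trans_le (n0_le_norm_P θ))

lemma countable_corner : {θ : ℝ | (∃ a < θ, ∀ s ∈ Icc a θ, C.P s = C.P θ) ∧
    ¬∃ b > θ, ∀ s ∈ Icc θ b, C.P s = C.P θ}.Countable := by
  set B := {θ : ℝ | (∃ a < θ, ∀ s ∈ Icc a θ, C.P s = C.P θ) ∧
    ¬∃ b > θ, ∀ s ∈ Icc θ b, C.P s = C.P θ} with hB
  have h1 : ∀ θ, ∃ a, θ ∈ B → a < θ ∧ ∀ s ∈ Icc a θ, C.P s = C.P θ := fun θ => by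
    by_cases h : θ ∈ B
    · obtain ⟨a, ha⟩ := h.1; exact ⟨a, fun _ => ha⟩
    · exact ⟨0, fun h' => (h h').elim⟩
  choose a ha using h1
  refine Set.PairwiseDisjoint.countable_of_isOpen (s := fun θ => Ioo (a θ) θ) ?_
    (fun _ _ => isOpen_Ioo) fun θ hθ => nonempty_Ioo.2 (ha θ hθ).1
  have key : ∀ x ∈ B, ∀ y ∈ B, x < y → Disjoint (Ioo (a x) x) (Ioo (a y) y) := by
    intro x hx y hy hxy
    rw [Set.disjoint_left]
    intro z hz1 hz2
    refine hx.2 ⟨y, hxy, fun s hs => ?_⟩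
    rw [(ha y hy).2 s ⟨by linarith [hz1.2, hz2.1, hs.1], hs.2⟩,
      (ha y hy).2 x ⟨by linarith [hz1.2, hz2.1], hxy.le⟩]
  intro x hx y hy hxy
  rcases lt_or_gt_of_ne hxy with h | h
  · exact key x hx y hy h
  · exact (key y hy x hx h).symm

lemma left_const (hS : C.SC) {θ : ℝ} {v : ℂ} (hv : C.IsMx (C.P θ) v) (h2 : det (nu θ) v < 0) :
    ∃ a < θ, ∀ s ∈ Icc a θ, C.P s = C.P θ := by
  have h3 : ∀ᶠ h in 𝓝 (0 : ℝ), 0 < Real.cos h + Real.sin h / det (nu θ) v * -dot (nu θ) v := by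
    refine Continuous.continuousAt (by fun_prop) |>.eventually (lt_mem_nhds ?_)
    simp
  obtain ⟨δ, hδ, h4⟩ := Metric.eventually_nhds_iff.1 h3
  refine ⟨θ - min (δ / 2) 1, by simp [hδ], fun s hs => ?_⟩
  obtain ⟨h, rfl⟩ : ∃ h, s = θ + h := ⟨s - θ, by ring⟩
  have h5 : -min (δ / 2) 1 ≤ h := by linarith [hs.1]
  have h6 : h ≤ 0 := by linarith [hs.2]
  have h7 := h4 (y := h) (by
    rw [Real.dist_eq, sub_zero, abs_of_nonpos h6]; linarith [min_le_left (δ / 2) 1])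
  have h8 : Real.sin h ≤ 0 := Real.sin_nonpos_of_nonpos_of_neg_pi_le h6
    (by linarith [min_le_right (δ / 2) 1, Real.pi_gt_three])
  have h9 : 0 ≤ Real.sin h / det (nu θ) v := div_nonneg_of_nonpos h8 h2.le
  refine (C.P_isMx _).unique hS ⟨C.P_mem θ, fun g hg => ?_⟩ (nu_ne_zero _)
  have e : ∀ g, dot g (nu (θ + h)) =
      (Real.cos h + Real.sin h / det (nu θ) v * -dot (nu θ) v) * dot g (nu θ) +
        Real.sin h / det (nu θ) v * dot g v := fun g => by
    rw [nu_add, dot_add_right, dot_smul_right, dot_smul_right, dot_frame (norm_nu θ) g v,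
      dot_comm g (I * nu θ), ← det_eq_dot, dot_comm g]
    field_simp [h2.ne]
    ring
  rw [e, e]
  have := (C.P_isMx θ).2 g hg
  have := hv.2 g hg
  gcongr

/-- at all but countably many angles there are right vectors almost parallel to the normal -/
lemma exists_bad (hS : C.SC) : ∃ Bad : Set ℝ, Bad.Countable ∧ ∀ θ ∉ Bad, ∀ K, ∀ ε > 0,
    ∃ v, C.RightVec (C.P θ) K v ∧ ∀ᶠ θ' in 𝓝[>] θ,
      -dot (C.P θ' - C.P θ) v ≤ ε * (C.lam (2 * C.n1) θ' - C.lam (2 * C.n1) θ) := by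
  refine ⟨_, countable_rational.union (countable_corner (C := C)), fun θ hθ K ε hε => ?_⟩
  simp only [mem_union, mem_ofPred_eq, not_or] at hθ
  by_cases hr : ∃ b > θ, ∀ s ∈ Icc θ b, C.P s = C.P θ
  · obtain ⟨b, hb, hr⟩ := hr
    obtain ⟨v, hv⟩ := exists_rightVec (C := C) (P_ne_zero (C := C) θ) K
    refine ⟨v, hv, ?_⟩
    filter_upwards [Ioo_mem_nhdsGT hb] with θ' h'
    have h1 := det_delta_le (C := C) h'.1.le (norm_le_of_mem_S (C.P_mem θ'))
    rw [hr θ' ⟨h'.1.le, h'.2.le⟩, sub_self] at h1 ⊢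
    simp only [det, zero_im, mul_zero, zero_re, sub_self] at h1
    simp only [dot_zero_left, neg_zero]
    positivity
  have hl : ¬∃ a < θ, ∀ s ∈ Icc a θ, C.P s = C.P θ := fun h => hθ.2 ⟨h, hr⟩
  have hn := C.n0_pos
  have hn1 := C.n1_pos
  obtain ⟨v, hv, h1, h2, h3⟩ := exists_lat_right (norm_nu θ)
    (fun k hk h0 h => hθ.1 ⟨k, hk, h0, h⟩) (half_pos hε) ((|K| + C.n1 * ε) / C.n0)
  have h1' : |K| + C.n1 * ε ≤ C.n0 * dot (nu θ) v := by rwa [div_le_iff₀' hn] at h1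
  have h0 : 0 < dot (nu θ) v := lt_of_lt_of_le (by positivity) h1
  obtain ⟨g, hg⟩ := C.exists_isMx v
  refine ⟨v, ⟨hv, ?_, g, hg.1, ?_, ?_⟩, ?_⟩
  · rw [dot_frame (norm_nu θ)]
    have a1 := n0_le_dot_P (C := C) θ
    rw [dot_comm] at a1
    have a2 := abs_det_le (nu θ) (C.P θ)
    have a3 := norm_le_of_mem_S (C.P_mem θ)
    rw [norm_nu, one_mul] at a2
    have a4 := abs_le.1 (a2.trans a3)
    nlinarith [le_abs_self K]
  · have := hg.det_nonneg (C.P_isMx θ) (by rw [det_swap]; linarith)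
    rw [dot_comm, ← det_eq_dot, det_swap]; linarith
  · by_contra hh
    exact hl (left_const hS ⟨C.P_mem θ, fun g' hg' => (hg.2 g' hg').trans (not_lt.1 hh)⟩ h3)
  · have hb : θ < θ + min 1 (ε / 4 / dot (nu θ) v) := by
      simp only [lt_add_iff_pos_right]; positivity
    filter_upwards [Ioo_mem_nhdsGT hb] with θ' h'
    obtain ⟨h, rfl⟩ : ∃ h, θ' = θ + h := ⟨θ' - θ, by ring⟩
    have a0 : 0 < h := by linarith [h'.1]
    have a1 : h ≤ 1 := by linarith [h'.2, min_le_left 1 (ε / 4 / dot (nu θ) v)]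
    have a2 : h * dot (nu θ) v ≤ ε / 4 := by
      rw [← le_div_iff₀ h0]; linarith [h'.2, min_le_right 1 (ε / 4 / dot (nu θ) v)]
    obtain ⟨b1, b2⟩ := delta_bounds (C := C) (θ := θ) a0 a1
    have b3 := det_delta_le (C := C) h'.1.le (norm_le_of_mem_S (C.P_mem (θ + h)))
    rw [dot_frame (norm_nu θ)]
    set x := dot (nu θ) (C.P (θ + h) - C.P θ)
    set y := det (nu θ) (C.P (θ + h) - C.P θ)
    calc -(x * dot (nu θ) v + y * det (nu θ) v)
        = (-x) * dot (nu θ) v + y * (-det (nu θ) v) := by ring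
      _ ≤ 2 * h * y * dot (nu θ) v + y * (ε / 2) := by gcongr; linarith
      _ = 2 * y * (h * dot (nu θ) v) + y * (ε / 2) := by ring
      _ ≤ 2 * y * (ε / 4) + y * (ε / 2) := by gcongr
      _ = ε * y := by ring
      _ ≤ _ := by gcongr

end Ctx

end Pool.Agent.Lib.MP_b2c218_an
end

-- part Pool.Agent.Lib.MP_b2c218_an.Key
section

/-!
# The key comparison lemma and transport of subsolutions across gaps
-/

namespace Pool.Agent.Lib.MP_b2c218_an

open Complex Set Filter Topology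

namespace Ctx

variable {C : Ctx}

lemma exists_hit {A : Set ℂ} {ρ : ℂ} {σ : ℝ → ℂ} (hσ : Continuous σ) {a b : ℝ} (hab : a ≤ b)
    (ha : σ a ∉ Side A ρ) (hb : σ b ∈ Side A ρ) : ∃ s ∈ Icc a b, σ s ∈ A := by
  by_contra h
  push Not at h
  exact ha (Side.of_curve hσ (fun t ht => h t (by rwa [uIcc_comm, uIcc_of_le hab] at ht)) hb)

theorem key {q q' v : ℂ} {u : ℂ → ℝ} {γ : ℝ → ℂ} (hγ : C.Lane u γ) (hu : C.Sub q u)
    (hq' : q' ∈ C.S) (hρ : 0 ≤ det q q') (hqq' : ‖q' - q‖ ≤ C.n0) {x y : ℂ} (hxy : ‖x - y‖ ≤ 4)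
    (H : ∀ m ∈ Lat, x ∈ Side (range fun t => γ t + m) (I * q) →
      y ∈ Side (range fun t => γ t + m) (I * q))
    (hv : C.RightVec q (46 * C.n1) v) {k : ℂ} (hk : k ∈ Lat) :
    u y - u x - max 0 (-dot (q' - q) v) ≤ C.d x (y + k) - dot q' k := by
  obtain ⟨hv, hvK, g, hg, hg1, hg2⟩ := hv
  have hn1 := C.n1_pos
  have hn01 := C.n0_le_n1
  have hm0 := le_max_left 0 (-dot (q' - q) v)
  have hm1 := le_max_right 0 (-dot (q' - q) v)
  have huk := hu.2 k hk y
  have huxy : u y - u x ≤ 4 * C.n1 := by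
    have := (le_abs_self _).trans (hu.1.abs_le_norm x y); nlinarith
  have hg' : q' - q ∈ C.S := mem_S_of_norm_le hqq'
  have hj : k + v ∈ Lat := Lat.add_mem hk hv
  rcases le_or_gt (dot q' (k + v)) (dot q (k + v)) with c1 | c1
  · have := hu.1 x (y + k)
    simp only [dot_add_right, dot_sub_left] at *
    linarith
  rcases lt_or_ge (dot q (k + v)) 0 with c2 | c2
  · have h1 := dot_le_d hg' x (y + k)
    have h2 := neg_le_dot (q' - q) (y - x)
    have h3 : ‖q' - q‖ * ‖y - x‖ ≤ C.n1 * 4 :=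
      mul_le_mul (hqq'.trans hn01) (by rwa [norm_sub_rev]) (norm_nonneg _) hn1.le
    rw [show y + k - x = (y - x) + k by ring, dot_add_right, dot_sub_left q' q k] at h1
    rw [dot_add_right] at c2
    linarith
  -- the main case
  obtain ⟨l0, hl0, hl1⟩ : ∃ l0 : ℤ, x + (l0 : ℝ) • v ∈ Side (range γ) (I * q) ∧
      x + ((l0 + 1 : ℤ) : ℝ) • v ∉ Side (range γ) (I * q) := by
    have hqv : 0 ≤ dot q v := by linarith
    have e1 := hγ.eventually_side (ρ := -(I * q)) hu hg (by simp) (by simpa using hg1) hqv hg2 x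
    have e2 := hγ.eventually_side' (ρ := -(I * q)) hu hg (by simp) (by simpa using hg1) hqv hg2 x
    obtain ⟨N, hN⟩ := eventually_atTop.1 e1
    obtain ⟨l, hl⟩ := e2.exists
    obtain ⟨l0, h1, h2⟩ := Int.exists_greatest_of_bdd
      (P := fun l : ℤ => x + (l : ℝ) • v ∈ Side (range γ) (I * q)) ⟨N, fun z hz => by
        by_contra hh
        obtain ⟨m, rfl⟩ := Int.eq_ofNat_of_zero_le (show 0 ≤ z by omega)
        exact side_disjoint (hγ.proper hu) hz (by simpa using hN m (by omega))⟩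
      ⟨-l, by simpa using hl⟩
    exact ⟨l0, h1, fun h => by have := h2 _ h; omega⟩
  set m : ℂ := -(((l0 + 1 : ℤ) : ℝ) • v) with hm
  have hmL : m ∈ Lat := Lat.neg_mem (intsmul_mem_Lat hv _)
  set A : ℝ → ℂ := fun t => γ t + m with hA
  have hAl : C.Lane u A := hγ.add_lat hu hmL
  have hxA : x ∉ Side (range A) (I * q) := fun h => hl1 (by
    have := Side.add h (-m)
    simpa [hA, hm] using this)
  have hyB : y + k ∈ Side (range fun t => A t + (k + v)) (I * q) := by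
    have h1 := Side.add hl0 (-((l0 : ℝ) • v))
    rw [add_neg_cancel_right] at h1
    have h2 := Side.add (H _ (Lat.neg_mem (intsmul_mem_Lat hv l0)) h1) k
    have e : (fun t => γ t + -((l0 : ℝ) • v) + k) = fun t => A t + (k + v) := by
      funext t; simp only [hA, hm]; push_cast; rw [add_smul, one_smul]; ring
    rwa [e] at h2
  obtain ⟨t1, t2⟩ := hAl.translate_side hu hq' (by rwa [dot_comm, ← det_eq_dot]) hj c2 c1
  have hBl : C.Lane u fun t => A t + (k + v) := hAl.add_lat hu hj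
  have t3 : Side (range fun t => A t + (k + v)) (I * q) ⊆ Side (range A) (I * q) :=
    Side.trans fun z hz hz' => side_disjoint (hBl.proper hu) hz' (t2 hz)
  obtain ⟨σ, hσ, s0, sL⟩ := exists_geod (C := C) x (y + k)
  obtain ⟨s2, hs2, b, hb⟩ := exists_hit hσ.continuous (C.d_nonneg x (y + k))
    (by rw [s0]; exact fun h => hxA (t3 h)) (by rw [sL]; exact hyB)
  obtain ⟨s1, hs1, a, ha⟩ := exists_hit hσ.continuous hs2.1 (by rw [s0]; exact hxA)
    (t1 ⟨b, hb⟩)
  simp only at hb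
  have d1 := hσ 0 s1
  have d2 := hσ s1 s2
  have d3 := hσ s2 (C.d x (y + k))
  rw [s0, ← ha, abs_sub_comm, abs_of_nonneg (by linarith [hs1.1])] at d1
  rw [← ha, ← hb, abs_sub_comm, abs_of_nonneg (by linarith [hs1.2])] at d2
  rw [sL, ← hb, abs_sub_comm, abs_of_nonneg (by linarith [hs2.2])] at d3
  have u1 := hu.2 _ hj (A b)
  have u2 := hAl.2 a b
  rcases le_or_gt b a with c3 | c3
  · have e1 := dot_le_d_lat hq' (A a) hj
    have e2 := C.d_tri (A a) (A b + (k + v)) (A a + (k + v))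
    have e3 := hAl.1 b a
    rw [C.d_per _ hj] at e2
    rw [abs_sub_comm, abs_of_nonneg (by linarith)] at e3
    have e4 := hu.1 x (A a)
    have e5 := hu.1 (A b + (k + v)) (y + k)
    simp only [dot_add_right, dot_sub_left] at *
    linarith
  · have e1 := dot_le_d hg' x (A a)
    have e2 := dot_le_d hq' (A a) (A b + (k + v))
    have e3 := dot_le_d hg' (A b + (k + v)) (y + k)
    have e4 := (abs_le.1 (hu.abs_sub_le x (A a))).1
    have e5 := (abs_le.1 (hu.abs_sub_le (A b + (k + v)) (y + k))).1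
    have e6 := neg_le_dot q' (y - x)
    have e7 : ‖q'‖ * ‖y - x‖ ≤ 2 * C.n1 * 4 :=
      mul_le_mul (norm_le_of_mem_S hq') (by rwa [norm_sub_rev]) (norm_nonneg _) (by linarith)
    simp only [dot_add_right, dot_sub_left, dot_sub_right] at *
    linarith

lemma lam_le {θ θ' : ℝ} (h0 : θ < θ') (h1 : θ' ≤ θ + 1) :
    C.lam (2 * C.n1) θ ≤ C.lam (2 * C.n1) θ' := by
  obtain ⟨h, rfl⟩ : ∃ h, θ' = θ + h := ⟨θ' - θ, by ring⟩
  have b1 := (delta_bounds (C := C) (θ := θ) (h := h) (by linarith) (by linarith)).1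
  have b3 := det_delta_le (C := C) h0.le (norm_le_of_mem_S (C.P_mem (θ + h)))
  linarith

theorem dichotomy (hS : C.SC) {θ : ℝ} {u0 : ℂ → ℝ} (hu0 : C.Sub (C.P θ) u0) (z : ℂ) {r : ℝ}
    (hr0 : 0 ≤ r) (hr : r ≤ 2) :
    (∀ ε > 0, ∃ θ' u γ, C.Sub (C.P θ') u ∧ C.Lane u γ ∧ ‖γ 0 - z‖ ≤ r ∧
      ∀ y, ‖y - z‖ ≤ r → |u y - u0 y| ≤ ε) ∨
    ∃ u, C.Sub (-C.P θ) u ∧ ∀ y, ‖y - z‖ ≤ r → u y = u0 y := by
  rw [or_iff_not_imp_left]
  intro hcon
  push Not at hcon
  obtain ⟨ε0, hε0, hcon⟩ := hcon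
  have hn1 := C.n1_pos
  set B := {y : ℂ // ‖y - z‖ ≤ r} with hB
  have : Nonempty B := ⟨⟨z, by simpa using hr0⟩⟩
  have hdiam : ∀ x y : B, ‖(x : ℂ) - y‖ ≤ 4 := fun x y => by
    have := norm_sub_le ((x : ℂ) - z) (y - z)
    rw [sub_sub_sub_cancel_right] at this
    linarith [x.2, y.2]
  let F : ℝ → ℂ → B × Lat → ℝ := fun t w ik => u0 ik.1 + dot (C.P t) ik.2 + C.d (ik.1 + ik.2) w
  have hF : ∀ t w ik, u0 w - 2 * C.d ik.1 w ≤ F t w ik := by
    intro t w ik
    have h1 := dot_le_d_lat (neg_mem_S (C.P_mem t)) ik.1 ik.2.2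
    have h2 := C.d_tri ik.1 w (ik.1 + ik.2)
    have h3 := hu0.1 ik.1 w
    rw [C.d_comm w] at h2
    rw [dot_neg_left] at h1
    simp only [F]; linarith
  have hFb : ∀ t w, BddBelow (range (F t w)) := fun t w => ⟨u0 w - 2 * (C.n1 * (r + ‖z - w‖)), by
    rintro _ ⟨ik, rfl⟩
    refine le_trans ?_ (hF t w ik)
    have h1 := C.d_le ik.1 w
    have h2 := norm_add_le ((ik.1 : ℂ) - z) (z - w)
    rw [sub_add_sub_cancel] at h2
    have h3 : C.n1 * ‖(ik.1 : ℂ) - w‖ ≤ C.n1 * (r + ‖z - w‖) := by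
      gcongr; linarith [ik.1.2]
    linarith⟩
  let T : ℝ → ℂ → ℝ := fun t w => ⨅ ik, F t w ik
  have hT : ∀ t, C.Sub (C.P t) (T t) := fun t =>
    sub_iInf (C.P t) (fun x : B => u0 x) (fun x : B => (x : ℂ)) (hFb t)
  have hTle : ∀ t (y : B), T t y ≤ u0 y := fun t y => by
    have := ciInf_le (hFb t y) (y, 0)
    simpa [F, C.d_self] using this
  have hDb : ∀ t, BddBelow (range fun y : B => T t y - u0 y) := fun t => ⟨-(8 * C.n1), by
    rintro _ ⟨y, rfl⟩
    rw [le_sub_iff_add_le]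
    refine le_ciInf fun ik => le_trans ?_ (hF t y ik)
    have h1 := C.d_le ik.1 y
    have h2 := hdiam ik.1 y
    nlinarith⟩
  let D : ℝ → ℝ := fun t => ⨅ y : B, T t y - u0 y
  have hDle : ∀ t (y : B), D t ≤ T t y - u0 y := fun t y => ciInf_le (hDb t) y
  have hleD : ∀ t c, c ≤ D t ↔ ∀ (y : B) ik, c ≤ F t y ik - u0 y := fun t c => by
    simp only [D, T, le_ciInf_iff (hDb t), le_sub_iff_add_le, le_ciInf_iff (hFb t _)]
  have hstep : ∀ t, -ε0 < D t → ∀ v, C.RightVec (C.P t) (46 * C.n1) v →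
      ∀ᶠ t' in 𝓝[>] t, D t - max 0 (-dot (C.P t' - C.P t) v) ≤ D t' := by
    intro t ht v hv
    obtain ⟨γ, hγ⟩ := exists_lane (hT t) (P_not_scale t)
    have hfree : ∀ m ∈ Lat, ∀ s, ¬‖γ s + m - z‖ ≤ r := by
      intro m hm s hs
      obtain ⟨y, hy, hy'⟩ := hcon t (T t) _ (hT t) ((hγ.add_lat (hT t) hm).shift s)
        (by simpa using hs)
      have h1 := hDle t ⟨y, hy⟩
      have h2 := hTle t ⟨y, hy⟩
      rw [abs_of_nonpos (by simpa using h2)] at hy'
      simp only at h1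
      linarith
    have hc : ∀ᶠ t' in 𝓝[>] t, ‖C.P t' - C.P t‖ ≤ C.n0 := by
      refine nhdsWithin_le_nhds ?_
      have := (continuous_P hS).tendsto t
      exact (Metric.tendsto_nhds.1 this C.n0 C.n0_pos).mono fun t' h => by
        rw [← dist_eq_norm]; exact h.le
    filter_upwards [hc, Ioo_mem_nhdsGT (show t < t + Real.pi by linarith [Real.pi_pos])]
      with t' h1 h2
    rw [hleD]
    rintro y ⟨x, k⟩
    have h3 := key hγ (hT t) (C.P_mem t') (det_P_nonneg h2.1 h2.2) h1 (hdiam x y)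
      (fun m hm hx => Side.of_joined hx (JoinedIn.of_segment_subset fun w hw ⟨s, hs⟩ => ?_)) hv
      (Lat.neg_mem k.2)
    · have h4 := C.d_per k k.2 x (y + -k)
      rw [neg_add_cancel_right] at h4
      have h5 := hTle t x
      have h6 := hDle t y
      rw [dot_neg_right] at h3
      simp only [F]
      linarith
    · refine hfree m hm s ?_
      have hw' : w ∈ Metric.closedBall z r := (convex_closedBall z r).segment_subset
        (by simpa [dist_eq_norm] using y.2) (by simpa [dist_eq_norm] using x.2) hw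
      simp only at hs
      rw [hs]; simpa [dist_eq_norm] using hw'
  obtain ⟨Bad, hBad, hgood⟩ := exists_bad hS
  have hP := continuous_P hS
  have hfin : 0 ≤ D (θ + Real.pi) := by
    refine zygmund (lam := C.lam (2 * C.n1)) (a := θ) (by linarith [Real.pi_pos]) hε0 hBad
      (continuous_lam hS _) (fun φ hφ => ?_) ?_ (fun t _ ht δ hδ => ?_) fun t _ ht hb ε hε => ?_
    · simp only [hleD, ofPred_forall]
      exact isClosed_iInter fun y => isClosed_iInter fun ik =>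
        isClosed_le hφ (by simp only [F]; fun_prop)
    · refine le_antisymm ?_ ?_
      · have := hDle θ ⟨z, by simpa using hr0⟩
        have := hTle θ ⟨z, by simpa using hr0⟩
        linarith
      · rw [hleD]
        intro y ik
        have h1 := hu0.1 (ik.1 + ik.2) y
        rw [hu0.2 _ ik.2.2] at h1
        simp only [F]; linarith
    · obtain ⟨v, hv⟩ := exists_rightVec (C := C) (P_ne_zero (C := C) t) (46 * C.n1)
      have h1 : Tendsto (fun t' => -dot (C.P t' - C.P t) v) (𝓝[>] t)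
          (𝓝 (-dot (C.P t - C.P t) v)) :=
        (Continuous.tendsto (by fun_prop) t).mono_left nhdsWithin_le_nhds
      filter_upwards [hstep t ht v hv, h1.eventually (gt_mem_nhds (show _ < δ by simpa))]
        with t' a1 a2
      linarith [max_le hδ.le a2.le]
    · obtain ⟨v, hv, h1⟩ := hgood t hb (46 * C.n1) ε hε
      filter_upwards [hstep t ht v hv, h1, Ioc_mem_nhdsGT (show t < t + 1 by linarith)]
        with t' a1 a2 a3
      have := lam_le (C := C) a3.1 a3.2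
      linarith [max_le (show 0 ≤ ε * (C.lam (2 * C.n1) t' - C.lam (2 * C.n1) t) from
        mul_nonneg hε.le (by linarith)) a2]
  refine ⟨T (θ + Real.pi), P_add_pi hS θ ▸ hT _, fun y hy => le_antisymm (hTle _ ⟨y, hy⟩) ?_⟩
  have := hDle (θ + Real.pi) ⟨y, hy⟩
  simp only at this
  linarith

end Ctx

end Pool.Agent.Lib.MP_b2c218_an
end

-- part Pool.Agent.Lib.MP_b2c218_an.Lin
section

/-!
# Subsolutions are almost linear at small scales; uniqueness
-/

namespace Pool.Agent.Lib.MP_b2c218_an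

open Complex Set Filter Topology

lemma norm_mul_le_of_dot_le {c : ℂ} {r E : ℝ} (hr : 0 ≤ r) (h : ∀ x, ‖x‖ ≤ r → dot c x ≤ E) :
    ‖c‖ * r ≤ E := by
  rcases eq_or_ne c 0 with rfl | hc
  · simpa using h 0 (by simpa)
  have h0 : 0 < ‖c‖ := norm_pos_iff.2 hc
  have := h ((r / ‖c‖) • c) (by
    rw [norm_smul, Real.norm_of_nonneg (by positivity), div_mul_cancel₀ _ h0.ne'])
  rw [dot_smul_right, dot_self] at this
  refine le_of_eq_of_le ?_ this
  field_simp

lemma norm_sub_le_lin {A : ℝ} (hA : 0 < A) {e h : ℂ} (he : ‖e‖ = 1) :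
    ‖A • e - h‖ ≤ A - dot e h + ‖h‖ ^ 2 / (2 * A) := by
  have h1 : ‖A • e - h‖ ^ 2 = A ^ 2 - 2 * A * dot e h + ‖h‖ ^ 2 := by
    rw [← dot_self, ← dot_self h]
    simp only [dot_sub_left, dot_sub_right, dot_smul_left, dot_smul_right, dot_self e, he,
      dot_comm h e]
    ring
  have h2 : A - dot e h + ‖h‖ ^ 2 / (2 * A) = (‖A • e - h‖ ^ 2 + A ^ 2) / (2 * A) := by
    rw [h1]; field_simp; ring
  rw [h2, le_div_iff₀ (by positivity)]
  nlinarith [sq_nonneg (‖A • e - h‖ - A)]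

namespace Ctx

/-- `u` is almost linear with slope `n z` and direction `e` on the ball of radius `r` -/
def Lin (C : Ctx) (u : ℂ → ℝ) (z : ℂ) (r : ℝ) (e : ℂ) (β : ℝ) : Prop :=
  ‖e‖ = 1 ∧ ∀ w, ‖w - z‖ ≤ r → |u w - u z - C.n z * dot e (w - z)| ≤ β * r

variable {C : Ctx}

lemma n_unif {β : ℝ} (hβ : 0 < β) : ∃ r > 0, ∀ b z, ‖b - z‖ ≤ r → |C.n b - C.n z| ≤ β := by
  obtain ⟨r, hr, h⟩ := C.d_loc (β / 2) (half_pos hβ)
  refine ⟨r, hr, fun b z hbz => ?_⟩
  rcases eq_or_ne b z with rfl | hne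
  · simpa using hβ.le
  have h0 : 0 < ‖b - z‖ := norm_pos_iff.2 (sub_ne_zero.2 hne)
  have h1 := h b b z (by simpa using hr.le) (by rwa [norm_sub_rev])
  have h2 := h z b z hbz (by simpa using hr.le)
  have h3 := le_of_mul_le_mul_right (h1.1.trans h2.2) h0
  have h4 := le_of_mul_le_mul_right (h2.1.trans h1.2) h0
  rw [abs_le]; constructor <;> linarith

lemma lin_aux {β : ℝ} (hβ : 0 < β) : ∃ r0 > 0, ∀ v γ, C.Lip v → C.Lane v γ → ∀ r, 0 < r →
    r ≤ r0 → ∃ e, ‖e‖ = 1 ∧ ∀ w, ‖w - γ 0‖ ≤ r →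
      C.n (γ 0) * dot e (w - γ 0) - β * r ≤ v w - v (γ 0) := by
  have hn0 := C.n0_pos
  have hn1 := C.n1_pos
  set K := (C.n1 + 1) / β with hK
  have hK0 : 0 < K := by positivity
  set β' := min 1 (β / 2 / (2 * (K * C.n1 / C.n0) + 1)) with hβ'
  have hβ'0 : 0 < β' := by positivity
  have hβ'1 : β' ≤ 1 := min_le_left _ _
  have hβ'2 : β' * (2 * (K * C.n1 / C.n0) + 1) ≤ β / 2 := by
    rw [← le_div_iff₀ (by positivity)]; exact min_le_right _ _
  obtain ⟨ρ, hρ, hloc⟩ := C.d_loc β' hβ'0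
  refine ⟨ρ / (K * C.n1 / C.n0 + 1), by positivity, fun v γ hv hγ r hr hr0 => ?_⟩
  rw [le_div_iff₀ (by positivity)] at hr0
  set b := γ 0 with hb
  set T := K * C.n1 * r with hT
  have hT0 : 0 < T := by positivity
  have hd : C.d (γ T) b = T := by rw [hγ.d_eq hv, sub_zero, abs_of_pos hT0]
  set A := ‖γ T - b‖ with hA
  have hA1 : K * r ≤ A := by
    have := C.d_le (γ T) b
    rw [hd, hT] at this
    exact le_of_mul_le_mul_left (by linarith) hn1
  have hA0 : 0 < A := lt_of_lt_of_le (by positivity) hA1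
  have hA2 : A ≤ K * C.n1 / C.n0 * r := by
    have := C.norm_le_d (γ T) b
    rw [hd, hT] at this
    exact this.trans_eq (by ring)
  have hKr : 0 ≤ K * C.n1 / C.n0 * r := by positivity
  have he : ‖A⁻¹ • (γ T - b)‖ = 1 := by
    rw [norm_smul, Real.norm_of_nonneg (by positivity), inv_mul_cancel₀ hA0.ne']
  refine ⟨_, he, fun w hw => ?_⟩
  set e := A⁻¹ • (γ T - b) with hee
  have h1 := norm_sub_le_lin (h := w - b) hA0 he
  have h2 : A • e - (w - b) = γ T - w := by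
    rw [hee, smul_smul, mul_inv_cancel₀ hA0.ne', one_smul]; ring
  rw [h2] at h1
  have h3 := (hloc b (γ T) w (by linarith) (by linarith)).2
  have h4 := (hloc b (γ T) b (by linarith) (by simpa using hρ.le)).1
  rw [hd] at h4
  have h5 := hv w (γ T)
  rw [C.d_comm] at h5
  have h6 := hγ.2 0 T
  have h7 : ‖w - b‖ ^ 2 / (2 * A) ≤ r / (2 * K) := by
    rw [div_le_div_iff₀ (by positivity) (by positivity)]
    have : ‖w - b‖ ^ 2 ≤ r ^ 2 := by gcongr
    nlinarith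
  have h8 : (C.n b + β') * ‖γ T - w‖ ≤ (C.n b + β') * (A - dot e (w - b) + r / (2 * K)) := by
    have := C.n_pos b
    gcongr; linarith
  have h9 : (C.n b + β') * (r / (2 * K)) ≤ β / 2 * r := by
    calc _ ≤ (C.n1 + 1) * (r / (2 * K)) := by gcongr; exact C.n_le b
      _ = β / 2 * r := by rw [hK]; field_simp
  have h10 := neg_le_dot e (w - b)
  rw [he, one_mul] at h10
  have h11 : β' * (2 * A + r) ≤ β / 2 * r := by
    calc β' * (2 * A + r) ≤ β' * (2 * (K * C.n1 / C.n0 * r) + r) := by gcongr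
      _ = β' * (2 * (K * C.n1 / C.n0) + 1) * r := by ring
      _ ≤ _ := by gcongr
  have h12 : -(β' * r) ≤ β' * dot e (w - b) := by nlinarith
  nlinarith

lemma lin_of_lane0 {β : ℝ} (hβ : 0 < β) : ∃ r0 > 0, ∀ v γ, C.Lip v → C.Lane v γ → ∀ r, 0 < r →
    r ≤ r0 → ∃ e, C.Lin v (γ 0) r e β := by
  obtain ⟨r0, hr0, h⟩ := lin_aux (C := C) (β := β / 3) (by positivity)
  refine ⟨r0, hr0, fun v γ hv hγ r hr hr' => ?_⟩
  obtain ⟨e, he, h1⟩ := h v γ hv hγ r hr hr'
  obtain ⟨e', he', h2⟩ := h _ _ hv.neg hγ.rev r hr hr'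
  simp only [neg_zero] at h2
  have h3 := norm_mul_le_of_dot_le (c := C.n (γ 0) • (e + e')) (E := 2 * (β / 3 * r)) hr.le
    fun x hx => by
      have a1 := h1 (x + γ 0) (by simpa using hx)
      have a2 := h2 (x + γ 0) (by simpa using hx)
      rw [add_sub_cancel_right] at a1 a2
      rw [dot_smul_left, dot_add_left]; linarith
  refine ⟨e, he, fun w hw => ?_⟩
  have a1 := h1 w hw
  have a2 := h2 w hw
  have a3 := neg_le_dot (C.n (γ 0) • (e + e')) (w - γ 0)
  have a4 : ‖C.n (γ 0) • (e + e')‖ * ‖w - γ 0‖ ≤ ‖C.n (γ 0) • (e + e')‖ * r := by gcongr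
  rw [dot_smul_left, dot_add_left] at a3
  have : 0 ≤ β * r := by positivity
  rw [abs_le]; constructor <;> linarith

lemma lin_of_lane {β : ℝ} (hβ : 0 < β) : ∃ r0 > 0, ∀ v γ z, C.Lip v → C.Lane v γ → ∀ r, 0 < r →
    r ≤ r0 → ‖γ 0 - z‖ ≤ r → ∃ e, C.Lin v z r e β := by
  obtain ⟨r0, hr0, h⟩ := lin_of_lane0 (C := C) (β := β / 8) (by positivity)
  obtain ⟨r1, hr1, h'⟩ := n_unif (C := C) (half_pos hβ)
  refine ⟨min (r0 / 2) r1, by positivity, fun v γ z hv hγ r hr hr' hz => ?_⟩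
  obtain ⟨e, he, h1⟩ := h v γ hv hγ (2 * r) (by positivity) (by linarith [min_le_left (r0 / 2) r1])
  refine ⟨e, he, fun w hw => ?_⟩
  have a0 : ‖w - γ 0‖ ≤ 2 * r := by
    have := norm_sub_le (w - z) (γ 0 - z)
    rw [sub_sub_sub_cancel_right] at this; linarith
  have a1 := abs_le.1 (h1 w a0)
  have a2 := abs_le.1 (h1 z (by rw [norm_sub_rev]; linarith))
  have a3 := h' (γ 0) z (hz.trans (hr'.trans (min_le_right _ _)))
  have a4 := abs_dot_le e (w - z)
  rw [he, one_mul] at a4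
  have a5 : |(C.n (γ 0) - C.n z) * dot e (w - z)| ≤ β / 2 * r := by
    rw [abs_mul]; exact mul_le_mul a3 (a4.trans hw) (abs_nonneg _) (by positivity)
  have a6 := abs_le.1 a5
  simp only [dot_sub_right] at *
  rw [abs_le]; constructor <;> nlinarith

lemma Sub.avg {p : ℂ} {u v : ℂ → ℝ} (hu : C.Sub p u) (hv : C.Sub p v) :
    C.Sub p fun x => (u x + v x) / 2 :=
  ⟨fun x y => by linarith [hu.1 x y, hv.1 x y], fun k hk x => by
    simp only [hu.2 k hk, hv.2 k hk]; ring⟩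

/-- some subsolution is constant on a ball of radius `r` -/
def Flat (C : Ctx) (r : ℝ) : Prop :=
  ∃ θ u z, C.Sub (C.P θ) u ∧ ∀ y, ‖y - z‖ ≤ r → u y = u z

lemma flat_of_transport {θ r : ℝ} {u u' : ℂ → ℝ} {z : ℂ} (hr : 0 ≤ r) (hu : C.Sub (C.P θ) u)
    (hu' : C.Sub (-C.P θ) u') (h : ∀ y, ‖y - z‖ ≤ r → u' y = u y) : C.Flat r := by
  have h1 := hu'.neg
  rw [neg_neg] at h1
  refine ⟨θ, _, z, hu.avg h1, fun y hy => ?_⟩
  simp [h y hy, h z (by simpa)]

lemma Flat.lt_one {r : ℝ} (h : C.Flat r) : r < 1 := by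
  by_contra hr
  push Not at hr
  obtain ⟨θ, u, z, hu, h⟩ := h
  have h1 := hu.2 1 one_mem_Lat z
  have h2 := hu.2 I I_mem_Lat z
  rw [h _ (by simpa)] at h1 h2
  refine P_ne_zero (C := C) θ (Complex.ext ?_ ?_)
  · simpa [dot] using h1
  · simpa [dot] using h2

lemma not_flat (hS : C.SC) {r : ℝ} (hr : 0 < r) : ¬C.Flat r := by
  intro hf
  have hn0 := C.n0_pos
  have hb : BddAbove {r | C.Flat r} := ⟨1, fun r h => h.lt_one.le⟩
  set R := sSup {r | C.Flat r} with hR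
  have hR0 : 0 < R := hr.trans_le (le_csSup hb hf)
  have hR1 : R ≤ 1 := csSup_le ⟨r, hf⟩ fun r h => h.lt_one.le
  obtain ⟨r0, hr0, hl⟩ := lin_of_lane0 (C := C) (β := C.n0 / 8) (by positivity)
  set η := min r0 R with hη
  have hη0 : 0 < η := by positivity
  have hηR : η ≤ R := min_le_right _ _
  obtain ⟨s, hs, hs1⟩ := exists_lt_of_lt_csSup (s := {r | C.Flat r}) ⟨r, hf⟩
    (show R - η / 4 < R by linarith)
  have hs2 : s ≤ R := le_csSup hb hs
  obtain ⟨θ, u, z, hu, h⟩ := hs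
  rcases dichotomy hS hu z (r := s + η / 4) (by linarith) (by linarith) with h1 | ⟨u', h1, h2⟩
  · obtain ⟨θ', u', γ, a1, a2, a3, a4⟩ := h1 (C.n0 * η / 16) (by positivity)
    obtain ⟨e, he, a5⟩ := hl u' γ a1.1 a2 η hη0 (min_le_left _ _)
    set τ := η / (2 * (s + η / 4)) with hτ
    have hτ0 : 0 ≤ τ := div_nonneg hη0.le (by linarith)
    have hτ1 : τ * (s + η / 4) = η / 2 := by
      have : s + η / 4 ≠ 0 := by linarith
      rw [hτ, div_mul_eq_mul_div, mul_div_mul_right _ _ this]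
    have hτ2 : τ ≤ 1 := by rw [hτ, div_le_one (by linarith)]; linarith
    set c := γ 0 + τ • (z - γ 0) with hc
    have c1 : ‖c - γ 0‖ ≤ η / 2 := by
      rw [hc, add_sub_cancel_left, norm_smul, Real.norm_of_nonneg hτ0, norm_sub_rev, ← hτ1]
      gcongr
    have c2 : ‖c - z‖ ≤ s - η / 4 := by
      have : c - z = (1 - τ) • (γ 0 - z) := by
        rw [hc]; simp only [real_smul]; push_cast; ring
      rw [this, norm_smul, Real.norm_of_nonneg (by linarith)]
      calc (1 - τ) * ‖γ 0 - z‖ ≤ (1 - τ) * (s + η / 4) := by gcongr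
        _ = _ := by linarith
    have hw : ∀ σ : ℝ, |σ| ≤ η / 4 → |u' (c + σ • e) - u z| ≤ C.n0 * η / 16 ∧
        |u' (c + σ • e) - u' (γ 0) - C.n (γ 0) * (dot e (c - γ 0) + σ)| ≤ C.n0 / 8 * η := by
      intro σ hσ
      have b0 : ‖σ • e‖ ≤ η / 4 := by rwa [norm_smul, he, mul_one]
      have b1 : ‖c + σ • e - z‖ ≤ s := by
        rw [add_sub_right_comm]; exact (norm_add_le _ _).trans (by linarith)
      have b2 : ‖c + σ • e - γ 0‖ ≤ η := by
        rw [add_sub_right_comm]; exact (norm_add_le _ _).trans (by linarith)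
      refine ⟨by rw [← h _ b1]; exact a4 _ (by linarith), ?_⟩
      have := a5 _ b2
      rwa [add_sub_right_comm, dot_add_right, dot_smul_right, dot_self, he, one_pow, mul_one]
        at this
    obtain ⟨b1, b2⟩ := hw (η / 4) (by rw [abs_of_pos (by positivity)])
    obtain ⟨b3, b4⟩ := hw (-(η / 4)) (by rw [abs_neg, abs_of_pos (by positivity)])
    rw [abs_le] at b1 b2 b3 b4
    have b5 : C.n0 * η ≤ C.n (γ 0) * η := by gcongr; exact C.n_ge _
    have b6 : 0 < C.n0 * η := by positivity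
    linarith [b1.2, b2.1, b3.1, b4.2]
  · have := le_csSup hb (flat_of_transport (by linarith) hu h1 h2)
    linarith

/-- every subsolution with extremal mean slope is almost linear at all small scales -/
theorem thmA (hS : C.SC) {β : ℝ} (hβ : 0 < β) : ∃ r0 > 0, ∀ θ u z, C.Sub (C.P θ) u → ∀ r, 0 < r →
    r ≤ r0 → ∃ e, C.Lin u z r e β := by
  obtain ⟨r0, hr0, h⟩ := lin_of_lane (C := C) (half_pos hβ)
  refine ⟨min r0 2, by positivity, fun θ u z hu r hr hr' => ?_⟩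
  rcases dichotomy hS hu z hr.le (hr'.trans (min_le_right _ _)) with h1 | ⟨u', h1, h2⟩
  · obtain ⟨θ', u', γ, a1, a2, a3, a4⟩ := h1 (β * r / 4) (by positivity)
    obtain ⟨e, he, a5⟩ := h u' γ z a1.1 a2 r hr (hr'.trans (min_le_left _ _)) a3
    refine ⟨e, he, fun w hw => ?_⟩
    have b1 := abs_le.1 (a5 w hw)
    have b2 := abs_le.1 (a4 w hw)
    have b3 := abs_le.1 (a4 z (by simpa using hr.le))
    rw [abs_le]; constructor <;> linarith
  · exact (not_flat hS hr (flat_of_transport hr.le hu h1 h2)).elim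

theorem sub_unique (hS : C.SC) {θ : ℝ} {u v : ℂ → ℝ} (hu : C.Sub (C.P θ) u)
    (hv : C.Sub (C.P θ) v) (x y : ℂ) : u y - u x = v y - v x := by
  have hn0 := C.n0_pos
  have hn1 := C.n1_pos
  have key : ∀ z, HasFDerivAt (fun w => u w - v w) (0 : ℂ →L[ℝ] ℝ) z := by
    intro z
    rw [hasFDerivAt_iff_isLittleO_nhds_zero, Asymptotics.isLittleO_iff]
    intro c hc
    set κ := c / 2 / C.n1 with hκ
    have hκ0 : 0 < κ := by positivity
    set β := min (c / 4) (κ ^ 2 * C.n0 / 16) with hβ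
    have hβ0 : 0 < β := by positivity
    obtain ⟨r0, hr0, h⟩ := thmA hS hβ0
    filter_upwards [Metric.closedBall_mem_nhds 0 hr0] with w hw
    rcases eq_or_ne w 0 with rfl | hw0
    · simp
    rw [Metric.mem_closedBall, dist_zero_right] at hw
    have hr : 0 < ‖w‖ := norm_pos_iff.2 hw0
    obtain ⟨e1, he1, h1⟩ := h θ u z hu _ hr hw
    obtain ⟨e2, he2, h2⟩ := h θ v z hv _ hr hw
    obtain ⟨e3, he3, h3⟩ := h θ _ z (hu.avg hv) _ hr hw
    have hw3 : ‖z + ‖w‖ • e3 - z‖ ≤ ‖w‖ := by simp [he3]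
    have a1 := (abs_le.1 (h1 _ hw3)).2
    have a2 := (abs_le.1 (h2 _ hw3)).2
    have a3 := (abs_le.1 (h3 _ hw3)).1
    rw [add_sub_cancel_left, dot_smul_right] at a1 a2 a3
    rw [dot_self, he3] at a3
    have a4 : C.n z * (2 - dot (e1 + e2) e3) ≤ 4 * β := by
      rw [dot_add_left]
      exact le_of_mul_le_mul_right (by linarith) hr
    have a5 := dot_le (e1 + e2) e3
    rw [he3, mul_one] at a5
    have a6 : ‖e1 + e2‖ ≤ 2 := (norm_add_le _ _).trans (by linarith)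
    have a7 : C.n0 * (2 - ‖e1 + e2‖) ≤ 4 * β :=
      le_trans (mul_le_mul (C.n_ge z) (by linarith) (by linarith) (C.n_pos z).le) a4
    have a8 : ‖e1 - e2‖ ^ 2 + ‖e1 + e2‖ ^ 2 = 4 := by
      have b1 := dot_self e1
      have b2 := dot_self e2
      rw [he1] at b1; rw [he2] at b2
      simp only [← dot_self, dot_add_left, dot_add_right, dot_sub_left, dot_sub_right]
      linarith
    have a9 : ‖e1 - e2‖ ≤ κ := by
      refine (abs_le_of_sq_le_sq' ?_ hκ0.le).2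
      have b1 : 16 * β ≤ κ ^ 2 * C.n0 := by linarith [min_le_right (c / 4) (κ ^ 2 * C.n0 / 16)]
      have b2 : ‖e1 - e2‖ ^ 2 ≤ 4 * (2 - ‖e1 + e2‖) := by nlinarith
      exact le_of_mul_le_mul_right (by nlinarith) hn0
    have hw4 : ‖z + w - z‖ ≤ ‖w‖ := by simp
    have b1 := abs_le.1 (h1 _ hw4)
    have b2 := abs_le.1 (h2 _ hw4)
    rw [add_sub_cancel_left] at b1 b2
    have b3 : |C.n z * dot (e1 - e2) w| ≤ c / 2 * ‖w‖ := by
      rw [abs_mul, abs_of_pos (C.n_pos z)]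
      calc _ ≤ C.n1 * (κ * ‖w‖) :=
            mul_le_mul (C.n_le z) ((abs_dot_le _ _).trans (by gcongr)) (abs_nonneg _) hn1.le
        _ = _ := by rw [hκ]; field_simp
    have b4 : β * ‖w‖ ≤ c / 4 * ‖w‖ := by gcongr; exact min_le_left _ _
    rw [dot_sub_left, abs_le] at b3
    simp only [zero_apply, sub_zero, Real.norm_eq_abs]
    rw [abs_le]; constructor <;> linarith [b3.1, b3.2]
  have := is_const_of_fderiv_eq_zero (𝕜 := ℝ) (f := fun w => u w - v w)
    (fun z => (key z).differentiableAt) (fun z => (key z).fderiv) x y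
  linarith

variable (C) in
/-- the normalized subsolution of mean slope `P θ` -/
noncomputable def U (θ : ℝ) (y : ℂ) : ℝ :=
  (exists_sub (C.P_mem θ)).choose y - (exists_sub (C.P_mem θ)).choose 0

lemma U_sub (θ : ℝ) : C.Sub (C.P θ) (C.U θ) := by
  have h := (exists_sub (C.P_mem θ)).choose_spec
  exact ⟨fun x y => by simpa [U] using h.1 x y, fun k hk x => by
    simp only [U, h.2 k hk]; ring⟩

lemma U_zero (θ : ℝ) : C.U θ 0 = 0 := sub_self _

lemma U_add_pi (hS : C.SC) (θ : ℝ) (y : ℂ) : C.U (θ + Real.pi) y = -C.U θ y := by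
  have := sub_unique hS (U_sub (θ + Real.pi)) (P_add_pi hS θ ▸ (U_sub θ).neg) 0 y
  simpa [U_zero] using this

lemma U_eq_of_P_eq (hS : C.SC) {θ θ' : ℝ} (h : C.P θ' = C.P θ) (y : ℂ) : C.U θ' y = C.U θ y := by
  have := sub_unique hS (U_sub θ') (h ▸ U_sub θ) 0 y
  simpa [U_zero] using this

lemma U_usc (hS : C.SC) (x y : ℂ) (θ a : ℝ) (h : C.U θ y - C.U θ x < a) :
    ∀ᶠ t in 𝓝 θ, C.U t y - C.U t x < a := by
  have hb : ∀ w, BddBelow (range fun ik : Unit × Lat =>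
      (0 : ℝ) + dot (C.P θ) ik.2 + C.d (x + ik.2) w) := fun w => ⟨C.U θ w - C.U θ x, by
    rintro _ ⟨ik, rfl⟩
    have := (U_sub (C := C) θ).1 (x + ik.2) w
    rw [(U_sub θ).2 _ ik.2.2] at this
    simp only; linarith⟩
  have h1 := sub_unique hS (U_sub θ) (sub_iInf (ι := Unit) _ (fun _ => 0) (fun _ => x) hb) x y
  have h2 : 0 ≤ ⨅ ik : Unit × Lat, (0 : ℝ) + dot (C.P θ) ik.2 + C.d (x + ik.2) x :=
    le_ciInf fun ik => by
      have := (U_sub (C := C) θ).1 (x + ik.2) x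
      rw [(U_sub θ).2 _ ik.2.2] at this
      linarith
  have h3 : (⨅ ik : Unit × Lat, (0 : ℝ) + dot (C.P θ) ik.2 + C.d (x + ik.2) x) ≤ 0 := by
    simpa [C.d_self] using ciInf_le (hb x) ((), 0)
  obtain ⟨ik, h4⟩ := exists_lt_of_ciInf_lt (show (⨅ ik : Unit × Lat,
    (0 : ℝ) + dot (C.P θ) ik.2 + C.d (x + ik.2) y) < a by linarith)
  have hP := continuous_P hS
  have h5 : Continuous fun t => (0 : ℝ) + dot (C.P t) ik.2 + C.d (x + ik.2) y := by fun_prop
  filter_upwards [(h5.tendsto θ).eventually (gt_mem_nhds h4)] with t ht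
  have := (U_sub (C := C) t).1 (x + ik.2) y
  rw [(U_sub t).2 _ ik.2.2] at this
  linarith

lemma continuous_U_left (hS : C.SC) (y : ℂ) : Continuous fun θ => C.U θ y := by
  refine continuous_iff_continuousAt.2 fun θ => tendsto_order.2 ⟨fun a ha => ?_, fun a ha => ?_⟩
  · filter_upwards [U_usc hS y 0 θ (-a) (by rw [U_zero]; linarith)] with t ht
    rw [U_zero] at ht; linarith
  · filter_upwards [U_usc hS 0 y θ a (by rw [U_zero]; linarith)] with t ht
    rw [U_zero] at ht; linarith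

lemma continuous_U (hS : C.SC) : Continuous fun p : ℝ × ℂ => C.U p.1 p.2 := by
  refine continuous_prod_of_continuous_lipschitzWith' _ C.n1.toNNReal (fun θ => ?_)
    (continuous_U_left hS)
  refine LipschitzWith.of_dist_le_mul fun y z => ?_
  rw [Real.coe_toNNReal _ C.n1_pos.le, Real.dist_eq, dist_eq_norm, norm_sub_rev]
  exact (U_sub θ).1.abs_le_norm z y

lemma U_close (hS : C.SC) {ε : ℝ} (hε : 0 < ε) : ∃ δ > 0, ∀ θ ∈ Icc 0 Real.pi,
    ∀ θ' ∈ Icc 0 Real.pi, |θ' - θ| ≤ δ → ‖C.P θ' - C.P θ‖ ≤ ε ∧ ∀ a b,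
      |(C.U θ' a - C.U θ a) - (C.U θ' b - C.U θ b)| ≤ ε * (1 + ‖a - b‖) := by
  have h1 := ((isCompact_Icc (a := 0) (b := Real.pi)).prod
    (isCompact_closedBall (0 : ℂ) 1)).uniformContinuousOn_of_continuous
    (continuous_U hS).continuousOn
  have h2 := (isCompact_Icc (a := 0) (b := Real.pi)).uniformContinuousOn_of_continuous
    (continuous_P hS).continuousOn
  obtain ⟨δ1, hδ1, h1⟩ := Metric.uniformContinuousOn_iff_le.1 h1 (ε / 4) (by positivity)
  obtain ⟨δ2, hδ2, h2⟩ := Metric.uniformContinuousOn_iff_le.1 h2 (ε / 4) (by positivity)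
  refine ⟨min δ1 δ2, by positivity, fun θ hθ θ' hθ' h => ?_⟩
  have a1 := h2 θ' hθ' θ hθ (h.trans (min_le_right _ _))
  rw [dist_eq_norm] at a1
  have a2 : ∀ a, ‖a‖ ≤ 1 → |C.U θ' a - C.U θ a| ≤ ε / 4 := fun a ha =>
    h1 (θ', a) ⟨hθ', by simpa using ha⟩ (θ, a) ⟨hθ, by simpa using ha⟩
      (by simpa [Prod.dist_eq, Real.dist_eq] using h.trans (min_le_left _ _))
  refine ⟨by linarith, fun a b => ?_⟩
  obtain ⟨k, hk, hak⟩ := exists_lat_near a
  obtain ⟨l, hl, hbl⟩ := exists_lat_near b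
  have b1 := (U_sub (C := C) θ).2 k hk (a - k)
  have b2 := (U_sub (C := C) θ').2 k hk (a - k)
  have b3 := (U_sub (C := C) θ).2 l hl (b - l)
  have b4 := (U_sub (C := C) θ').2 l hl (b - l)
  rw [sub_add_cancel] at b1 b2 b3 b4
  have b5 := abs_le.1 (a2 _ hak)
  have b6 := abs_le.1 (a2 _ hbl)
  have b7 : ‖k - l‖ ≤ ‖a - b‖ + 2 := by
    have e : k - l = (a - b) - (a - k) + (b - l) := by ring
    rw [e]
    linarith [norm_add_le (a - b - (a - k)) (b - l), norm_sub_le (a - b) (a - k)]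
  have b8 := abs_le.1 ((abs_dot_le (C.P θ' - C.P θ) (k - l)).trans
    (mul_le_mul a1 b7 (norm_nonneg _) (by positivity)))
  have b9 : 0 ≤ ε * ‖a - b‖ := by positivity
  simp only [dot_sub_left, dot_sub_right] at b8
  rw [abs_le]; constructor <;> linarith

theorem exists_lane_at (hS : C.SC) (θ : ℝ) (x : ℂ) : ∃ γ, C.Lane (C.U θ) γ ∧ γ 0 = x := by
  refine exists_lane_through (U_sub θ).1 (fun ε hε => ?_) x
  have hn0 := C.n0_pos
  set β := ε * C.n0 / 2 with hβ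
  have hβ0 : 0 < β := by positivity
  obtain ⟨r0, hr0, h0⟩ := thmA hS hβ0
  obtain ⟨r1, hr1, h1⟩ := C.d_loc β hβ0
  refine ⟨min ε (min r0 r1 * C.n0), by positivity, min_le_left _ _, fun x => ?_⟩
  set h := min ε (min r0 r1 * C.n0) with hh
  have hh0 : 0 < h := by positivity
  have hx := C.n_pos x
  set r := h / (C.n x + β) with hr
  have hr2 : 0 < r := by positivity
  have hr3 : r ≤ min r0 r1 := by
    rw [hr, div_le_iff₀ (by positivity)]
    refine (min_le_right _ _).trans ?_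
    gcongr; linarith [C.n_ge x]
  have hr4 : (C.n x + β) * r = h := by rw [hr]; field_simp
  obtain ⟨e, he, h2⟩ := h0 θ _ x (U_sub θ) r hr2 (hr3.trans (min_le_left _ _))
  have key : ∀ σ : ℝ, |σ| = r → C.d x (x + σ • e) ≤ h ∧
      |C.U θ (x + σ • e) - C.U θ x - C.n x * σ| ≤ β * r := by
    intro σ hσ
    have a1 : ‖x + σ • e - x‖ = r := by
      rw [add_sub_cancel_left, norm_smul, he, mul_one, Real.norm_eq_abs, hσ]
    have a2 := (h1 x x (x + σ • e) (by simpa using hr1.le)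
      (a1.le.trans (hr3.trans (min_le_right _ _)))).2
    have a3 := h2 _ a1.le
    rw [norm_sub_rev, a1, hr4] at a2
    rw [add_sub_cancel_left, dot_smul_right, dot_self, he, one_pow, mul_one] at a3
    exact ⟨a2, a3⟩
  have hε2 : (1 - ε) * h ≤ C.n x * r - β * r := by
    rw [← hr4]
    have : 2 * β ≤ ε * (C.n x + β) := by
      rw [hβ]; nlinarith [C.n_ge x]
    nlinarith
  obtain ⟨b1, b2⟩ := key r (abs_of_pos hr2)
  obtain ⟨b3, b4⟩ := key (-r) (by rw [abs_neg, abs_of_pos hr2])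
  exact ⟨⟨_, b1, by linarith [(abs_le.1 b2).1]⟩, ⟨_, b3, by linarith [(abs_le.1 b4).2]⟩⟩

end Ctx

end Pool.Agent.Lib.MP_b2c218_an
end
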