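import Pool.Agent.Lib.MP_b2c218_an.Lin

-- part Pool.Agent.Lib.MP_b2c218_an.Mon
section

/-!
# Local sides of calibrated lines and monotonicity in the angle
-/

namespace Pool.Agent.Lib.MP_b2c218_an

open Complex Set Filter Topology

lemma approx_dot_det {e e' G G' : ℂ} {N ε : ℝ} (he : ‖e‖ = 1) (he' : ‖e'‖ = 1) (hN : 0 ≤ N)
    (hε : ε ≤ 1) (h : ‖G - N • e‖ ≤ ε * N) (h' : ‖G' - N • e'‖ ≤ ε * N) :
    |dot G G' - N ^ 2 * dot e e'| ≤ 3 * ε * N ^ 2 ∧
      |det G G' - N ^ 2 * det e e'| ≤ 3 * ε * N ^ 2 := by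
  obtain ⟨E, rfl⟩ : ∃ E, G = E + N • e := ⟨G - N • e, by ring⟩
  obtain ⟨E', rfl⟩ : ∃ E', G' = E' + N • e' := ⟨G' - N • e', by ring⟩
  rw [add_sub_cancel_right] at h h'
  have h0 : 0 ≤ ε * N := (norm_nonneg _).trans h
  have a1 : ‖E‖ * ‖E'‖ ≤ ε * N ^ 2 := by
    calc ‖E‖ * ‖E'‖ ≤ (ε * N) * (ε * N) := by gcongr
      _ ≤ (ε * N) * (1 * N) := by gcongr
      _ = _ := by ring
  have a2 : N * (‖E‖ * ‖e'‖) ≤ ε * N ^ 2 := by rw [he']; nlinarith
  have a3 : N * (‖e‖ * ‖E'‖) ≤ ε * N ^ 2 := by rw [he]; nlinarith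
  constructor
  · have b1 := abs_le.1 ((abs_dot_le E E').trans a1)
    have b2 := abs_le.1 (abs_dot_le E e')
    have b3 := abs_le.1 (abs_dot_le e E')
    simp only [dot_add_left, dot_add_right, dot_smul_left, dot_smul_right]
    rw [abs_le]; constructor <;> nlinarith
  · have b1 := abs_le.1 ((abs_det_le E E').trans a1)
    have b2 := abs_le.1 (abs_det_le E e')
    have b3 := abs_le.1 (abs_det_le e E')
    simp only [det_add_left, det_add_right, det_smul_left, det_smul_right]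
    rw [abs_le]; constructor <;> nlinarith

lemma sign_real {a b g1 g2 N w1 w2 v1 v2 : ℝ} (hN : 0 ≤ N) (hab : a ^ 2 + b ^ 2 = 1)
    (h1 : |g1 - N * a| ≤ N / 4) (h2 : |g2 - N * b| ≤ N / 4)
    (p1 : 1 / 4 ≤ a → v2 ≤ v1) (p2 : 1 / 4 ≤ -a → v1 ≤ v2)
    (p3 : 1 / 4 ≤ -b → w2 ≤ w1) (p4 : 1 / 4 ≤ b → w1 ≤ w2)
    (p5 : 1 / 2 ≤ a - b → v2 ≤ w1 ∧ w2 ≤ v1) (p6 : 1 / 2 ≤ b - a → w1 ≤ v2 ∧ v1 ≤ w2)
    (p7 : 1 / 2 ≤ a + b → v2 ≤ w2 ∧ w1 ≤ v1) (p8 : 1 / 2 ≤ -(a + b) → w2 ≤ v2 ∧ v1 ≤ w1) :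
    0 ≤ g1 * (v1 - v2) - g2 * (w1 - w2) := by
  rw [abs_le] at h1 h2
  have key : ∀ x y X Y : ℝ, |y| ≤ x → |Y| ≤ X → 0 ≤ x * X - y * Y := fun x y X Y k1 k2 => by
    have := mul_le_mul k1 k2 (abs_nonneg _) ((abs_nonneg _).trans k1)
    rw [← abs_mul] at this
    linarith [le_abs_self (y * Y)]
  by_cases cb : |b| < 1 / 4
  · have cb' := abs_lt.1 cb
    have hg2 : |g2| ≤ N / 2 := abs_le.2 ⟨by nlinarith, by nlinarith⟩
    rcases le_total 0 a with ca | ca
    · have ha : 3 / 4 ≤ a := by nlinarith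
      obtain ⟨q1, q2⟩ := p5 (by linarith)
      obtain ⟨q3, q4⟩ := p7 (by linarith)
      exact key _ _ _ _ (hg2.trans (by nlinarith)) (abs_le.2 ⟨by linarith, by linarith⟩)
    · have ha : a ≤ -(3 / 4) := by nlinarith
      obtain ⟨q1, q2⟩ := p6 (by linarith)
      obtain ⟨q3, q4⟩ := p8 (by linarith)
      have := key (-g1) g2 (v2 - v1) (w1 - w2) (hg2.trans (by nlinarith))
        (abs_le.2 ⟨by linarith, by linarith⟩)
      linarith
  by_cases ca : |a| < 1 / 4
  · have ca' := abs_lt.1 ca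
    have hg1 : |-g1| ≤ N / 2 := abs_le.2 ⟨by nlinarith, by nlinarith⟩
    rcases le_total 0 b with cb | cb
    · have hb : 3 / 4 ≤ b := by nlinarith
      obtain ⟨q1, q2⟩ := p6 (by linarith)
      obtain ⟨q3, q4⟩ := p7 (by linarith)
      have := key g2 (-g1) (w2 - w1) (v1 - v2) (hg1.trans (by nlinarith))
        (abs_le.2 ⟨by linarith, by linarith⟩)
      linarith
    · have hb : b ≤ -(3 / 4) := by nlinarith
      obtain ⟨q1, q2⟩ := p5 (by linarith)
      obtain ⟨q3, q4⟩ := p8 (by linarith)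
      have := key (-g2) (-g1) (w1 - w2) (v1 - v2) (hg1.trans (by nlinarith))
        (abs_le.2 ⟨by linarith, by linarith⟩)
      linarith
  have t1 : 0 ≤ g1 * (v1 - v2) := by
    rcases le_abs.1 (not_lt.1 ca) with c | c
    · exact mul_nonneg (by nlinarith) (by linarith [p1 c])
    · exact mul_nonneg_of_nonpos_of_nonpos (by nlinarith) (by linarith [p2 c])
  have t2 : g2 * (w1 - w2) ≤ 0 := by
    rcases le_abs.1 (not_lt.1 cb) with c | c
    · exact mul_nonpos_of_nonneg_of_nonpos (by nlinarith) (by linarith [p4 c])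
    · exact mul_nonpos_of_nonpos_of_nonneg (by nlinarith) (by linarith [p3 c])
  linarith

namespace Ctx

/-- lower local comparison of the distance at scale `r` -/
def Loc (C : Ctx) (β r : ℝ) : Prop :=
  ∀ b x y, ‖x - b‖ ≤ r → ‖y - b‖ ≤ r → (C.n b - β) * ‖x - y‖ ≤ C.d x y

variable {C : Ctx}

lemma Lin.mono {u : ℂ → ℝ} {z e : ℂ} {r β β' : ℝ} (h : C.Lin u z r e β) (hr : 0 ≤ r)
    (hβ : β ≤ β') : C.Lin u z r e β' :=
  ⟨h.1, fun w hw => (h.2 w hw).trans (by gcongr)⟩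

lemma Lin.neg {u : ℂ → ℝ} {z e : ℂ} {r β : ℝ} (h : C.Lin u z r e β) :
    C.Lin (fun x => -u x) z r (-e) β :=
  ⟨by rw [norm_neg, h.1], fun w hw => by
    rw [← abs_neg]; convert h.2 w hw using 2; rw [dot_neg_left]; ring⟩

lemma Lin.two {u : ℂ → ℝ} {z e : ℂ} {r β : ℝ} (h : C.Lin u z r e β) {a a' : ℂ}
    (ha : ‖a - z‖ ≤ r) (ha' : ‖a' - z‖ ≤ r) :
    |u a' - u a - C.n z * dot e (a' - a)| ≤ 2 * β * r := by
  have h1 := abs_le.1 (h.2 a ha)
  have h2 := abs_le.1 (h.2 a' ha')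
  simp only [dot_sub_right] at *
  rw [abs_le]; constructor <;> linarith

lemma strip {u : ℂ → ℝ} {z e : ℂ} {r β κ : ℝ} (h : C.Lin u z r e β) (hl : C.Loc β r)
    (hβ : 0 ≤ β) (hκ : 0 ≤ κ) (hκβ : 16 * β ≤ κ ^ 2 * C.n0) {a a' : ℂ}
    (ha : ‖a - z‖ ≤ r) (ha' : ‖a' - z‖ ≤ r) (hc : C.d a a' ≤ |u a' - u a|) :
    |det e (a' - a)| ≤ κ * r := by
  have hr : 0 ≤ r := (norm_nonneg _).trans ha
  have h1 := h.two ha ha'
  have h2 := hl z a a' ha ha'
  have h3 : ‖a' - a‖ ≤ 2 * r := by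
    have := norm_sub_le (a' - z) (a - z)
    rw [sub_sub_sub_cancel_right] at this; linarith
  have h4 := dot_sq_add_det_sq e (a' - a)
  have h5 := abs_dot_le e (a' - a)
  rw [h.1, one_mul] at h5
  rw [h.1, ← sq_abs (dot _ _)] at h4
  rw [norm_sub_rev] at h2
  have h6 : |u a' - u a| ≤ C.n z * |dot e (a' - a)| + 2 * β * r := by
    have := abs_add_le (u a' - u a - C.n z * dot e (a' - a)) (C.n z * dot e (a' - a))
    rw [sub_add_cancel, abs_mul, abs_of_pos (C.n_pos z)] at this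
    linarith
  set x := |dot e (a' - a)|
  set H := ‖a' - a‖
  have hx : 0 ≤ x := abs_nonneg _
  have h7 : C.n0 * (H - x) ≤ 4 * β * r := by
    have : C.n0 * (H - x) ≤ C.n z * (H - x) := by gcongr; exact C.n_ge z
    nlinarith
  refine abs_le_of_sq_le_sq' (le_of_mul_le_mul_left ?_ C.n0_pos) (by positivity) |> abs_le.2
  calc C.n0 * det e (a' - a) ^ 2 = C.n0 * (H - x) * (H + x) := by linear_combination C.n0 * h4
    _ ≤ 4 * β * r * (4 * r) := by gcongr; linarith
    _ = 16 * β * r ^ 2 := by ring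
    _ ≤ κ ^ 2 * C.n0 * r ^ 2 := by gcongr
    _ = _ := by ring

lemma Lane.d_le_abs {u : ℂ → ℝ} {γ : ℝ → ℂ} (h : C.Lane u γ) (s t : ℝ) :
    C.d (γ s) (γ t) ≤ |u (γ t) - u (γ s)| := by
  rw [h.2, abs_sub_comm]; exact h.1 s t

/-- a calibrated line of another slope ends on the left -/
lemma Lane.eventually_left (hS : C.SC) {q q' : ℂ} {u u' : ℂ → ℝ} {γ γ' : ℝ → ℂ}
    (h : C.Lane u γ) (hu : C.Sub q u) (h' : C.Lane u' γ') (hu' : C.Sub q' u')
    (hd : 0 ≤ det q q') (h1 : q' ≠ q) (h2 : q' ≠ -q) :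
    ∀ᶠ s in atTop, γ' s ∈ Side (range γ) (I * q) := by
  obtain ⟨c1, hc1, m1⟩ := hS _ hu'.mem_S _ hu.mem_S h1
  obtain ⟨c2, hc2, m2⟩ := hS _ hu'.mem_S _ (neg_mem_S hu.mem_S) h2
  set M := |dot q (γ' 0 - γ 0)| + |dot q' (γ' 0 - γ 0)| with hM
  filter_upwards [eventually_gt_atTop ((6 * C.n1 + (1 + c1) * (12 * C.n1 + M / 2)) / c1),
    eventually_gt_atTop ((6 * C.n1 + (1 + c2) * (12 * C.n1 + M / 2)) / c2),
    eventually_ge_atTop 0] with s s1 s2 s0
  rw [div_lt_iff₀ hc1] at s1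
  rw [div_lt_iff₀ hc2] at s2
  refine side_of_ray fun σ hσ => ?_
  rintro ⟨t, ht⟩
  have e : γ t - γ 0 = (γ' 0 - γ 0) + (γ' s - γ' 0) + σ • (I * q) := by rw [ht]; ring
  have a1 := abs_le.1 (h.abs_dot hu 0 t)
  have a2 := (dot_le_d hu'.mem_S (γ 0) (γ t)).trans (add_le_add_left (h.1 0 t) _)
  have a3 := abs_le.1 (h'.abs_dot hu' 0 s)
  have a4 := (dot_le_d m1 (γ' 0) (γ' s)).trans (add_le_add_left (h'.1 0 s) _)
  have a5 := (dot_le_d m2 (γ' 0) (γ' s)).trans (add_le_add_left (h'.1 0 s) _)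
  rw [zero_sub, abs_neg] at a2 a4 a5
  rw [abs_of_nonneg s0, dot_smul_left, dot_add_left] at a4 a5
  rw [dot_neg_left] at a5
  rw [e] at a1 a2
  rw [dot_add_right, dot_add_right, dot_smul_right] at a1 a2
  rw [dot_I_mul_self] at a1
  have a6 : 0 ≤ σ * dot q' (I * q) := mul_nonneg hσ (by rwa [dot_comm, ← det_eq_dot])
  have b1 := le_abs_self (dot q (γ' 0 - γ 0))
  have b2 := neg_abs_le (dot q (γ' 0 - γ 0))
  have b3 := neg_abs_le (dot q' (γ' 0 - γ 0))
  rcases le_total 0 t with c | c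
  · rw [abs_of_nonneg c] at a2
    have : (1 + c1) / 2 * (2 * s - 24 * C.n1 - M) ≤
        (1 + c1) / 2 * (dot q' (γ' s - γ' 0) + dot q (γ' s - γ' 0)) := by
      gcongr; linarith
    linarith
  · rw [abs_of_nonpos c] at a2
    have : (1 + c2) / 2 * (2 * s - 24 * C.n1 - M) ≤
        (1 + c2) / 2 * (dot q' (γ' s - γ' 0) + -dot q (γ' s - γ' 0)) := by
      gcongr; linarith
    linarith

/-- the local side lemma -/
lemma local_left (hS : C.SC) {θ θ' O r β κ : ℝ} {z e e' : ℂ} {γ : ℝ → ℂ} (hO : |O| = 1)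
    (hγ : C.Lane (C.U θ) γ) (hd : 0 ≤ det (C.P θ) (C.P θ')) (hl : C.Loc β r) (hr : 0 < r)
    (hβ : 0 ≤ β) (hβ1 : 16 * β ≤ C.n0) (hκ : 0 ≤ κ) (hκβ : 16 * β ≤ κ ^ 2 * C.n0)
    (hκ1 : 2 * κ < C.n0 / (16 * C.n1)) (L : C.Lin (C.U θ) z r e β) (L' : C.Lin (C.U θ') z r e' β)
    (hee : |dot e e'| ≤ C.n0 / (16 * C.n1)) (hO' : 1 / 2 ≤ O * det e e') (hb : ‖γ 0 - z‖ ≤ r / 2)
    {y : ℂ} (hy : ‖y - z‖ ≤ r) (hy' : κ * r < O * det e (y - γ 0)) :
    y ∈ Side (range γ) (I * C.P θ) := by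
  have hn0 := C.n0_pos
  have hn1 := C.n1_pos
  obtain ⟨γ', hγ', h0⟩ := exists_lane_at hS θ' (γ 0)
  set ν := C.n0 / (16 * C.n1) with hν
  have hν0 : 0 < ν := by positivity
  have hν1 : ν ≤ 1 / 16 := by
    rw [hν, div_le_div_iff₀ (by positivity) (by positivity)]; linarith [C.n0_le_n1]
  set T := C.n0 * r / 4 with hT
  have hT0 : 0 < T := by positivity
  have hnear : ∀ {σ : ℝ → ℂ}, C.Adm σ → σ 0 = γ 0 → ∀ t, |t| = T →
      ‖σ t - γ 0‖ ≤ r / 4 ∧ ‖σ t - z‖ ≤ r := by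
    intro σ hσ h0 t ht
    have h1 := hσ.norm_le t 0
    rw [sub_zero, ht, h0, hT, show C.n0 * r / 4 / C.n0 = r / 4 by field_simp] at h1
    refine ⟨h1, ?_⟩
    have := norm_add_le (σ t - γ 0) (γ 0 - z)
    rw [sub_add_sub_cancel] at this; linarith
  have hb' : ‖γ 0 - z‖ ≤ r := by linarith
  have hadv : ∀ c, ‖c - z‖ ≤ r → T ≤ C.U θ' c - C.U θ' (γ 0) → 2 * ν * r ≤ dot e' (c - γ 0) := by
    intro c hc h1
    have h2 := (abs_le.1 (L'.two hb' hc)).2
    have h3 : C.n0 * r / 8 ≤ C.n z * dot e' (c - γ 0) := by nlinarith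
    have h4 : 0 ≤ dot e' (c - γ 0) :=
      nonneg_of_mul_nonneg_right (le_trans (by positivity) h3) (C.n_pos z)
    have h5 : C.n z * dot e' (c - γ 0) ≤ C.n1 * dot e' (c - γ 0) := by gcongr; exact C.n_le z
    refine le_of_mul_le_mul_left ?_ hn1
    rw [show C.n1 * (2 * ν * r) = C.n0 * r / 8 by rw [hν]; field_simp; ring]
    linarith
  have hno : ∀ t, |t| = T → C.U θ' (γ t) - C.U θ' (γ 0) < T := by
    intro t ht
    by_contra hh
    obtain ⟨h1, h2⟩ := hnear hγ.1 rfl t ht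
    have h3 := hadv _ h2 (not_lt.1 hh)
    have h4 := strip L hl hβ hκ hκβ hb' h2 (hγ.d_le_abs 0 t)
    rw [dot_frame L.1] at h3
    have h5 : |dot e e' * dot e (γ t - γ 0)| ≤ ν * (r / 4) := by
      rw [abs_mul]
      refine mul_le_mul hee ((abs_dot_le _ _).trans ?_) (abs_nonneg _) hν0.le
      rw [L.1, one_mul]; exact h1
    have h6 : |det e e' * det e (γ t - γ 0)| ≤ 1 * (κ * r) := by
      rw [abs_mul]
      refine mul_le_mul ((abs_det_le _ _).trans ?_) h4 (abs_nonneg _) zero_le_one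
      rw [L.1, L'.1, one_mul]
    have h7 : κ * r < ν * r := by gcongr; linarith
    have h8 : 0 < ν * r := by positivity
    linarith [le_abs_self (dot e e' * dot e (γ t - γ 0)),
      le_abs_self (det e e' * det e (γ t - γ 0))]
  have hq1 : C.P θ' ≠ C.P θ := fun h => by
    have := hno T (abs_of_pos hT0)
    rw [U_eq_of_P_eq hS h, U_eq_of_P_eq hS h, hγ.2] at this
    linarith
  have hq2 : C.P θ' ≠ -C.P θ := fun h => by
    have := hno (-T) (by rw [abs_neg, abs_of_pos hT0])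
    rw [← P_add_pi hS] at h
    rw [U_eq_of_P_eq hS h, U_eq_of_P_eq hS h, U_add_pi hS, U_add_pi hS] at this
    linarith [hγ.2 0 (-T)]
  have hfor : ∀ s, T ≤ s → γ' s ∉ range γ := by
    rintro s hs ⟨t, ht⟩
    have h1 := hγ.d_eq (U_sub θ).1 t 0
    have h2 := hγ'.d_eq (U_sub θ').1 s 0
    have h3 := hγ'.2 0 s
    rw [← ht, h0] at h2 h3
    rw [h1, sub_zero, sub_zero, abs_of_nonneg (show 0 ≤ s by linarith)] at h2
    rcases le_total 0 t with c | c
    · rw [abs_of_nonneg c] at h2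
      have h4 := ((U_sub θ').1 _ _).trans (hγ.1 T t)
      rw [abs_sub_comm, abs_of_nonneg (by linarith)] at h4
      linarith [hno T (abs_of_pos hT0)]
    · rw [abs_of_nonpos c] at h2
      have h4 := ((U_sub θ').1 _ _).trans (hγ.1 (-T) t)
      rw [abs_of_nonneg (by linarith)] at h4
      linarith [hno (-T) (by rw [abs_neg, abs_of_pos hT0])]
  obtain ⟨s, s1, s2⟩ := ((hγ.eventually_left hS (U_sub θ) hγ' (U_sub θ') hd hq1 hq2).and
    (eventually_ge_atTop T)).exists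
  have hc : γ' T ∈ Side (range γ) (I * C.P θ) :=
    Side.of_curve hγ'.1.continuous (fun t ht => hfor t (by
      rw [uIcc_comm, uIcc_of_le s2] at ht; exact ht.1)) s1
  obtain ⟨c1, c2⟩ := hnear hγ'.1 h0 T (abs_of_pos hT0)
  have c3 : κ * r < O * det e (γ' T - γ 0) := by
    have h1 := hadv _ c2 (by rw [← h0, hγ'.2]; linarith)
    have h2 := strip L' hl hβ hκ hκβ hb' c2 (by rw [← h0]; exact hγ'.d_le_abs 0 T)
    rw [det_frame L'.1, det_swap e' e, dot_comm e' e]
    have h3 : |O * (dot e e' * det e' (γ' T - γ 0))| ≤ 1 * (κ * r) := by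
      rw [abs_mul, hO, one_mul, abs_mul]
      exact mul_le_mul (by linarith) h2 (abs_nonneg _) zero_le_one
    have h4 : 1 / 2 * (2 * ν * r) ≤ O * det e e' * dot e' (γ' T - γ 0) :=
      mul_le_mul hO' h1 (by positivity) (by linarith)
    have h7 : 2 * κ * r < ν * r := by gcongr
    linarith [neg_abs_le (O * (dot e e' * det e' (γ' T - γ 0)))]
  refine Side.of_joined hc (JoinedIn.of_segment_subset ?_)
  rintro _ ⟨a, b, ha, hb, hab, rfl⟩ ⟨t, ht⟩
  have h1 : ‖γ t - z‖ ≤ r := by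
    have := (convex_closedBall z r) (x := y) (by simpa [dist_eq_norm] using hy)
      (y := γ' T) (by simpa [dist_eq_norm] using c2) ha hb hab
    rw [ht]; simpa only [Metric.mem_closedBall, dist_eq_norm] using this
  have h2 := strip L hl hβ hκ hκβ hb' h1 (hγ.d_le_abs 0 t)
  have h3 : γ t - γ 0 = a • (y - γ 0) + b • (γ' T - γ 0) := by
    rw [ht, smul_sub, smul_sub]
    have : γ 0 = a • γ 0 + b • γ 0 := by rw [← add_smul, hab, one_smul]
    linear_combination -this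
  have h4 : O * det e (γ t - γ 0) ≤ κ * r := by
    refine (le_abs_self _).trans ?_
    rwa [abs_mul, hO, one_mul]
  rw [h3, det_add_right, det_smul_right, det_smul_right] at h4
  have h5 : κ * r < a * (O * det e (y - γ 0)) + b * (O * det e (γ' T - γ 0)) := by
    rcases ha.eq_or_lt with rfl | ha'
    · simp only [zero_add] at hab; simpa [hab] using c3
    · have := mul_lt_mul_of_pos_left hy' ha'
      have := mul_le_mul_of_nonneg_left c3.le hb
      have : a * (κ * r) + b * (κ * r) = κ * r := by rw [← add_mul, hab, one_mul]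
      linarith
  linarith

lemma local_right (hS : C.SC) {θ θ' O r β κ : ℝ} {z e e' : ℂ} {γ : ℝ → ℂ} (hO : |O| = 1)
    (hγ : C.Lane (C.U θ) γ) (hd : 0 ≤ det (C.P θ) (C.P θ')) (hl : C.Loc β r) (hr : 0 < r)
    (hβ : 0 ≤ β) (hβ1 : 16 * β ≤ C.n0) (hκ : 0 ≤ κ) (hκβ : 16 * β ≤ κ ^ 2 * C.n0)
    (hκ1 : 2 * κ < C.n0 / (16 * C.n1)) (L : C.Lin (C.U θ) z r e β) (L' : C.Lin (C.U θ') z r e' β)
    (hee : |dot e e'| ≤ C.n0 / (16 * C.n1)) (hO' : 1 / 2 ≤ O * det e e') (hb : ‖γ 0 - z‖ ≤ r / 2)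
    {y : ℂ} (hy : ‖y - z‖ ≤ r) (hy' : κ * r < -(O * det e (y - γ 0))) :
    y ∈ Side (range γ) (-(I * C.P θ)) := by
  have e1 : C.U (θ + Real.pi) = fun x => -C.U θ x := funext (U_add_pi hS θ)
  have e2 : C.U (θ' + Real.pi) = fun x => -C.U θ' x := funext (U_add_pi hS θ')
  have := local_left hS (θ := θ + Real.pi) (θ' := θ' + Real.pi) (e := -e) (e' := -e')
    (γ := fun t => γ (-t)) hO (e1 ▸ hγ.rev) (by simpa [P_add_pi hS] using hd) hl hr hβ hβ1 hκ hκβ
    hκ1 (e1 ▸ L.neg) (e2 ▸ L'.neg) (by simpa using hee) (by simpa using hO') (by simpa using hb)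
    hy (by rw [neg_zero, det_neg_left]; linarith)
  rwa [range_rev, P_add_pi hS, mul_neg] at this

end Ctx

end Pool.Agent.Lib.MP_b2c218_an
end

-- part Pool.Agent.Lib.MP_b2c218_an.Orient
section

/-!
# Global orientation and the sign of the discrete Jacobian
-/

namespace Pool.Agent.Lib.MP_b2c218_an

open Complex Set Filter Topology

namespace Ctx

/-- ratio of the two scales -/
noncomputable def K (C : Ctx) : ℝ := 2 + 5 * C.n1 / C.n0

/-- admissible choices of small parameters -/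
structure Scale (C : Ctx) (β κ η : ℝ) : Prop where
  η_pos : 0 < η
  β_pos : 0 < β
  κ_nonneg : 0 ≤ κ
  hβ1 : 32 * β ≤ C.n0
  hκβ : 32 * β ≤ κ ^ 2 * C.n0
  hκ1 : 2 * κ < C.n0 / (16 * C.n1)
  hκK : 4 * κ * C.K < 1
  hβK : 12 * β * C.K ≤ C.n0 * (C.n0 / (16 * C.n1))
  loc : C.Loc β (C.K * η)
  lin : ∀ θ z, ∃ e, C.Lin (C.U θ) z (C.K * η) e β

/-- discrete gradient -/
noncomputable def G (C : Ctx) (η θ : ℝ) (z : ℂ) : ℂ :=
  ⟨C.U θ (z + η) - C.U θ (z - η), C.U θ (z + η * I) - C.U θ (z - η * I)⟩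

/-- existence of a transversal angle with orientation `O` -/
def Trans (C : Ctx) (η θ O : ℝ) (z : ℂ) : Prop :=
  ∃ θ' ∈ Ioo θ (θ + Real.pi),
    |dot (C.G η θ z) (C.G η θ' z)| < C.n0 / (16 * C.n1) / 2 * (2 * η * C.n0) ^ 2 ∧
      0 < O * det (C.G η θ z) (C.G η θ' z)

variable {C : Ctx}

lemma two_le_K : 2 ≤ C.K := by
  have := C.n0_pos
  have := C.n1_pos
  unfold K; exact le_add_of_nonneg_right (by positivity)

lemma nu_le : C.n0 / (16 * C.n1) ≤ 1 / 16 := by
  have := C.n1_pos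
  rw [div_le_div_iff₀ (by positivity) (by positivity)]; linarith [C.n0_le_n1]

lemma G_near {η θ r β : ℝ} {z e : ℂ} (h : C.Lin (C.U θ) z r e β) (h0 : 0 ≤ η) (hr : η ≤ r) :
    |(C.G η θ z).re - 2 * η * C.n z * e.re| ≤ 2 * β * r ∧
      |(C.G η θ z).im - 2 * η * C.n z * e.im| ≤ 2 * β * r := by
  have h1 := h.two (a := z - η) (a' := z + η) (by simpa [abs_of_nonneg h0] using hr)
    (by simpa [abs_of_nonneg h0] using hr)
  have h2 := h.two (a := z - η * I) (a' := z + η * I) (by simpa [abs_of_nonneg h0] using hr)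
    (by simpa [abs_of_nonneg h0] using hr)
  constructor
  · convert h1 using 2; simp [G, dot]; ring
  · convert h2 using 2; simp [G, dot]; ring

lemma G_near_norm {η θ r β : ℝ} {z e : ℂ} (h : C.Lin (C.U θ) z r e β) (h0 : 0 ≤ η) (hr : η ≤ r) :
    ‖C.G η θ z - (2 * η * C.n z) • e‖ ≤ 4 * β * r := by
  obtain ⟨h1, h2⟩ := G_near h h0 hr
  refine (Complex.norm_le_abs_re_add_abs_im _).trans ?_
  simp only [sub_re, sub_im, smul_re, smul_im, smul_eq_mul]
  linarith

lemma continuous_G (hS : C.SC) (η : ℝ) : Continuous fun p : ℝ × ℂ => C.G η p.1 p.2 := by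
  have : (fun p : ℝ × ℂ => C.G η p.1 p.2) = fun p : ℝ × ℂ =>
      ((C.U p.1 (p.2 + η) - C.U p.1 (p.2 - η) : ℝ) : ℂ) +
        ((C.U p.1 (p.2 + η * I) - C.U p.1 (p.2 - η * I) : ℝ) : ℂ) * I := by
    funext p; apply Complex.ext <;> simp [G]
  rw [this]
  have h : ∀ a : ℂ, Continuous fun p : ℝ × ℂ => C.U p.1 (p.2 + a) := fun a =>
    (continuous_U hS).comp (f := fun p : ℝ × ℂ => (p.1, p.2 + a)) (by fun_prop)
  simp only [sub_eq_add_neg]
  exact (continuous_ofReal.comp ((h _).add (h _).neg)).add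
    ((continuous_ofReal.comp ((h _).add (h _).neg)).mul continuous_const)

lemma G_add_pi (hS : C.SC) (η θ : ℝ) (z : ℂ) : C.G η (θ + Real.pi) z = -C.G η θ z := by
  apply Complex.ext <;> simp [G, U_add_pi hS] <;> ring

variable {β κ η : ℝ}

lemma Scale.η_le (h : C.Scale β κ η) : 2 * η ≤ C.K * η := by
  have := h.η_pos; gcongr; exact two_le_K

lemma Scale.near (h : C.Scale β κ η) {θ : ℝ} {z e : ℂ} (L : C.Lin (C.U θ) z (C.K * η) e β) :
    ‖C.G η θ z - (2 * η * C.n z) • e‖ ≤ 2 * β * C.K / C.n0 * (2 * η * C.n z) := by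
  have := h.η_pos
  have := h.β_pos
  have := C.n0_pos
  have : 0 ≤ C.K := by linarith [two_le_K (C := C)]
  refine (G_near_norm L h.η_pos.le (by linarith [h.η_le])).trans ?_
  calc 4 * β * (C.K * η) = 2 * β * C.K / C.n0 * (2 * η * C.n0) := by field_simp; ring
    _ ≤ _ := by gcongr; exact C.n_ge z

lemma Scale.eps_le (h : C.Scale β κ η) : 3 * (2 * β * C.K / C.n0) ≤ C.n0 / (16 * C.n1) / 2 := by
  rw [← mul_div_assoc, div_le_iff₀ C.n0_pos]; linarith [h.hβK]

lemma Scale.norm_G (h : C.Scale β κ η) (θ : ℝ) (z : ℂ) :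
    (1 - 2 * β * C.K / C.n0) * (2 * η * C.n z) ≤ ‖C.G η θ z‖ := by
  obtain ⟨e, L⟩ := h.lin θ z
  have h1 := h.near L
  have h2 := norm_sub_norm_le ((2 * η * C.n z) • e) (C.G η θ z)
  have := h.η_pos
  have := C.n_pos z
  rw [norm_sub_rev, norm_smul, L.1, Real.norm_of_nonneg (by positivity)] at h2
  linarith

lemma Scale.G_ne_zero (h : C.Scale β κ η) (θ : ℝ) (z : ℂ) : C.G η θ z ≠ 0 := by
  have h1 := h.norm_G θ z
  have h2 := h.eps_le
  have h3 := nu_le (C := C)
  have := h.η_pos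
  have := C.n_pos z
  exact norm_pos_iff.1 (lt_of_lt_of_le (mul_pos (by linarith) (by positivity)) h1)

lemma Scale.trans_data (h : C.Scale β κ η) {θ O : ℝ} {z e : ℂ} (hO : |O| = 1)
    (T : C.Trans η θ O z) (L : C.Lin (C.U θ) z (C.K * η) e β) :
    ∃ θ' e', 0 ≤ det (C.P θ) (C.P θ') ∧ C.Lin (C.U θ') z (C.K * η) e' β ∧
      |dot e e'| ≤ C.n0 / (16 * C.n1) ∧ 1 / 2 ≤ O * det e e' := by
  obtain ⟨θ', hθ', h1, h2⟩ := T
  obtain ⟨e', L'⟩ := h.lin θ' z
  have hη := h.η_pos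
  have hn := C.n_pos z
  have hn0 := C.n0_pos
  have hn1 := C.n1_pos
  have h3 := h.eps_le
  have h4 := nu_le (C := C)
  obtain ⟨a1, a2⟩ := approx_dot_det L.1 L'.1 (by positivity) (by linarith) (h.near L) (h.near L')
  set ν := C.n0 / (16 * C.n1)
  set ε := 2 * β * C.K / C.n0
  set N := 2 * η * C.n z with hN
  have hN0 : 0 < N ^ 2 := by positivity
  have hν : 0 < ν := by positivity
  have h5 : ν / 2 * (2 * η * C.n0) ^ 2 ≤ ν / 2 * N ^ 2 := by
    rw [hN]; gcongr; exact C.n_ge z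
  have h6 : |dot e e'| ≤ ν := by
    refine le_of_mul_le_mul_left ?_ hN0
    have := abs_sub (dot (C.G η θ z) (C.G η θ' z))
      (dot (C.G η θ z) (C.G η θ' z) - N ^ 2 * dot e e')
    rw [sub_sub_cancel, abs_mul, abs_of_pos hN0] at this
    nlinarith
  refine ⟨θ', e', det_P_nonneg hθ'.1 hθ'.2, L', h6, ?_⟩
  have h7 : -(1 / 2) < O * det e e' := by
    refine lt_of_mul_lt_mul_left ?_ hN0.le
    have : |O * (det (C.G η θ z) (C.G η θ' z) - N ^ 2 * det e e')| ≤ 3 * ε * N ^ 2 := by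
      rwa [abs_mul, hO, one_mul]
    have := (abs_le.1 this).2
    nlinarith
  have h8 := dot_sq_add_det_sq e e'
  rw [L.1, L'.1] at h8
  have h9 : (O * det e e') ^ 2 = det e e' ^ 2 := by rw [mul_pow, ← sq_abs O, hO]; ring
  have h10 := abs_le.1 h6
  by_contra hh
  nlinarith

lemma Scale.left (h : C.Scale β κ η) (hS : C.SC) {θ O : ℝ} {z e : ℂ} (hO : |O| = 1)
    (T : C.Trans η θ O z) (L : C.Lin (C.U θ) z (C.K * η) e β) {γ : ℝ → ℂ}
    (hγ : C.Lane (C.U θ) γ) (hb : ‖γ 0 - z‖ ≤ η) {y : ℂ} (hy : ‖y - z‖ ≤ η) :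
    (η / 2 ≤ O * det e (y - γ 0) → y ∈ Side (range γ) (I * C.P θ)) ∧
      (η / 2 ≤ -(O * det e (y - γ 0)) → y ∈ Side (range γ) (-(I * C.P θ))) := by
  obtain ⟨θ', e', a1, a2, a3, a4⟩ := h.trans_data hO T L
  have h1 := h.η_le
  have h2 := h.η_pos
  have h3 := h.β_pos
  have h4 : κ * (C.K * η) < η / 2 := by nlinarith [h.hκK]
  exact ⟨fun hy' => local_left hS hO hγ a1 h.loc (by linarith) h3.le (by linarith [h.hβ1])
      h.κ_nonneg (by linarith [h.hκβ]) h.hκ1 L a2 a3 a4 (by linarith) (by linarith) (by linarith),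
    fun hy' => local_right hS hO hγ a1 h.loc (by linarith) h3.le (by linarith [h.hβ1])
      h.κ_nonneg (by linarith [h.hκβ]) h.hκ1 L a2 a3 a4 (by linarith) (by linarith) (by linarith)⟩

lemma Scale.orientation (h : C.Scale β κ η) (hS : C.SC) (θ : ℝ) :
    ∃ O, |O| = 1 ∧ ∀ z, C.Trans η θ O z := by
  have hG : ∀ θ, Continuous (C.G η θ) := fun θ =>
    (continuous_G hS η).comp (f := fun z : ℂ => (θ, z)) (by fun_prop)
  have hopen : ∀ O, IsOpen {z | C.Trans η θ O z} := fun O => by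
    simp only [Trans, ofPred_exists, ← exists_prop]
    refine isOpen_iUnion fun θ' => isOpen_iUnion fun _ => ?_
    simp only [exists_prop]
    exact (isOpen_lt (Continuous.dot' (hG θ) (hG θ')).abs continuous_const).inter
      (isOpen_lt continuous_const (continuous_const.mul (Continuous.det' (hG θ) (hG θ'))))
  have hdisj : Disjoint {z | C.Trans η θ 1 z} {z | C.Trans η θ (-1) z} := by
    rw [Set.disjoint_left]
    intro z h1 h2
    obtain ⟨e, L⟩ := h.lin θ z
    obtain ⟨γ, hγ, h0⟩ := exists_lane_at hS θ z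
    have hη := h.η_pos
    have hy : ‖z + η • (I * e) - z‖ ≤ η := by simp [L.1, abs_of_pos hη]
    have hd : det e (z + η • (I * e) - γ 0) = η := by
      rw [h0, add_sub_cancel_left, det_smul_right, det_eq_dot, dot_self, norm_I_mul, L.1]; ring
    exact side_disjoint (hγ.proper (U_sub θ))
      ((h.left hS (by simp) h1 L hγ (by simpa [h0] using hη.le) hy).1 (by rw [hd]; linarith))
      ((h.left hS (by simp) h2 L hγ (by simpa [h0] using hη.le) hy).2 (by rw [hd]; linarith))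
  have hcov : univ ⊆ {z | C.Trans η θ 1 z} ∪ {z | C.Trans η θ (-1) z} := by
    intro z _
    have hc : Continuous fun t => dot (C.G η θ z) (C.G η t z) := by
      have := (continuous_G hS η).comp (f := fun t : ℝ => (t, z)) (by fun_prop)
      exact Continuous.dot' continuous_const this
    have h0 : 0 < ‖C.G η θ z‖ ^ 2 := by have := h.G_ne_zero θ z; positivity
    obtain ⟨t, ht, ht0⟩ := intermediate_value_Ioo' (a := θ) (b := θ + Real.pi)
      (by linarith [Real.pi_pos]) hc.continuousOn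
      (show (0 : ℝ) ∈ Ioo _ _ by
        simp only [G_add_pi hS, dot_neg_right, dot_self]; exact ⟨by linarith, h0⟩)
    simp only at ht0
    have h1 : |dot (C.G η θ z) (C.G η t z)| < C.n0 / (16 * C.n1) / 2 * (2 * η * C.n0) ^ 2 := by
      have := C.n0_pos
      have := C.n1_pos
      have := h.η_pos
      rw [ht0, abs_zero]; positivity
    have h2 : det (C.G η θ z) (C.G η t z) ≠ 0 := by
      intro h2
      have h3 := dot_sq_add_det_sq (C.G η θ z) (C.G η t z)
      have h4 : 0 < ‖C.G η t z‖ ^ 2 := by have := h.G_ne_zero t z; positivity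
      rw [ht0, h2] at h3
      nlinarith [mul_pos h0 h4]
    rcases lt_or_gt_of_ne h2 with h3 | h3
    · exact Or.inr ⟨t, ht, h1, by linarith⟩
    · exact Or.inl ⟨t, ht, h1, by linarith⟩
  rcases isPreconnected_univ.subset_or_subset (hopen 1) (hopen (-1)) hdisj hcov with h1 | h1
  · exact ⟨1, by simp, fun z => h1 (mem_univ z)⟩
  · exact ⟨-1, by simp, fun z => h1 (mem_univ z)⟩

/-- monotonicity of the difference of two nearby solutions along transversal chords -/
lemma Scale.mon (h : C.Scale β κ η) (hS : C.SC) {θ θ' O : ℝ} {z e : ℂ} (hO : |O| = 1)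
    (T : C.Trans η θ O z) (L : C.Lin (C.U θ) z (C.K * η) e β)
    (hd : 0 ≤ det (C.P θ) (C.P θ')) (hP : ‖C.P θ' - C.P θ‖ ≤ C.n0)
    (hw : ∀ a b, |(C.U θ' a - C.U θ a) - (C.U θ' b - C.U θ b)| ≤ β / 2 * (η + ‖a - b‖))
    {x y : ℂ} (hx : ‖x - z‖ ≤ η) (hy : ‖y - z‖ ≤ η) (hxy : η / 2 ≤ O * det e (y - x)) :
    C.U θ' x - C.U θ x ≤ C.U θ' y - C.U θ y := by
  by_cases hq : C.P θ' = C.P θ
  · simp [U_eq_of_P_eq hS hq]
  have hn0 := C.n0_pos
  have hn1 := C.n1_pos
  have hη := h.η_pos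
  have hβ := h.β_pos
  have hK := h.η_le
  have hq' : C.P θ' ≠ -C.P θ := fun h1 => by
    rw [h1, show -C.P θ - C.P θ = (-2 : ℝ) • C.P θ by simp; ring, norm_smul] at hP
    have := n0_le_norm_P (C := C) θ
    simp at hP; linarith
  obtain ⟨γ, hγ, h0⟩ := exists_lane_at hS θ x
  obtain ⟨γ', hγ', h0'⟩ := exists_lane_at hS θ' y
  have h1 := (h.left hS hO T L hγ (by rwa [h0]) hy).1 (by rwa [h0])
  obtain ⟨s0, h2, hs0⟩ := ((hγ.rev.eventually_left hS (U_sub θ).neg hγ'.rev (U_sub θ').neg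
    (by simpa using hd) (by simpa using hq) (by simpa [neg_eq_iff_eq_neg] using hq')).and
    (eventually_ge_atTop 0)).exists
  rw [range_rev, mul_neg] at h2
  obtain ⟨s, hs, t, ht⟩ := exists_hit hγ'.1.continuous (show -s0 ≤ 0 by linarith)
    (fun h3 => side_disjoint (hγ.proper (U_sub θ)) h3 h2) (by rwa [h0'])
  have a1 := hγ.2 0 t
  have a2 := hγ'.2 s 0
  rw [h0] at a1
  rw [h0', ← ht] at a2
  rcases le_or_gt t 0 with c | c
  · have b1 := ((U_sub θ).1 _ _).trans (hγ'.1 s 0)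
    have b2 := ((U_sub θ').1 _ _).trans (hγ.1 t 0)
    rw [h0', ← ht, sub_zero, abs_of_nonpos hs.2] at b1
    rw [h0, sub_zero, abs_of_nonpos c] at b2
    linarith
  exfalso
  have b1 := hγ.1.norm_le t 0
  rw [h0, sub_zero, abs_of_pos c] at b1
  have b2 := (abs_le.1 (hw (γ t) x)).1
  have b3 : ‖x - y‖ ≤ 2 * η := by
    have := norm_sub_le (x - z) (y - z)
    rw [sub_sub_sub_cancel_right] at this; linarith
  have b4 := (le_abs_self _).trans ((U_sub (C := C) θ').1.abs_le_norm x y)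
  have b5 : C.n1 * ‖x - y‖ ≤ C.n1 * (2 * η) := by gcongr
  have b6 : β / 2 * (η + ‖γ t - x‖) ≤ C.n0 / 2 * (η + t / C.n0) := by
    gcongr; linarith [h.hβ1]
  have b7 : C.n0 / 2 * (η + t / C.n0) = C.n0 * η / 2 + t / 2 := by field_simp
  have b8 : C.n0 * η ≤ C.n1 * η := by gcongr; exact C.n0_le_n1
  have b9 : t ≤ 5 * C.n1 * η := by linarith [hs.2]
  have b10 : ‖γ t - z‖ ≤ C.K * η := by
    have := norm_add_le (γ t - x) (x - z)
    rw [sub_add_sub_cancel] at this
    have e : C.K * η = 2 * η + 5 * C.n1 * η / C.n0 := by unfold K; ring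
    have : t / C.n0 ≤ 5 * C.n1 * η / C.n0 := by gcongr
    linarith
  have L' : C.Lin (C.U θ') z (C.K * η) e (2 * β) := ⟨L.1, fun w hw' => by
    have d1 := abs_le.1 (L.2 w hw')
    have d2 := abs_le.1 (hw w z)
    have d3 : β / 2 * (η + ‖w - z‖) ≤ β / 2 * (2 * (C.K * η)) := by gcongr; linarith
    rw [abs_le]; constructor <;> linarith⟩
  have hl2 : C.Loc (2 * β) (C.K * η) := fun b x y a1 a2 =>
    le_trans (by gcongr; linarith) (h.loc b x y a1 a2)
  have d1 := strip L h.loc hβ.le h.κ_nonneg (by linarith [h.hκβ]) (a := x) (a' := γ t)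
    (by linarith) b10 (by rw [← h0]; exact hγ.d_le_abs 0 t)
  have d2 := strip L' hl2 (by linarith) h.κ_nonneg (by linarith [h.hκβ]) (a := γ t) (a' := y)
    b10 (by linarith) (by rw [← h0', ht]; exact hγ'.d_le_abs s 0)
  have d3 : |O * det e (y - x)| ≤ 2 * (κ * (C.K * η)) := by
    rw [abs_mul, hO, one_mul, show y - x = (γ t - x) + (y - γ t) by ring, det_add_right]
    exact (abs_add_le _ _).trans (by linarith)
  have d4 : 2 * (κ * (C.K * η)) < η / 2 := by nlinarith [h.hκK]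
  linarith [le_abs_self (O * det e (y - x))]

/-- the discrete Jacobian has a constant sign -/
lemma Scale.det_sign (h : C.Scale β κ η) (hS : C.SC) {θ θ' O : ℝ} (hO : |O| = 1)
    (T : ∀ z, C.Trans η θ O z) (hd : 0 ≤ det (C.P θ) (C.P θ')) (hP : ‖C.P θ' - C.P θ‖ ≤ C.n0)
    (hw : ∀ a b, |(C.U θ' a - C.U θ a) - (C.U θ' b - C.U θ b)| ≤ β / 2 * (η + ‖a - b‖)) (z : ℂ) :
    0 ≤ O * det (C.G η θ z) (C.G η θ' z) := by
  obtain ⟨e, L⟩ := h.lin θ z
  have hη := h.η_pos
  have hn := C.n_pos z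
  have M := fun x y hx hy hxy => h.mon hS hO (T z) L hd hP hw (x := x) (y := y) hx hy hxy
  have n1 : ‖z + η - z‖ ≤ η := by simp [abs_of_pos hη]
  have n2 : ‖z - η - z‖ ≤ η := by simp [abs_of_pos hη]
  have n3 : ‖z + η * I - z‖ ≤ η := by simp [abs_of_pos hη]
  have n4 : ‖z - η * I - z‖ ≤ η := by simp [abs_of_pos hη]
  obtain ⟨g1, g2⟩ := G_near L hη.le (by linarith [h.η_le])
  have hb : 2 * β * (C.K * η) ≤ 2 * η * C.n z / 4 := by
    have a1 := h.hβK
    have a2 : C.n0 * (C.n0 / (16 * C.n1)) ≤ C.n z * (1 / 16) :=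
      mul_le_mul (C.n_ge z) nu_le (by have := C.n0_pos; have := C.n1_pos; positivity) hn.le
    nlinarith
  have hO2 : O ^ 2 = 1 := by rw [← sq_abs, hO]; ring
  have he : e.re ^ 2 + e.im ^ 2 = 1 := by
    have := dot_self e; rw [L.1] at this; unfold dot at this; nlinarith
  have key := sign_real (a := O * e.re) (b := O * e.im) (g1 := O * (C.G η θ z).re)
    (g2 := O * (C.G η θ z).im) (N := 2 * η * C.n z)
    (w1 := C.U θ' (z + η) - C.U θ (z + η)) (w2 := C.U θ' (z - η) - C.U θ (z - η))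
    (v1 := C.U θ' (z + η * I) - C.U θ (z + η * I)) (v2 := C.U θ' (z - η * I) - C.U θ (z - η * I))
    (by positivity) (by linear_combination (e.re ^ 2 + e.im ^ 2) * hO2 + he)
    (by
      rw [show O * (C.G η θ z).re - 2 * η * C.n z * (O * e.re) =
        O * ((C.G η θ z).re - 2 * η * C.n z * e.re) by ring, abs_mul, hO, one_mul]
      linarith)
    (by
      rw [show O * (C.G η θ z).im - 2 * η * C.n z * (O * e.im) =
        O * ((C.G η θ z).im - 2 * η * C.n z * e.im) by ring, abs_mul, hO, one_mul]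
      linarith)
    (fun c => M _ _ n4 n3 (by simp [det]; nlinarith))
    (fun c => M _ _ n3 n4 (by simp [det]; nlinarith))
    (fun c => M _ _ n2 n1 (by simp [det]; nlinarith))
    (fun c => M _ _ n1 n2 (by simp [det]; nlinarith))
    (fun c => ⟨M _ _ n4 n1 (by simp [det]; nlinarith), M _ _ n2 n3 (by simp [det]; nlinarith)⟩)
    (fun c => ⟨M _ _ n1 n4 (by simp [det]; nlinarith), M _ _ n3 n2 (by simp [det]; nlinarith)⟩)
    (fun c => ⟨M _ _ n4 n2 (by simp [det]; nlinarith), M _ _ n1 n3 (by simp [det]; nlinarith)⟩)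
    (fun c => ⟨M _ _ n2 n4 (by simp [det]; nlinarith), M _ _ n3 n1 (by simp [det]; nlinarith)⟩)
  refine key.trans_eq ?_
  simp only [det, G]; ring

lemma exists_scale (hS : C.SC) {ε : ℝ} (hε : 0 < ε) :
    ∃ β κ η, C.Scale β κ η ∧ 2 * β * C.K / C.n0 ≤ ε ∧ η ≤ 1 := by
  have hn0 := C.n0_pos
  have hn1 := C.n1_pos
  have hK : 0 < C.K := by linarith [two_le_K (C := C)]
  set κ := min (C.n0 / (16 * C.n1) / 4) (1 / (8 * C.K)) with hκ
  have hκ0 : 0 < κ := by positivity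
  set β := min (min (C.n0 / 32) (κ ^ 2 * C.n0 / 32))
    (min (C.n0 * (C.n0 / (16 * C.n1)) / (12 * C.K)) (ε * C.n0 / (2 * C.K))) with hβ
  have hβ0 : 0 < β := by positivity
  obtain ⟨r0, hr0, h0⟩ := thmA hS hβ0
  obtain ⟨r1, hr1, h1⟩ := C.d_loc β hβ0
  set η := min 1 (min r0 r1 / C.K) with hη
  have hη0 : 0 < η := by positivity
  have hη1 : C.K * η ≤ min r0 r1 := by
    rw [mul_comm, ← le_div_iff₀ hK]; exact min_le_right _ _
  have b1 : β ≤ C.n0 / 32 := (min_le_left _ _).trans (min_le_left _ _)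
  have b2 : β ≤ κ ^ 2 * C.n0 / 32 := (min_le_left _ _).trans (min_le_right _ _)
  have b3 : β ≤ C.n0 * (C.n0 / (16 * C.n1)) / (12 * C.K) :=
    (min_le_right _ _).trans (min_le_left _ _)
  have b4 : β ≤ ε * C.n0 / (2 * C.K) := (min_le_right _ _).trans (min_le_right _ _)
  have k1 : κ ≤ C.n0 / (16 * C.n1) / 4 := min_le_left _ _
  have k2 : κ ≤ 1 / (8 * C.K) := min_le_right _ _
  rw [le_div_iff₀ (by positivity)] at b3 b4 k2
  have k3 : 0 < C.n0 / (16 * C.n1) := by positivity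
  refine ⟨β, κ, η, ⟨hη0, hβ0, hκ0.le, by linarith, by linarith, by linarith, by linarith,
    by linarith, fun b x y hx hy => (h1 b x y (hx.trans (hη1.trans (min_le_right _ _)))
      (hy.trans (hη1.trans (min_le_right _ _)))).1,
    fun θ z => h0 θ _ z (U_sub θ) _ (by positivity) (hη1.trans (min_le_left _ _))⟩, ?_,
    min_le_left _ _⟩
  rw [div_le_iff₀ hn0]; linarith

end Ctx

end Pool.Agent.Lib.MP_b2c218_an
end

-- part Pool.Agent.Lib.MP_b2c218_an.Final
section

/-!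
# The area inequality and rigidity
-/

namespace Pool.Agent.Lib.MP_b2c218_an

open Complex Set Filter Topology InnerProductGeometry

lemma inner_eq_dot (a b : ℂ) : inner ℝ a b = dot a b := by simp [Complex.inner, dot]; ring

lemma abs_det_eq (x y : ℂ) : |det x y| = Real.sin (angle x y) * (‖x‖ * ‖y‖) := by
  rw [sin_angle_mul_norm_mul_norm, ← Real.sqrt_sq_eq_abs]
  congr 1
  simp only [inner_eq_dot]; unfold det dot; ring

lemma angle_le_det {x y : ℂ} {m ε : ℝ} (hm : 0 < m) (hx : m ≤ ‖x‖) (hy : m ≤ ‖y‖)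
    (h : ‖y - x‖ ≤ ε * m) : m ^ 2 * (1 - ε ^ 2) * angle x y ≤ |det x y| := by
  set α := angle x y with hα
  have h0 : 0 ≤ α := angle_nonneg x y
  have h1 : α ≤ Real.pi := angle_le_pi x y
  have h2 := Real.cos_le_one_sub_mul_cos_sq (x := α) (by rwa [abs_of_nonneg h0])
  have h3 := cos_angle_mul_norm_mul_norm x y
  rw [inner_eq_dot, ← hα] at h3
  have h4 : ‖y - x‖ ^ 2 = ‖x‖ ^ 2 + ‖y‖ ^ 2 - 2 * dot x y := by
    simp only [← dot_self, dot_sub_left, dot_sub_right, dot_comm y x]; ring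
  have h5 : m ^ 2 ≤ ‖x‖ * ‖y‖ := by rw [sq]; gcongr
  have h6 : ‖y - x‖ ^ 2 ≤ (ε * m) ^ 2 := by gcongr
  have h7 : 1 / 8 * α ^ 2 ≤ 2 / Real.pi ^ 2 * α ^ 2 := by
    refine mul_le_mul_of_nonneg_right ?_ (sq_nonneg _)
    rw [div_le_div_iff₀ (by norm_num) (by have := Real.pi_pos; positivity)]
    nlinarith [Real.pi_le_four, Real.pi_pos]
  have h8 : 1 / 4 * α ^ 2 * m ^ 2 ≤ ε ^ 2 * m ^ 2 := by
    calc 1 / 4 * α ^ 2 * m ^ 2 ≤ 2 * (1 - Real.cos α) * (‖x‖ * ‖y‖) :=
          mul_le_mul (by linarith) h5 (by positivity) (by linarith [Real.cos_le_one α])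
      _ ≤ ‖y - x‖ ^ 2 := by nlinarith [sq_nonneg (‖x‖ - ‖y‖)]
      _ ≤ _ := by nlinarith
  have h9 : α ^ 2 ≤ 4 * ε ^ 2 := by
    have := le_of_mul_le_mul_right h8 (by positivity)
    linarith
  have h10 : (1 - ε ^ 2) * α ≤ Real.sin α := by
    rcases h0.eq_or_lt with h0 | h0
    · simp [← h0]
    · have := Real.sin_gt_sub_cube h0
      nlinarith [mul_nonneg h0.le (sub_nonneg.2 h9), mul_nonneg h0.le (sq_nonneg ε)]
  have h11 : 0 ≤ Real.sin α := Real.sin_nonneg_of_nonneg_of_le_pi h0 h1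
  rw [abs_det_eq, ← hα]
  calc m ^ 2 * (1 - ε ^ 2) * α = (1 - ε ^ 2) * α * m ^ 2 := by ring
    _ ≤ Real.sin α * m ^ 2 := by gcongr
    _ ≤ _ := by gcongr

lemma angle_le_sum (G : ℕ → ℂ) (N : ℕ) (h0 : G 0 ≠ 0) :
    angle (G 0) (G N) ≤ ∑ i ∈ Finset.range N, angle (G i) (G (i + 1)) := by
  induction N with
  | zero => simp [angle_self h0]
  | succ N ih =>
    rw [Finset.sum_range_succ]
    linarith [angle_le_angle_add_angle (G 0) (G N) (G (N + 1))]

lemma cont_inner (f : C(ℂ, ℝ)) : Continuous fun x : ℝ => ∫ y in (0 : ℝ)..1, f (x + y * I) :=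
  intervalIntegral.continuous_parametric_intervalIntegral_of_continuous'
    (f := fun x y : ℝ => f (x + y * I)) (by unfold Function.uncurry; fun_prop) 0 1

/-- mean value over the unit square -/
noncomputable def Mean : C(ℂ, ℝ) →ₗ[ℝ] ℝ where
  toFun f := ∫ x in (0 : ℝ)..1, ∫ y in (0 : ℝ)..1, f (x + y * I)
  map_add' f g := by
    rw [← intervalIntegral.integral_add ((cont_inner f).intervalIntegrable _ _)
      ((cont_inner g).intervalIntegrable _ _)]
    congr 1
    funext x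
    exact intervalIntegral.integral_add (Continuous.intervalIntegrable (by fun_prop) _ _)
      (Continuous.intervalIntegrable (by fun_prop) _ _)
  map_smul' c f := by simp

lemma Mean_apply (f : C(ℂ, ℝ)) :
    Mean f = ∫ x in (0 : ℝ)..1, ∫ y in (0 : ℝ)..1, f (x + y * I) := rfl

lemma Mean_one : Mean 1 = 1 := by simp [Mean_apply]

lemma Mean_nonneg {f : C(ℂ, ℝ)} (h : ∀ x, 0 ≤ f x) : 0 ≤ Mean f :=
  intervalIntegral.integral_nonneg zero_le_one fun _ _ =>
    intervalIntegral.integral_nonneg zero_le_one fun _ _ => h _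

lemma Mean_mono {f g : C(ℂ, ℝ)} (h : ∀ x, f x ≤ g x) : Mean f ≤ Mean g := by
  have := Mean_nonneg (f := g - f) fun x => by simpa using h x
  rw [map_sub] at this; linarith

/-- periodic functions -/
def Per (f : ℂ → ℝ) : Prop := ∀ k ∈ Lat, ∀ x, f (x + k) = f x

lemma Mean_pos {f : C(ℂ, ℝ)} (h : ∀ x, 0 ≤ f x) (hp : Per f) {z : ℂ} (hz : 0 < f z) :
    0 < Mean f := by
  refine intervalIntegral.integral_pos zero_lt_one (cont_inner f).continuousOn
    (fun _ _ => intervalIntegral.integral_nonneg zero_le_one fun _ _ => h _)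
    ⟨Int.fract z.re, ⟨Int.fract_nonneg _, (Int.fract_lt_one _).le⟩, ?_⟩
  refine intervalIntegral.integral_pos zero_lt_one (Continuous.continuousOn (by fun_prop))
    (fun _ _ => h _) ⟨Int.fract z.im, ⟨Int.fract_nonneg _, (Int.fract_lt_one _).le⟩, ?_⟩
  rw [← hp _ ⟨⌊z.re⌋, ⌊z.im⌋, rfl⟩]
  convert hz using 2
  apply Complex.ext <;> simp

/-- translation of functions -/
noncomputable def sh (a : ℂ) (f : C(ℂ, ℝ)) : C(ℂ, ℝ) := f.comp ⟨fun x => x + a, by fun_prop⟩

@[simp] lemma sh_apply (a : ℂ) (f : C(ℂ, ℝ)) (x : ℂ) : sh a f x = f (x + a) := rfl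

lemma Mean_sh {f : C(ℂ, ℝ)} (hp : Per f) (a : ℂ) : Mean (sh a f) = Mean f := by
  have h1 : ∀ x : ℝ, ∫ y in (0 : ℝ)..1, sh a f (x + y * I) =
      ∫ y in (0 : ℝ)..1, f ((x + a.re : ℝ) + y * I) := by
    intro x
    have hper : Function.Periodic (fun y : ℝ => f ((x + a.re : ℝ) + y * I)) 1 := fun y => by
      simp only
      rw [← hp I I_mem_Lat (_ + y * I)]; congr 1; push_cast; ring
    have h2 := hper.intervalIntegral_add_eq a.im 0
    have h3 := intervalIntegral.integral_comp_add_right (a := 0) (b := 1)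
      (fun y : ℝ => f ((x + a.re : ℝ) + y * I)) a.im
    rw [zero_add, add_comm 1, h2, zero_add] at h3
    rw [← h3]
    congr 1
    funext y
    rw [sh_apply]; congr 1
    apply Complex.ext <;> simp
  have hper : Function.Periodic (fun x : ℝ => ∫ y in (0 : ℝ)..1, f (x + y * I)) 1 := fun x => by
    simp only
    congr 1
    funext y
    rw [← hp 1 one_mem_Lat (x + y * I)]; congr 1; push_cast; ring
  have h2 := hper.intervalIntegral_add_eq a.re 0
  have h3 := intervalIntegral.integral_comp_add_right (a := 0) (b := 1)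
    (fun x : ℝ => ∫ y in (0 : ℝ)..1, f (x + y * I)) a.re
  rw [zero_add, add_comm 1, h2, zero_add] at h3
  rw [Mean_apply, Mean_apply, ← h3]
  simp only [h1]

lemma Mean_sh_mul {f g : C(ℂ, ℝ)} (hf : Per f) (hg : Per g) (a b : ℂ) :
    Mean (sh a f * sh b g) = Mean (f * sh (b - a) g) := by
  rw [← Mean_sh (f := f * sh (b - a) g) (fun k hk x => by
    simp only [ContinuousMap.mul_apply, sh_apply, hf k hk]
    rw [add_right_comm, hg k hk]) a]
  congr 1
  ext x
  simp only [ContinuousMap.mul_apply, sh_apply]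
  congr 2; ring

lemma norm_le_dot_det {e : ℂ} (he : ‖e‖ = 1) (a : ℂ) : ‖a‖ ≤ |dot e a| + |det e a| := by
  refine (abs_le_of_sq_le_sq' ?_ (by positivity)).2
  have := dot_sq_add_det_sq e a
  rw [he, ← sq_abs (dot e a), ← sq_abs (det e a)] at this
  nlinarith [mul_nonneg (abs_nonneg (dot e a)) (abs_nonneg (det e a))]

namespace Ctx

variable {C : Ctx}

/-- the periodic part of a subsolution -/
noncomputable def Sub.per {p : ℂ} {u : ℂ → ℝ} (hu : C.Sub p u) : C(ℂ, ℝ) :=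
  ⟨fun x => u x - dot p x, hu.1.continuous.sub (by fun_prop)⟩

lemma Sub.per_per {p : ℂ} {u : ℂ → ℝ} (hu : C.Sub p u) : Per hu.per := fun k hk x => by
  simp only [Sub.per, ContinuousMap.coe_mk, hu.2 k hk, dot_add_right]; ring

variable (C) in
/-- the refraction index as a continuous map -/
def nC : C(ℂ, ℝ) := ⟨C.n, C.n_cont⟩

/-- Loewner type bound -/
lemma norm_le_mean {p : ℂ} (hp : p ∈ C.S) : ‖p‖ ≤ Mean C.nC := by
  refine le_of_forall_pos_le_add fun β hβ => ?_
  obtain ⟨u, hu⟩ := exists_sub hp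
  obtain ⟨r, hr, h⟩ := C.d_loc β hβ
  refine le_of_mul_le_mul_right (norm_mul_le_of_dot_le hr.le fun a ha => ?_) hr
  have h1 := Mean_mono (f := dot p a • 1 + sh a hu.per - hu.per) (g := r • C.nC + (β * r) • 1)
    fun x => by
      have a1 := hu.1 x (x + a)
      have a2 := (h x x (x + a) (by simpa using hr.le) (by simpa using ha)).2
      have a3 : (C.n x + β) * ‖x - (x + a)‖ ≤ (C.n x + β) * r := by
        have := C.n_pos x
        gcongr; simpa using ha
      simp [Sub.per, nC]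
      linarith
  simp only [map_add, map_sub, map_smul, Mean_sh hu.per_per, Mean_one, smul_eq_mul] at h1
  linarith

/-- discrete Jacobian as a continuous map -/
noncomputable def Jac (hS : C.SC) (η θ θ' : ℝ) : C(ℂ, ℝ) :=
  ⟨fun z => det (C.G η θ z) (C.G η θ' z), Continuous.det'
    ((continuous_G hS η).comp (f := fun z : ℂ => (θ, z)) (by fun_prop))
    ((continuous_G hS η).comp (f := fun z : ℂ => (θ', z)) (by fun_prop))⟩

lemma mean_Jac (hS : C.SC) (η θ θ' : ℝ) :
    Mean (Jac hS η θ θ') = (2 * η) ^ 2 * det (C.P θ) (C.P θ') := by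
  set f := (U_sub (C := C) θ).per with hf
  set g := (U_sub (C := C) θ').per with hg
  have pf : Per f := Sub.per_per _
  have pg : Per g := Sub.per_per _
  have e : Jac hS η θ θ' = ((2 * η) ^ 2 * det (C.P θ) (C.P θ')) • 1 +
      (2 * η * (C.P θ).re) • (sh (η * I) g - sh (-(η * I)) g) +
      (2 * η * (C.P θ').im) • (sh η f - sh (-η) f) -
      (2 * η * (C.P θ).im) • (sh η g - sh (-η) g) -
      (2 * η * (C.P θ').re) • (sh (η * I) f - sh (-(η * I)) f) +
      (sh η f * sh (η * I) g - sh η f * sh (-(η * I)) g - sh (-η) f * sh (η * I) g +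
        sh (-η) f * sh (-(η * I)) g) -
      (sh (η * I) f * sh η g - sh (η * I) f * sh (-η) g - sh (-(η * I)) f * sh η g +
        sh (-(η * I)) f * sh (-η) g) := by
    ext z
    simp [Jac, G, det, hf, hg, Sub.per, dot, sub_eq_add_neg]
    ring
  rw [e]
  simp only [map_add, map_sub, map_smul, Mean_sh pf, Mean_sh pg, Mean_sh_mul pf pg, Mean_one,
    smul_eq_mul]
  rw [show -((η : ℂ) * I) - η = -η - η * I by ring, show (η : ℂ) * I - -η = η - -(η * I) by ring,
    show -((η : ℂ) * I) - -η = η - η * I by ring, show -(η : ℂ) - -(η * I) = η * I - η by ring]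
  ring

lemma sum_det_le (hS : C.SC) {R δ : ℝ} (hR : ∀ p ∈ C.S, ‖p‖ ≤ R) (h0 : 0 < δ) (h1 : δ ≤ 1)
    {N : ℕ} (hN : N * δ = Real.pi) :
    ∑ i ∈ Finset.range N, |det (C.P (i * δ)) (C.P ((i + 1 : ℕ) * δ))| ≤
      R ^ 2 * Real.pi * (1 + 2 * δ) := by
  have hR0 : 0 ≤ R := (norm_nonneg _).trans (hR _ (C.P_mem 0))
  have key : ∀ θ, |det (C.P θ) (C.P (θ + δ))| ≤
      R * (1 + 2 * δ) * (C.lam R (θ + δ) - C.lam R θ) := fun θ => by
    obtain ⟨a1, a2⟩ := delta_bounds (C := C) (θ := θ) h0 h1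
    have a3 := det_delta_le (C := C) (θ := θ) (θ' := θ + δ) (by linarith) (hR _ (C.P_mem _))
    have a4 := norm_le_dot_det (norm_nu θ) (C.P (θ + δ) - C.P θ)
    rw [abs_of_nonpos (dot_delta_nu _ _), abs_of_nonneg a1] at a4
    have a5 := abs_det_le (C.P θ) (C.P (θ + δ) - C.P θ)
    rw [det_sub_right, det_self, sub_zero] at a5
    calc _ ≤ ‖C.P θ‖ * ‖C.P (θ + δ) - C.P θ‖ := a5
      _ ≤ R * ((1 + 2 * δ) * det (nu θ) (C.P (θ + δ) - C.P θ)) := by
          gcongr
          · exact hR _ (C.P_mem _)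
          · linarith
      _ ≤ R * ((1 + 2 * δ) * (C.lam R (θ + δ) - C.lam R θ)) := by gcongr
      _ = _ := by ring
  calc _ ≤ ∑ i ∈ Finset.range N,
        R * (1 + 2 * δ) * (C.lam R ((i + 1 : ℕ) * δ) - C.lam R (i * δ)) := by
        refine Finset.sum_le_sum fun i _ => ?_
        have := key (i * δ)
        rwa [show (i : ℝ) * δ + δ = (i + 1 : ℕ) * δ by push_cast; ring] at this
    _ = R * (1 + 2 * δ) * (C.lam R (N * δ) - C.lam R ((0 : ℕ) * δ)) := by
        rw [← Finset.mul_sum, Finset.sum_range_sub fun i : ℕ => C.lam R (i * δ)]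
    _ = _ := by
        have a1 := P_add_pi hS 0
        have a2 := nu_add_pi 0
        rw [zero_add] at a1 a2
        simp only [hN, lam, a1, a2, Nat.cast_zero, zero_mul, mul_neg, dot_neg_left, dot_neg_right]
        ring

lemma area_ineq (hS : C.SC) {ε : ℝ} (hε : 0 < ε) (hε1 : ε < 1) :
    (1 - ε) ^ 2 * (1 - ε ^ 2) * Mean (C.nC * C.nC) ≤ Mean C.nC ^ 2 * (1 + 2 * ε) := by
  obtain ⟨β, κ, η, h, h1, h2⟩ := exists_scale hS hε
  have hn0 := C.n0_pos
  have hη := h.η_pos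
  have hβ := h.β_pos
  have hε2 : 0 < 1 - ε := by linarith
  set σ := min C.n0 (min (β * η / 2) (ε * (1 - ε) * η * C.n0 / 3)) with hσ
  have hσ0 : 0 < σ := by positivity
  have hσ1 : σ ≤ C.n0 := min_le_left _ _
  have hσ2 : σ ≤ β * η / 2 := (min_le_right _ _).trans (min_le_left _ _)
  have hσ3 : σ ≤ ε * (1 - ε) * η * C.n0 / 3 := (min_le_right _ _).trans (min_le_right _ _)
  obtain ⟨δ0, hδ0, hcl⟩ := U_close hS hσ0
  obtain ⟨N, hN⟩ := exists_nat_gt (Real.pi / min (min δ0 ε) 1)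
  have hpi := Real.pi_pos
  have hN0 : (0 : ℝ) < N := lt_trans (by positivity) hN
  set δ := Real.pi / N with hδ
  have hδ1 : 0 < δ := by positivity
  have hδ2 : N * δ = Real.pi := by rw [hδ]; field_simp
  have hδ3 : δ ≤ min (min δ0 ε) 1 := by
    rw [div_lt_iff₀ (by positivity)] at hN
    rw [hδ, div_le_iff₀ hN0]; linarith
  have hδ4 : δ ≤ δ0 := hδ3.trans ((min_le_left _ _).trans (min_le_left _ _))
  have hδ5 : δ ≤ ε := hδ3.trans ((min_le_left _ _).trans (min_le_right _ _))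
  have hδ6 : δ ≤ 1 := hδ3.trans (min_le_right _ _)
  choose O hO hT using h.orientation hS
  have hmem : ∀ i : ℕ, i ≤ N → (i : ℝ) * δ ∈ Icc 0 Real.pi := fun i hi =>
    ⟨by positivity, by rw [← hδ2]; gcongr⟩
  have hstep : ∀ i ∈ Finset.range N, ‖C.P ((i + 1 : ℕ) * δ) - C.P (i * δ)‖ ≤ σ ∧ ∀ a b,
      |(C.U ((i + 1 : ℕ) * δ) a - C.U (i * δ) a) - (C.U ((i + 1 : ℕ) * δ) b - C.U (i * δ) b)| ≤
        σ * (1 + ‖a - b‖) := fun i hi => by
    have hi := Finset.mem_range.1 hi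
    refine hcl _ (hmem i hi.le) _ (hmem (i + 1) hi) ?_
    push_cast
    rw [show ((i : ℝ) + 1) * δ - i * δ = δ by ring, abs_of_pos hδ1]; exact hδ4
  have hpt : ∀ z, ((1 - ε) * (2 * η)) ^ 2 * (1 - ε ^ 2) * Real.pi * (C.n z * C.n z) ≤
      ∑ i ∈ Finset.range N, O (i * δ) * det (C.G η (i * δ) z) (C.G η ((i + 1 : ℕ) * δ) z) := by
    intro z
    have hn := C.n_pos z
    have hm : ∀ θ, (1 - ε) * (2 * η * C.n z) ≤ ‖C.G η θ z‖ := fun θ =>
      le_trans (by gcongr) (h.norm_G θ z)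
    have a1 := angle_le_sum (fun i => C.G η (i * δ) z) N (h.G_ne_zero _ z)
    have a2 := G_add_pi hS η 0 z
    rw [zero_add] at a2
    simp only [hδ2, Nat.cast_zero, zero_mul, a2] at a1
    rw [angle_self_neg_of_nonzero (h.G_ne_zero _ z)] at a1
    have a3 : 0 ≤ 1 - ε ^ 2 := by nlinarith
    calc _ = ((1 - ε) * (2 * η * C.n z)) ^ 2 * (1 - ε ^ 2) * Real.pi := by ring
      _ ≤ ((1 - ε) * (2 * η * C.n z)) ^ 2 * (1 - ε ^ 2) * ∑ i ∈ Finset.range N,
          angle (C.G η (i * δ) z) (C.G η ((i + 1 : ℕ) * δ) z) := by gcongr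
      _ ≤ _ := by
        rw [Finset.mul_sum]
        refine Finset.sum_le_sum fun i hi => ?_
        obtain ⟨b1, b2⟩ := hstep i hi
        have b3 := h.det_sign hS (θ' := (i + 1 : ℕ) * δ) (hO (i * δ)) (hT _)
          (det_P_nonneg (by push_cast; linarith) (by push_cast; linarith [Real.pi_gt_three]))
          (b1.trans hσ1) (fun a b => (b2 a b).trans (by
            have : σ ≤ β / 2 := hσ2.trans (by nlinarith)
            have : σ * ‖a - b‖ ≤ β / 2 * ‖a - b‖ := by gcongr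
            linarith)) z
        rw [← abs_of_nonneg b3, abs_mul, hO, one_mul]
        refine angle_le_det (by positivity) (hm _) (hm _) ?_
        refine (Complex.norm_le_abs_re_add_abs_im _).trans ?_
        have c1 := b2 (z + η) (z - η)
        have c2 := b2 (z + η * I) (z - η * I)
        have c3 : ‖z + η - (z - η)‖ = 2 * η := by
          rw [show z + η - (z - η) = 2 * η by ring]; simp [abs_of_pos hη]
        have c4 : ‖z + η * I - (z - η * I)‖ = 2 * η := by
          rw [show z + η * I - (z - η * I) = 2 * η * I by ring]; simp [abs_of_pos hη]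
        rw [c3] at c1
        rw [c4] at c2
        have c5 : σ * (1 + 2 * η) ≤ σ * 3 := by gcongr; linarith
        have c6 : ε * (1 - ε) * η * C.n0 ≤ ε * (1 - ε) * η * C.n z := by gcongr; exact C.n_ge z
        simp only [G, sub_re, sub_im]
        rw [sub_sub_sub_comm] at c1 c2
        linarith
  have hM := Mean_mono (f := (((1 - ε) * (2 * η)) ^ 2 * (1 - ε ^ 2) * Real.pi) • (C.nC * C.nC))
    (g := ∑ i ∈ Finset.range N, O (i * δ) • Jac hS η (i * δ) ((i + 1 : ℕ) * δ)) fun z => by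
      simpa [nC, Jac] using hpt z
  simp only [map_smul, map_sum, mean_Jac, smul_eq_mul] at hM
  have hup := sum_det_le hS (fun p hp => norm_le_mean hp) hδ1 hδ6 hδ2
  have h3 : ∑ i ∈ Finset.range N, O (i * δ) * ((2 * η) ^ 2 *
      det (C.P (i * δ)) (C.P ((i + 1 : ℕ) * δ))) ≤
      (2 * η) ^ 2 * (Mean C.nC ^ 2 * Real.pi * (1 + 2 * ε)) := by
    calc _ ≤ ∑ i ∈ Finset.range N, (2 * η) ^ 2 * |det (C.P (i * δ)) (C.P ((i + 1 : ℕ) * δ))| :=
          Finset.sum_le_sum fun i _ => (le_abs_self _).trans (by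
            rw [abs_mul, hO, one_mul, abs_mul, abs_of_nonneg (by positivity)])
      _ ≤ (2 * η) ^ 2 * (Mean C.nC ^ 2 * Real.pi * (1 + 2 * δ)) := by
          rw [← Finset.mul_sum]; gcongr
      _ ≤ _ := by gcongr
  refine le_of_mul_le_mul_left ?_ (show 0 < (2 * η) ^ 2 * Real.pi by positivity)
  linarith

/-- Rigidity: a strictly convex dual unit ball forces a constant refraction index. -/
theorem const_of_SC (hS : C.SC) (z : ℂ) : C.n z = Mean C.nC := by
  have h1 : Mean (C.nC * C.nC) ≤ Mean C.nC ^ 2 := by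
    have t1 : Tendsto (fun ε : ℝ => (1 - ε) ^ 2 * (1 - ε ^ 2) * Mean (C.nC * C.nC)) (𝓝[>] 0)
        (𝓝 ((1 - 0) ^ 2 * (1 - 0 ^ 2) * Mean (C.nC * C.nC))) :=
      (Continuous.tendsto (by fun_prop) 0).mono_left nhdsWithin_le_nhds
    have t2 : Tendsto (fun ε : ℝ => Mean C.nC ^ 2 * (1 + 2 * ε)) (𝓝[>] 0)
        (𝓝 (Mean C.nC ^ 2 * (1 + 2 * 0))) :=
      (Continuous.tendsto (by fun_prop) 0).mono_left nhdsWithin_le_nhds
    have := le_of_tendsto_of_tendsto t1 t2 (by
      filter_upwards [Ioo_mem_nhdsGT (zero_lt_one' ℝ)] with ε hε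
      exact area_ineq hS hε.1 hε.2)
    simpa using this
  by_contra hne
  set R := Mean C.nC with hR
  have h2 := Mean_pos (f := C.nC * C.nC - (2 * R) • C.nC + R ^ 2 • 1) (z := z)
    (fun x => by simp [nC]; nlinarith [sq_nonneg (C.n x - R)])
    (fun k hk x => by simp [nC, C.n_per k hk])
    (by
      have : 0 < (C.n z - R) ^ 2 := by have := sub_ne_zero.2 hne; positivity
      simp [nC]; nlinarith)
  simp only [map_add, map_sub, map_smul, Mean_one, smul_eq_mul, ← hR] at h2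
  nlinarith

end Ctx

end Pool.Agent.Lib.MP_b2c218_an
end

-- part Pool.Agent.Lib.MP_b2c218_an.Metric
section

/-!
# The length structure of a continuous periodic refraction index
-/

namespace Pool.Agent.Lib.MP_b2c218_an

open Complex Set Filter Topology

lemma Per.bounds {f : ℂ → ℝ} (hf : Continuous f) (hp : Per f) :
    ∃ a b, ∀ x, f a ≤ f x ∧ f x ≤ f b := by
  have hK := isCompact_closedBall (0 : ℂ) 1
  obtain ⟨a, -, ha⟩ := hK.exists_isMinOn ⟨0, by simp⟩ hf.continuousOn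
  obtain ⟨b, -, hb⟩ := hK.exists_isMaxOn ⟨0, by simp⟩ hf.continuousOn
  refine ⟨a, b, fun x => ?_⟩
  obtain ⟨k, hk, h⟩ := exists_lat_near x
  have e := hp k hk (x - k)
  rw [sub_add_cancel] at e
  rw [e]
  exact ⟨ha (by simpa using h), hb (by simpa using h)⟩

lemma Per.unif {f : ℂ → ℝ} (hf : Continuous f) (hp : Per f) {β : ℝ} (hβ : 0 < β) :
    ∃ r > 0, ∀ a b, ‖a - b‖ ≤ r → |f a - f b| ≤ β := by
  obtain ⟨δ, hδ, h⟩ := Metric.uniformContinuousOn_iff_le.1
    ((isCompact_closedBall (0 : ℂ) 2).uniformContinuousOn_of_continuous hf.continuousOn) β hβ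
  refine ⟨min δ 1, by positivity, fun a b hab => ?_⟩
  obtain ⟨k, hk, h1⟩ := exists_lat_near b
  have e1 := hp k hk (a - k)
  have e2 := hp k hk (b - k)
  rw [sub_add_cancel] at e1 e2
  rw [e1, e2]
  refine h (a - k) ?_ (b - k) (by simpa using h1.trans one_le_two) ?_
  · have := norm_add_le (a - b) (b - k)
    rw [sub_add_sub_cancel] at this
    simp only [Metric.mem_closedBall, dist_zero_right]
    linarith [min_le_right δ 1]
  · rw [dist_eq_norm, sub_sub_sub_cancel_right]; exact hab.trans (min_le_left _ _)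

/-- functions whose pointwise Lipschitz constant is at most `n` -/
def LL (n : ℂ → ℝ) : Set (ℂ → ℝ) :=
  {v | ∀ x, ∀ ε > 0, ∀ᶠ y in 𝓝 x, |v y - v x| ≤ (n x + ε) * ‖y - x‖}

lemma LL.continuous {n v : ℂ → ℝ} (hv : v ∈ LL n) : Continuous v := by
  refine continuous_iff_continuousAt.2 fun x => ?_
  rw [ContinuousAt, tendsto_iff_norm_sub_tendsto_zero]
  refine squeeze_zero' (Eventually.of_forall fun _ => norm_nonneg _) (hv x 1 one_pos) ?_
  have : Tendsto (fun y => (n x + 1) * ‖y - x‖) (𝓝 x) (𝓝 ((n x + 1) * ‖x - x‖)) :=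
    Continuous.tendsto (by fun_prop) x
  simpa using this

lemma LL.segment {n v : ℂ → ℝ} (hv : v ∈ LL n) {x y : ℂ} {m : ℝ}
    (hm : ∀ w ∈ segment ℝ x y, n w ≤ m) : v y - v x ≤ m * ‖x - y‖ := by
  have hc := LL.continuous hv
  have key := image_le_of_liminf_slope_right_le_deriv_boundary (a := 0) (b := 1)
    (f := fun s : ℝ => v (x + s • (y - x))) (Continuous.continuousOn (by fun_prop))
    (B := fun s => v x + m * ‖x - y‖ * s) (B' := fun _ => m * ‖x - y‖) (by simp)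
    (Continuous.continuousOn (by fun_prop))
    (fun s _ => by
      simpa using (((hasDerivAt_id s).const_mul (m * ‖x - y‖)).const_add (v x)).hasDerivWithinAt)
    (fun s hs r hr => ?_) (right_mem_Icc.2 zero_le_one)
  · simp only [one_smul, add_sub_cancel, mul_one] at key; linarith
  have h1 : n (x + s • (y - x)) ≤ m := hm _ (by
    rw [segment_eq_image']; exact ⟨s, ⟨hs.1, hs.2.le⟩, rfl⟩)
  set ε := (r - m * ‖x - y‖) / (‖x - y‖ + 1) with hε
  have hε0 : 0 < ε := div_pos (by linarith) (by positivity)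
  have h2 : Tendsto (fun t : ℝ => x + t • (y - x)) (𝓝[>] s) (𝓝 (x + s • (y - x))) :=
    (Continuous.tendsto (by fun_prop) s).mono_left nhdsWithin_le_nhds
  refine Eventually.frequently ?_
  filter_upwards [h2.eventually (hv _ ε hε0), self_mem_nhdsWithin] with t ht hst
  have h3 : 0 < t - s := sub_pos.2 hst
  rw [slope_def_field, div_lt_iff₀ h3]
  rw [add_sub_add_left_eq_sub, ← sub_smul, norm_smul, Real.norm_of_nonneg h3.le,
    norm_sub_rev y] at ht
  have h4 : ε * (‖x - y‖ + 1) = r - m * ‖x - y‖ := by rw [hε]; field_simp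
  calc _ ≤ (n (x + s • (y - x)) + ε) * ((t - s) * ‖x - y‖) := (le_abs_self _).trans ht
    _ ≤ (m + ε) * ((t - s) * ‖x - y‖) := by gcongr
    _ = (m * ‖x - y‖ + ε * ‖x - y‖) * (t - s) := by ring
    _ < r * (t - s) := by gcongr; linarith

lemma LL.of_lip {n v : ℂ → ℝ} (h : ∀ x, ∀ᶠ y in 𝓝 x, |v y - v x| ≤ n x * ‖y - x‖) :
    v ∈ LL n := fun x ε hε => (h x).mono fun y hy => hy.trans (by gcongr; linarith)

lemma LL.of_fderiv {n v : ℂ → ℝ} (h : ∀ x, ∃ L : ℂ →L[ℝ] ℝ, HasFDerivAt v L x ∧ ‖L‖ ≤ n x) :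
    v ∈ LL n := fun x ε hε => by
  obtain ⟨L, h1, h2⟩ := h x
  filter_upwards [h1.isLittleO.def hε] with y hy
  have h3 := (L.le_opNorm (y - x)).trans (mul_le_mul_of_nonneg_right h2 (norm_nonneg _))
  have h4 := abs_add_le (v y - v x - L (y - x)) (L (y - x))
  rw [sub_add_cancel] at h4
  rw [Real.norm_eq_abs] at hy h3
  linarith

/-- the optical distance -/
noncomputable def dd (n : ℂ → ℝ) (x y : ℂ) : ℝ := ⨆ v : LL n, v.1 y - v.1 x

theorem exists_ctx {n : ℂ → ℝ} (hc : Continuous n) (hp : Per n) (h0 : ∀ x, 0 < n x) :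
    ∃ C : Ctx, C.n = n ∧ ∀ v ∈ LL n, C.Lip v := by
  obtain ⟨a, b, hab⟩ := hp.bounds hc
  have hz : (fun _ => (0 : ℝ)) ∈ LL n := LL.of_lip fun x => Eventually.of_forall fun y => by
    have := h0 x
    simp only [sub_self, abs_zero]; positivity
  have : Nonempty (LL n) := ⟨⟨_, hz⟩⟩
  have hb : ∀ x y, BddAbove (range fun v : LL n => v.1 y - v.1 x) := fun x y =>
    ⟨n b * ‖x - y‖, by rintro _ ⟨v, rfl⟩; exact LL.segment v.2 fun w _ => (hab w).2⟩
  have hle : ∀ v ∈ LL n, ∀ x y, v y - v x ≤ dd n x y := fun v hv x y =>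
    le_ciSup (hb x y) ⟨v, hv⟩
  have hseg : ∀ x y m, (∀ w ∈ segment ℝ x y, n w ≤ m) → dd n x y ≤ m * ‖x - y‖ :=
    fun x y m hm => ciSup_le fun v => LL.segment v.2 hm
  have hcomm' : ∀ x y, dd n x y ≤ dd n y x := fun x y => ciSup_le fun v => by
    have := hle (fun w => -v.1 w) (fun x ε hε => (v.2 x ε hε).mono fun y hy => by
      rwa [neg_sub_neg, abs_sub_comm]) y x
    linarith
  have hcomm : ∀ x y, dd n x y = dd n y x := fun x y => le_antisymm (hcomm' x y) (hcomm' y x)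
  have htri : ∀ x y z, dd n x z ≤ dd n x y + dd n y z := fun x y z => ciSup_le fun v => by
    linarith [hle _ v.2 x y, hle _ v.2 y z]
  have hper' : ∀ k ∈ Lat, ∀ x y, dd n (x + k) (y + k) ≤ dd n x y := fun k hk x y =>
    ciSup_le fun v => hle (fun w => v.1 (w + k)) (fun x ε hε => by
      have h1 : Tendsto (fun w => w + k) (𝓝 x) (𝓝 (x + k)) := Continuous.tendsto (by fun_prop) x
      filter_upwards [h1.eventually (v.2 (x + k) ε hε)] with y hy
      rwa [hp k hk, add_sub_add_right_eq_sub] at hy) x y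
  have hnn : ∀ x y, 0 ≤ dd n x y := fun x y => by simpa using hle _ hz x y
  have hge : ∀ x y, n a * ‖x - y‖ ≤ dd n x y := fun x y => by
    have := hle (fun w => n a * ‖x - w‖) (LL.of_lip fun z => Eventually.of_forall fun w => by
      rw [← mul_sub, abs_mul, abs_of_pos (h0 a)]
      refine mul_le_mul (hab z).1 ((abs_norm_sub_norm_le _ _).trans_eq ?_) (abs_nonneg _) (h0 z).le
      rw [sub_sub_sub_cancel_left, norm_sub_rev]) x y
    simpa using this
  have hup : ∀ x y, dd n x y ≤ n b * ‖x - y‖ := fun x y => hseg x y _ fun w _ => (hab w).2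
  have hloc : ∀ β > 0, ∃ r > 0, ∀ c x y, ‖x - c‖ ≤ r → ‖y - c‖ ≤ r →
      (n c - β) * ‖x - y‖ ≤ dd n x y ∧ dd n x y ≤ (n c + β) * ‖x - y‖ := by
    intro β hβ
    obtain ⟨r, hr, h⟩ := hp.unif hc hβ
    refine ⟨r / 3, by positivity, fun c x y hx hy => ⟨?_, hseg x y _ fun w hw => ?_⟩⟩
    · rcases le_total (n c - β) 0 with h1 | h1
      · exact (mul_nonpos_of_nonpos_of_nonneg h1 (norm_nonneg _)).trans (hnn x y)
      have h2 : ‖x - y‖ ≤ 2 * (r / 3) := by
        have := norm_sub_le (x - c) (y - c)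
        rw [sub_sub_sub_cancel_right] at this; linarith
      have := hle (fun w => (n c - β) * min ‖x - w‖ (2 * (r / 3))) (LL.of_lip fun z => ?_) x y
      · simp only [sub_self, norm_zero] at this
        rwa [min_eq_left h2, min_eq_left (by positivity), mul_zero, sub_zero] at this
      rcases le_or_gt ‖x - z‖ (2 * (r / 3)) with h3 | h3
      · refine Eventually.of_forall fun w => ?_
        have h4 : ‖z - c‖ ≤ r := by
          have := norm_sub_le (x - c) (x - z)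
          rw [sub_sub_sub_cancel_left] at this; linarith
        rw [← mul_sub, abs_mul, abs_of_nonneg h1]
        refine mul_le_mul (by linarith [(abs_le.1 (h z c h4)).1])
          ((abs_min_sub_min_le_max _ _ _ _).trans ?_) (abs_nonneg _) (h0 z).le
        rw [sub_self, abs_zero]
        refine max_le ((abs_norm_sub_norm_le _ _).trans_eq ?_) (norm_nonneg _)
        rw [sub_sub_sub_cancel_left, norm_sub_rev]
      · have h4 : ∀ᶠ w in 𝓝 z, 2 * (r / 3) < ‖x - w‖ :=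
          (Continuous.tendsto (f := fun w => ‖x - w‖) (by fun_prop) z).eventually (lt_mem_nhds h3)
        filter_upwards [h4] with w hw
        have := h0 z
        rw [min_eq_right hw.le, min_eq_right h3.le, sub_self, abs_zero]; positivity
    · have hw' : w ∈ Metric.closedBall c (r / 3) := (convex_closedBall c _).segment_subset
        (by simpa [dist_eq_norm] using hx) (by simpa [dist_eq_norm] using hy) hw
      rw [Metric.mem_closedBall, dist_eq_norm] at hw'
      linarith [(abs_le.1 (h w c (by linarith))).2]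
  have hcrit : ∀ f : ℂ → ℝ, (∀ z, ∀ᶠ w in 𝓝 z, |f w - f z| ≤ dd n z w) → f ∈ LL n := by
    intro f hf z ε hε
    obtain ⟨r, hr, h⟩ := hloc ε hε
    filter_upwards [hf z, Metric.closedBall_mem_nhds z hr] with w h1 h2
    rw [norm_sub_rev]
    exact h1.trans (h z z w (by simpa using hr.le) (by simpa [dist_eq_norm] using h2)).2
  have hself : ∀ x, dd n x x = 0 := fun x => le_antisymm (by simpa using hup x x) (hnn x x)
  have habs : ∀ x z w, |dd n x w - dd n x z| ≤ dd n z w := fun x z w => by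
    rw [abs_le]; constructor
    · linarith [htri x w z, hcomm w z]
    · linarith [htri x z w]
  have hcont : ∀ x, Continuous (dd n x) := fun x =>
    LL.continuous (hcrit _ fun z => Eventually.of_forall fun w => habs x z w)
  refine ⟨⟨n, dd n, n a, n b, h0 a, hc, hp, fun x => (hab x).1, fun x => (hab x).2, hcomm, htri,
    fun k hk x y => le_antisymm (hper' k hk x y) ?_, hge, hup, hloc, fun x y r hr hr' => ?_⟩, rfl,
    fun v hv x y => hle v hv x y⟩
  · simpa using hper' (-k) (Lat.neg_mem hk) (x + k) (y + k)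
  have hK : IsCompact {w | dd n x w ≤ r} := by
    refine (isCompact_closedBall x (r / n a)).of_isClosed_subset
      (isClosed_le (hcont x) continuous_const) fun w hw => ?_
    rw [Metric.mem_closedBall, dist_eq_norm, norm_sub_rev, le_div_iff₀' (h0 a)]
    exact (hge x w).trans hw
  choose m hm1 hm2 using fun z => hK.exists_isMinOn ⟨x, by simpa [hself] using hr⟩
    (hcont z).continuousOn
  have hg : ∀ z w, dd n x w ≤ r → dd n z (m z) ≤ dd n z w := fun z w hw => hm2 z hw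
  have hg0 : ∀ z, dd n x z ≤ r → dd n z (m z) = 0 := fun z hz =>
    le_antisymm ((hg z z hz).trans_eq (hself z)) (hnn _ _)
  have hf := hle _ (hcrit (fun z => min (dd n x z) r + dd n z (m z)) fun z => ?_) x y
  · simp only [hself, min_eq_left hr, hg0 x (by rw [hself]; exact hr), min_eq_right hr'] at hf
    have h1 : dd n x (m y) ≤ r := hm1 y
    have h2 := htri x (m y) y
    rw [hcomm y] at hf
    exact ⟨m y, by linarith, by linarith⟩
  rcases lt_trichotomy (dd n x z) r with h1 | h1 | h1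
  · filter_upwards [((hcont x).tendsto z).eventually (gt_mem_nhds h1)] with w hw
    rw [min_eq_left hw.le, min_eq_left h1.le, hg0 w hw.le, hg0 z h1.le, add_zero, add_zero]
    exact habs x z w
  · refine Eventually.of_forall fun w => ?_
    rw [hg0 z h1.le, min_eq_left h1.le, add_zero]
    rcases le_total (dd n x w) r with h2 | h2
    · rw [min_eq_left h2, hg0 w h2, add_zero]; exact habs x z w
    · rw [min_eq_right h2, h1, add_sub_cancel_left, abs_of_nonneg (hnn _ _), hcomm z]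
      exact hg w z h1.le
  · filter_upwards [((hcont x).tendsto z).eventually (lt_mem_nhds h1)] with w hw
    rw [min_eq_right hw.le, min_eq_right h1.le, add_sub_add_left_eq_sub, abs_le]
    constructor
    · linarith [hg z (m w) (hm1 w), htri z w (m w)]
    · linarith [hg w (m z) (hm1 z), htri w z (m z), hcomm w z]

/-- mollification of a subsolution -/
lemma Ctx.exists_smooth {C : Ctx} {p : ℂ} (hp : p ∈ C.S) {β : ℝ} (hβ : 0 < β) :
    ∃ w : ℂ → ℝ, ContDiff ℝ 1 w ∧ (∀ k ∈ Lat, ∀ x, w (x + k) = w x + dot p k) ∧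
      ∀ x, ∀ᶠ y in 𝓝 x, |w y - w x| ≤ (C.n x + β) * ‖y - x‖ := by
  obtain ⟨u, hu⟩ := Ctx.exists_sub hp
  obtain ⟨r, hr, h⟩ := C.d_loc β hβ
  let φ : ContDiffBump (0 : ℂ) := ⟨r / 4, r / 2, by positivity, by linarith⟩
  set ρ := φ.normed MeasureTheory.volume with hρ
  have huc := hu.1.continuous
  have hρc : Continuous ρ := (φ.contDiff_normed (n := 1)).continuous
  have hρs : HasCompactSupport ρ := φ.hasCompactSupport_normed
  have hρ1 : ∫ t, ρ t = 1 := φ.integral_normed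
  have hint : ∀ g : ℂ → ℝ, Continuous g → MeasureTheory.Integrable fun t => ρ t * g t :=
    fun g hg => (hρc.mul hg).integrable_of_hasCompactSupport hρs.mul_right
  have hconst : ∀ c : ℝ, ∫ t, ρ t * c = c := fun c => by
    rw [MeasureTheory.integral_mul_const, hρ1, one_mul]
  refine ⟨fun x => ∫ t, ρ t * u (x - t), ?_, fun k hk x => ?_, fun x => ?_⟩
  · exact hρs.contDiff_convolution_left (ContinuousLinearMap.lsmul ℝ ℝ) (n := 1)
      φ.contDiff_normed huc.locallyIntegrable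
  · simp only
    rw [← hconst (dot p k), ← MeasureTheory.integral_add (hint _ (by fun_prop))
      (hint _ continuous_const)]
    congr 1
    funext t
    rw [add_sub_right_comm, hu.2 k hk, mul_add]
  · filter_upwards [Metric.closedBall_mem_nhds x (half_pos hr)] with y hy
    rw [Metric.mem_closedBall, dist_eq_norm] at hy
    rw [← MeasureTheory.integral_sub (hint _ (by fun_prop)) (hint _ (by fun_prop)),
      ← hconst ((C.n x + β) * ‖y - x‖)]
    refine MeasureTheory.abs_integral_le_integral_abs.trans (MeasureTheory.integral_mono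
      ((hint _ (by fun_prop)).sub (hint _ (by fun_prop))).abs (hint _ continuous_const) fun t => ?_)
    simp only
    have h1 : 0 ≤ ρ t := φ.nonneg_normed t
    rw [← mul_sub, abs_mul, abs_of_nonneg h1]
    rcases h1.eq_or_lt with h2 | h2
    · simp [← h2]
    have h3 : t ∈ Metric.ball (0 : ℂ) φ.rOut := by
      rw [← φ.support_normed_eq (μ := MeasureTheory.volume)]; exact h2.ne'
    have h4 : ‖t‖ < r / 2 := by simpa using h3
    gcongr
    refine (hu.1.abs_le _ _).trans ((h x _ _ ?_ ?_).2.trans_eq ?_)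
    · rw [sub_sub_cancel_left, norm_neg]; linarith
    · rw [sub_right_comm]; exact (norm_sub_le _ _).trans (by linarith)
    · rw [sub_sub_sub_cancel_right, norm_sub_rev]

end Pool.Agent.Lib.MP_b2c218_an
end
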