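import Mathlib
import Pool.Agent.Shared.Brouwer.Basic

-- part Pool.Agent.Lib.MP_b2c218_an.Basic
section

/-!
# Periodic conformal length structures on the plane: basic notions

The plane is identified with the complex numbers, the period lattice is `Lat`.
-/

namespace Pool.Agent.Lib.MP_b2c218_an

open Complex Set Filter Topology

/-- Euclidean scalar product. -/
def dot (a b : ℂ) : ℝ := a.re * b.re + a.im * b.im

/-- Determinant of two plane vectors. -/
def det (a b : ℂ) : ℝ := a.re * b.im - a.im * b.re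

lemma dot_comm (a b : ℂ) : dot a b = dot b a := by unfold dot; ring
@[simp] lemma dot_add_right (a b c : ℂ) : dot a (b + c) = dot a b + dot a c := by
  simp [dot]; ring
@[simp] lemma dot_add_left (a b c : ℂ) : dot (a + b) c = dot a c + dot b c := by
  simp [dot]; ring
@[simp] lemma dot_sub_right (a b c : ℂ) : dot a (b - c) = dot a b - dot a c := by
  simp [dot]; ring
@[simp] lemma dot_sub_left (a b c : ℂ) : dot (a - b) c = dot a c - dot b c := by
  simp [dot]; ring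
@[simp] lemma dot_neg_right (a b : ℂ) : dot a (-b) = -dot a b := by simp [dot]; ring
@[simp] lemma dot_neg_left (a b : ℂ) : dot (-a) b = -dot a b := by simp [dot]; ring
@[simp] lemma dot_smul_right (t : ℝ) (a b : ℂ) : dot a (t • b) = t * dot a b := by
  simp [dot]; ring
@[simp] lemma dot_smul_left (t : ℝ) (a b : ℂ) : dot (t • a) b = t * dot a b := by
  simp [dot]; ring
@[simp] lemma dot_ofReal_right (t : ℝ) (a b : ℂ) : dot a (t * b) = t * dot a b := by
  simp [dot]; ring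
@[simp] lemma dot_ofReal_left (t : ℝ) (a b : ℂ) : dot (t * a) b = t * dot a b := by
  simp [dot]; ring
@[simp] lemma dot_zero_right (a : ℂ) : dot a 0 = 0 := by simp [dot]
@[simp] lemma dot_zero_left (a : ℂ) : dot 0 a = 0 := by simp [dot]
@[simp] lemma dot_I_mul_self (a : ℂ) : dot a (I * a) = 0 := by simp [dot]; ring
@[simp] lemma dot_I_mul_self' (a : ℂ) : dot (I * a) a = 0 := by simp [dot]; ring
@[simp] lemma dot_I_mul_I_mul (a b : ℂ) : dot (I * a) (I * b) = dot a b := by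
  simp [dot]; ring
lemma dot_self (a : ℂ) : dot a a = ‖a‖ ^ 2 := by
  rw [Complex.sq_norm, Complex.normSq_apply]; rfl
lemma det_eq_dot (a b : ℂ) : det a b = dot (I * a) b := by simp [dot, det]; ring
lemma det_swap (a b : ℂ) : det a b = -det b a := by unfold det; ring
@[simp] lemma det_neg_left (a b : ℂ) : det (-a) b = -det a b := by simp [det]; ring
@[simp] lemma det_neg_right (a b : ℂ) : det a (-b) = -det a b := by simp [det]; ring
@[simp] lemma det_add_right (a b c : ℂ) : det a (b + c) = det a b + det a c := by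
  simp [det]; ring
@[simp] lemma det_sub_right (a b c : ℂ) : det a (b - c) = det a b - det a c := by
  simp [det]; ring
@[simp] lemma det_add_left (a b c : ℂ) : det (a + b) c = det a c + det b c := by
  simp [det]; ring
@[simp] lemma det_sub_left (a b c : ℂ) : det (a - b) c = det a c - det b c := by
  simp [det]; ring
@[simp] lemma det_smul_right (t : ℝ) (a b : ℂ) : det a (t • b) = t * det a b := by
  simp [det]; ring
@[simp] lemma det_smul_left (t : ℝ) (a b : ℂ) : det (t • a) b = t * det a b := by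
  simp [det]; ring
@[simp] lemma det_ofReal_right (t : ℝ) (a b : ℂ) : det a (t * b) = t * det a b := by
  simp [det]; ring
@[simp] lemma det_ofReal_left (t : ℝ) (a b : ℂ) : det (t * a) b = t * det a b := by
  simp [det]; ring
@[simp] lemma det_self (a : ℂ) : det a a = 0 := by simp [det]; ring
lemma dot_sq_add_det_sq (a b : ℂ) : dot a b ^ 2 + det a b ^ 2 = ‖a‖ ^ 2 * ‖b‖ ^ 2 := by
  rw [← dot_self, ← dot_self]; unfold dot det; ring
lemma abs_dot_le (a b : ℂ) : |dot a b| ≤ ‖a‖ * ‖b‖ := by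
  apply abs_le_of_sq_le_sq' _ (by positivity) |> abs_le.2
  nlinarith [dot_sq_add_det_sq a b, sq_nonneg (det a b)]
lemma abs_det_le (a b : ℂ) : |det a b| ≤ ‖a‖ * ‖b‖ := by
  apply abs_le_of_sq_le_sq' _ (by positivity) |> abs_le.2
  nlinarith [dot_sq_add_det_sq a b, sq_nonneg (dot a b)]
lemma dot_le (a b : ℂ) : dot a b ≤ ‖a‖ * ‖b‖ := (le_abs_self _).trans (abs_dot_le a b)
lemma neg_le_dot (a b : ℂ) : -(‖a‖ * ‖b‖) ≤ dot a b := (abs_le.1 (abs_dot_le a b)).1
lemma norm_I_mul (a : ℂ) : ‖I * a‖ = ‖a‖ := by simp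

@[fun_prop]
lemma Continuous.dot' {X : Type*} [TopologicalSpace X] {f g : X → ℂ} (hf : Continuous f)
    (hg : Continuous g) : Continuous fun x => dot (f x) (g x) := by
  unfold dot; fun_prop

@[fun_prop]
lemma Continuous.det' {X : Type*} [TopologicalSpace X] {f g : X → ℂ} (hf : Continuous f)
    (hg : Continuous g) : Continuous fun x => det (f x) (g x) := by
  unfold det; fun_prop

/-- decomposition in an orthonormal frame -/
lemma dot_frame {e : ℂ} (he : ‖e‖ = 1) (a b : ℂ) :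
    dot a b = dot e a * dot e b + det e a * det e b := by
  have h : e.re ^ 2 + e.im ^ 2 = 1 := by
    have := dot_self e; rw [he] at this; unfold dot at this; nlinarith
  unfold dot det
  linear_combination (-(a.re * b.re + a.im * b.im)) * h

lemma det_frame {e : ℂ} (he : ‖e‖ = 1) (a b : ℂ) :
    det a b = dot e a * det e b - det e a * dot e b := by
  have h : e.re ^ 2 + e.im ^ 2 = 1 := by
    have := dot_self e; rw [he] at this; unfold dot at this; nlinarith
  unfold dot det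
  linear_combination (-(a.re * b.im - a.im * b.re)) * h

/-- The period lattice. -/
def Lat : AddSubgroup ℂ where
  carrier := {z | ∃ m n : ℤ, z = m + n * I}
  add_mem' := by
    rintro _ _ ⟨m, n, rfl⟩ ⟨m', n', rfl⟩
    exact ⟨m + m', n + n', by push_cast; ring⟩
  zero_mem' := ⟨0, 0, by simp⟩
  neg_mem' := by
    rintro _ ⟨m, n, rfl⟩
    exact ⟨-m, -n, by push_cast; ring⟩

lemma mem_Lat {z : ℂ} : z ∈ Lat ↔ ∃ m n : ℤ, z = m + n * I := Iff.rfl

lemma one_mem_Lat : (1 : ℂ) ∈ Lat := ⟨1, 0, by simp⟩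
lemma I_mem_Lat : I ∈ Lat := ⟨0, 1, by simp⟩

lemma exists_lat_near (z : ℂ) : ∃ k ∈ Lat, ‖z - k‖ ≤ 1 := by
  refine ⟨round z.re + round z.im * I, ⟨_, _, rfl⟩, ?_⟩
  refine (Complex.norm_le_abs_re_add_abs_im _).trans ?_
  have h1 := abs_sub_round z.re
  have h2 := abs_sub_round z.im
  simp only [sub_re, add_re, intCast_re, mul_re, I_re, mul_zero, intCast_im, I_im, mul_one,
    sub_self, add_zero, sub_im, add_im, mul_im, zero_add]
  linarith

lemma Lat_countable : (Lat : Set ℂ).Countable := by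
  have : (Lat : Set ℂ) = range fun mn : ℤ × ℤ => (mn.1 : ℂ) + mn.2 * I := by
    ext z; simp only [SetLike.mem_coe, mem_Lat, mem_range, Prod.exists]
    constructor
    · rintro ⟨m, n, rfl⟩; exact ⟨m, n, rfl⟩
    · rintro ⟨m, n, rfl⟩; exact ⟨m, n, rfl⟩
  rw [this]; exact countable_range _

lemma one_le_norm_of_mem_Lat {k : ℂ} (hk : k ∈ Lat) (h0 : k ≠ 0) : 1 ≤ ‖k‖ := by
  obtain ⟨m, n, rfl⟩ := hk
  by_cases hm : m = 0
  · have hn : n ≠ 0 := by rintro rfl; simp [hm] at h0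
    have : (1 : ℝ) ≤ |(n : ℝ)| := by exact_mod_cast Int.one_le_abs hn
    refine this.trans ?_
    simpa using Complex.abs_im_le_norm ((m : ℂ) + n * I)
  · have : (1 : ℝ) ≤ |(m : ℝ)| := by exact_mod_cast Int.one_le_abs hm
    refine this.trans ?_
    simpa using Complex.abs_re_le_norm ((m : ℂ) + n * I)

lemma natsmul_mem_Lat {k : ℂ} (hk : k ∈ Lat) (l : ℕ) : (l : ℝ) • k ∈ Lat := by
  have := Lat.nsmul_mem hk l
  rwa [← Nat.cast_smul_eq_nsmul ℝ] at this

lemma intsmul_mem_Lat {k : ℂ} (hk : k ∈ Lat) (l : ℤ) : (l : ℝ) • k ∈ Lat := by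
  have := Lat.zsmul_mem hk l
  rwa [← Int.cast_smul_eq_zsmul ℝ] at this

/-- An abstract periodic conformal length structure. -/
structure Ctx where
  n : ℂ → ℝ
  d : ℂ → ℂ → ℝ
  n0 : ℝ
  n1 : ℝ
  n0_pos : 0 < n0
  n_cont : Continuous n
  n_per : ∀ k ∈ Lat, ∀ x, n (x + k) = n x
  n_ge : ∀ x, n0 ≤ n x
  n_le : ∀ x, n x ≤ n1
  d_comm : ∀ x y, d x y = d y x
  d_tri : ∀ x y z, d x z ≤ d x y + d y z
  d_per : ∀ k ∈ Lat, ∀ x y, d (x + k) (y + k) = d x y
  d_ge : ∀ x y, n0 * ‖x - y‖ ≤ d x y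
  d_le : ∀ x y, d x y ≤ n1 * ‖x - y‖
  d_loc : ∀ β > 0, ∃ r > 0, ∀ b x y, ‖x - b‖ ≤ r → ‖y - b‖ ≤ r →
    (n b - β) * ‖x - y‖ ≤ d x y ∧ d x y ≤ (n b + β) * ‖x - y‖
  d_mid : ∀ x y r, 0 ≤ r → r ≤ d x y → ∃ m, d x m = r ∧ d m y = d x y - r

namespace Ctx

variable (C : Ctx)

/-- subsolutions: functions that are 1-Lipschitz for `d` -/
def Lip (v : ℂ → ℝ) : Prop := ∀ x y, v y - v x ≤ C.d x y

/-- the dual unit ball of the stable norm -/
def S : Set ℂ := {p | ∀ k ∈ Lat, dot p k ≤ C.d 0 k}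

/-- subsolutions with mean slope `p` -/
def Sub (p : ℂ) (v : ℂ → ℝ) : Prop := C.Lip v ∧ ∀ k ∈ Lat, ∀ x, v (x + k) = v x + dot p k

/-- curves of speed at most one -/
def Adm (γ : ℝ → ℂ) : Prop := ∀ s t, C.d (γ s) (γ t) ≤ |s - t|

/-- curves calibrated by `u` -/
def Lane (u : ℂ → ℝ) (γ : ℝ → ℂ) : Prop := C.Adm γ ∧ ∀ s t, u (γ t) - u (γ s) = t - s

lemma n0_le_n1 : C.n0 ≤ C.n1 := (C.n_ge 0).trans (C.n_le 0)
lemma n1_pos : 0 < C.n1 := C.n0_pos.trans_le C.n0_le_n1
lemma n_pos (x : ℂ) : 0 < C.n x := C.n0_pos.trans_le (C.n_ge x)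
lemma d_nonneg (x y : ℂ) : 0 ≤ C.d x y :=
  le_trans (mul_nonneg C.n0_pos.le (norm_nonneg _)) (C.d_ge x y)
lemma d_self (x : ℂ) : C.d x x = 0 :=
  le_antisymm (by simpa using C.d_le x x) (C.d_nonneg x x)
lemma norm_le_d (x y : ℂ) : ‖x - y‖ ≤ C.d x y / C.n0 := by
  rw [le_div_iff₀ C.n0_pos, mul_comm]; exact C.d_ge x y

variable {C}

lemma Lip.abs_le {v : ℂ → ℝ} (hv : C.Lip v) (x y : ℂ) : |v y - v x| ≤ C.d x y := by
  rw [_root_.abs_le]; constructor
  · have := hv y x; rw [C.d_comm] at this; linarith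
  · exact hv x y

lemma Lip.abs_le_norm {v : ℂ → ℝ} (hv : C.Lip v) (x y : ℂ) : |v y - v x| ≤ C.n1 * ‖x - y‖ :=
  (hv.abs_le x y).trans (C.d_le x y)

lemma Lip.continuous {v : ℂ → ℝ} (hv : C.Lip v) : Continuous v := by
  have : LipschitzWith C.n1.toNNReal v := by
    refine LipschitzWith.of_dist_le_mul fun x y => ?_
    rw [Real.coe_toNNReal _ C.n1_pos.le, Real.dist_eq, dist_eq_norm, norm_sub_rev]
    exact hv.abs_le_norm y x
  exact this.continuous

lemma Lip.neg {v : ℂ → ℝ} (hv : C.Lip v) : C.Lip fun x => -v x := fun x y => by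
  have := hv y x; rw [C.d_comm] at this; linarith

lemma lip_d (x : ℂ) : C.Lip (C.d x) := fun y z => by linarith [C.d_tri x y z]

lemma continuous_d : Continuous fun p : ℂ × ℂ => C.d p.1 p.2 := by
  refine continuous_prod_of_continuous_lipschitzWith' _ C.n1.toNNReal (fun x => ?_) (fun y => ?_)
  · refine LipschitzWith.of_dist_le_mul fun y z => ?_
    rw [Real.coe_toNNReal _ C.n1_pos.le, Real.dist_eq, dist_eq_norm, norm_sub_rev]
    exact (lip_d x).abs_le_norm z y
  · simpa only [C.d_comm _ y] using (lip_d y).continuous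

@[fun_prop]
lemma Continuous.d' {X : Type*} [TopologicalSpace X] {f g : X → ℂ} (hf : Continuous f)
    (hg : Continuous g) : Continuous fun x => C.d (f x) (g x) :=
  continuous_d.comp (hf.prodMk hg)

lemma Sub.neg {p : ℂ} {v : ℂ → ℝ} (hv : C.Sub p v) : C.Sub (-p) fun x => -v x :=
  ⟨hv.1.neg, fun k hk x => by simp only [hv.2 k hk, dot_neg_left]; ring⟩

lemma Sub.mem_S {p : ℂ} {v : ℂ → ℝ} (hv : C.Sub p v) : p ∈ C.S := fun k hk => by
  have h1 := hv.1 0 k
  have h2 := hv.2 k hk 0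
  rw [zero_add] at h2; linarith

lemma neg_mem_S {p : ℂ} (hp : p ∈ C.S) : -p ∈ C.S := fun k hk => by
  have h1 := hp (-k) (Lat.neg_mem hk)
  have h2 := C.d_per k hk 0 (-k)
  rw [zero_add, neg_add_cancel, C.d_comm] at h2
  simp only [dot_neg_right, dot_neg_left] at h1 ⊢; linarith

lemma mem_S_of_norm_le {p : ℂ} (hp : ‖p‖ ≤ C.n0) : p ∈ C.S := fun k _ => by
  refine (dot_le p k).trans (le_trans ?_ (C.d_ge 0 k))
  rw [zero_sub, norm_neg]; gcongr

lemma norm_le_of_mem_S {p : ℂ} (hp : p ∈ C.S) : ‖p‖ ≤ 2 * C.n1 := by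
  have a1 := (hp 1 one_mem_Lat).trans (C.d_le 0 1)
  have a2 := (neg_mem_S hp 1 one_mem_Lat).trans (C.d_le 0 1)
  have a3 := (hp I I_mem_Lat).trans (C.d_le 0 I)
  have a4 := (neg_mem_S hp I I_mem_Lat).trans (C.d_le 0 I)
  simp [dot] at a1 a2 a3 a4
  refine (Complex.norm_le_abs_re_add_abs_im _).trans ?_
  have : |p.re| ≤ C.n1 := abs_le.2 ⟨by linarith, a1⟩
  have : |p.im| ≤ C.n1 := abs_le.2 ⟨by linarith, a3⟩
  linarith

lemma isClosed_S : IsClosed C.S := by
  have : C.S = ⋂ k ∈ Lat, {p | dot p k ≤ C.d 0 k} := by ext p; simp [S]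
  rw [this]
  exact isClosed_biInter fun k _ => isClosed_le (by fun_prop) continuous_const

lemma convex_S : Convex ℝ C.S := by
  intro p hp q hq a b ha hb hab k hk
  have h1 := hp k hk
  have h2 := hq k hk
  simp only [dot_add_left, dot_smul_left]
  calc a * dot p k + b * dot q k ≤ a * C.d 0 k + b * C.d 0 k := by gcongr
    _ = C.d 0 k := by rw [← add_mul, hab, one_mul]

lemma isCompact_S : IsCompact C.S :=
  (isCompact_closedBall (0 : ℂ) (2 * C.n1)).of_isClosed_subset isClosed_S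
    fun _ hp => by simpa using norm_le_of_mem_S hp

/-- General McShane type construction. -/
lemma sub_iInf {ι : Type*} [Nonempty ι] (p : ℂ) (c : ι → ℝ) (x : ι → ℂ)
    (hb : ∀ w, BddBelow (range fun ik : ι × Lat => c ik.1 + dot p ik.2 + C.d (x ik.1 + ik.2) w)) :
    C.Sub p fun w => ⨅ ik : ι × Lat, c ik.1 + dot p ik.2 + C.d (x ik.1 + ik.2) w := by
  have key : ∀ k ∈ Lat, ∀ w,
      (⨅ ik : ι × Lat, c ik.1 + dot p ik.2 + C.d (x ik.1 + ik.2) (w + k)) ≤
        (⨅ ik : ι × Lat, c ik.1 + dot p ik.2 + C.d (x ik.1 + ik.2) w) + dot p k := by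
    intro k hk w
    rw [← sub_le_iff_le_add]
    refine le_ciInf fun ik => ?_
    have := ciInf_le (hb (w + k)) (ik.1, ⟨ik.2 + k, Lat.add_mem ik.2.2 hk⟩)
    simp only [dot_add_right] at this
    rw [← add_assoc (x ik.1), C.d_per k hk] at this
    linarith
  constructor
  · intro y z
    rw [sub_le_comm]
    refine le_ciInf fun ik => ?_
    have := ciInf_le (hb z) ik
    linarith [C.d_tri (x ik.1 + ik.2) y z]
  · intro k hk w
    refine le_antisymm (key k hk w) ?_
    have := key (-k) (Lat.neg_mem hk) (w + k)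
    simp only [add_neg_cancel_right, dot_neg_right] at this
    linarith

lemma exists_sub {p : ℂ} (hp : p ∈ C.S) : ∃ v, C.Sub p v := by
  refine ⟨_, sub_iInf (ι := Unit) p (fun _ => 0) (fun _ => 0) fun w => ⟨-C.d 0 w, ?_⟩⟩
  rintro _ ⟨ik, rfl⟩
  have h1 := neg_mem_S hp ik.2 ik.2.2
  have h2 := C.d_tri 0 w ik.2
  simp only [dot_neg_left, zero_add] at h1 ⊢
  rw [C.d_comm w] at h2
  linarith

lemma Sub.abs_sub_le {p : ℂ} {v : ℂ → ℝ} (hv : C.Sub p v) (x y : ℂ) :
    |v y - v x - dot p (y - x)| ≤ 6 * C.n1 := by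
  obtain ⟨k, hk, hxk⟩ := exists_lat_near x
  obtain ⟨l, hl, hyl⟩ := exists_lat_near y
  have h1 := hv.2 k hk (x - k)
  have h2 := hv.2 l hl (y - l)
  rw [sub_add_cancel] at h1 h2
  have h3 := hv.1.abs_le_norm (x - k) (y - l)
  have h4 : ‖x - k - (y - l)‖ ≤ 2 := (norm_sub_le _ _).trans (by linarith)
  have h5 := abs_dot_le p (x - k - (y - l))
  have h6 := norm_le_of_mem_S hv.mem_S
  have h7 : C.n1 * ‖x - k - (y - l)‖ ≤ C.n1 * 2 := by gcongr; exact C.n1_pos.le
  have h8 : ‖p‖ * ‖x - k - (y - l)‖ ≤ 2 * C.n1 * 2 := by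
    gcongr; linarith [C.n1_pos]
  have e : v y - v x - dot p (y - x) = (v (y - l) - v (x - k)) + dot p (x - k - (y - l)) := by
    rw [h1, h2]; simp only [dot_sub_right]; ring
  rw [e]
  refine (abs_add_le _ _).trans ?_
  linarith

lemma dot_le_d {g : ℂ} (hg : g ∈ C.S) (x y : ℂ) : dot g (y - x) ≤ C.d x y + 6 * C.n1 := by
  obtain ⟨v, hv⟩ := exists_sub hg
  have h1 := (abs_le.1 (hv.abs_sub_le x y)).1
  linarith [hv.1 x y]

lemma dot_le_d_lat {g : ℂ} (hg : g ∈ C.S) (x : ℂ) {k : ℂ} (hk : k ∈ Lat) :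
    dot g k ≤ C.d x (x + k) := by
  obtain ⟨v, hv⟩ := exists_sub hg
  linarith [hv.1 x (x + k), hv.2 k hk x]

lemma Adm.norm_le {γ : ℝ → ℂ} (h : C.Adm γ) (s t : ℝ) : ‖γ s - γ t‖ ≤ |s - t| / C.n0 :=
  (C.norm_le_d _ _).trans (by gcongr; exacts [C.n0_pos.le, h s t])

lemma Adm.continuous {γ : ℝ → ℂ} (h : C.Adm γ) : Continuous γ := by
  have : LipschitzWith (1 / C.n0).toNNReal γ := by
    refine LipschitzWith.of_dist_le_mul fun x y => ?_
    rw [Real.coe_toNNReal _ (by have := C.n0_pos; positivity), Real.dist_eq, dist_eq_norm]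
    refine (h.norm_le x y).trans_eq (by ring)
  exact this.continuous

lemma Lane.d_eq {u : ℂ → ℝ} {γ : ℝ → ℂ} (h : C.Lane u γ) (hu : C.Lip u) (s t : ℝ) :
    C.d (γ s) (γ t) = |s - t| := by
  refine le_antisymm (h.1 s t) ?_
  have := hu.abs_le (γ s) (γ t)
  rwa [h.2, abs_sub_comm] at this

lemma Lane.add_lat {p : ℂ} {u : ℂ → ℝ} {γ : ℝ → ℂ} (h : C.Lane u γ) (hu : C.Sub p u) {k : ℂ}
    (hk : k ∈ Lat) : C.Lane u fun t => γ t + k :=
  ⟨fun s t => by rw [C.d_per k hk]; exact h.1 s t, fun s t => by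
    rw [hu.2 k hk, hu.2 k hk, ← h.2 s t]; ring⟩

lemma Lane.shift {u : ℂ → ℝ} {γ : ℝ → ℂ} (h : C.Lane u γ) (a : ℝ) :
    C.Lane u fun t => γ (t + a) :=
  ⟨fun s t => by simpa using h.1 (s + a) (t + a), fun s t => by rw [h.2]; ring⟩

lemma Lane.rev {u : ℂ → ℝ} {γ : ℝ → ℂ} (h : C.Lane u γ) :
    C.Lane (fun x => -u x) fun t => γ (-t) :=
  ⟨fun s t => by
    have := h.1 (-s) (-t)
    rwa [show -s - -t = -(s - t) by ring, abs_neg] at this, fun s t => by
    have := h.2 (-t) (-s); linarith⟩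

lemma Lane.abs_dot {p : ℂ} {u : ℂ → ℝ} {γ : ℝ → ℂ} (h : C.Lane u γ) (hu : C.Sub p u) (s t : ℝ) :
    |t - s - dot p (γ t - γ s)| ≤ 6 * C.n1 := by
  rw [← h.2 s t]; exact hu.abs_sub_le _ _

end Ctx

end Pool.Agent.Lib.MP_b2c218_an
end

-- part Pool.Agent.Lib.MP_b2c218_an.Curves
section

/-!
# Geodesics and calibrated lines
-/

namespace Pool.Agent.Lib.MP_b2c218_an

open Complex Set Filter Topology

namespace Ctx

variable {C : Ctx}

lemma hyper_le : (hyperfilter ℕ : Filter ℕ) ≤ atTop := by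
  rw [← Nat.cofinite_eq_atTop]; exact hyperfilter_le_cofinite

lemma exists_limit (γ : ℕ → ℝ → ℂ) (ε : ℕ → ℝ) (hε : Tendsto ε atTop (𝓝 0)) (R : ℝ)
    (h0 : ∀ j, ‖γ j 0‖ ≤ R) (h : ∀ j s t, C.d (γ j s) (γ j t) ≤ |s - t| + ε j) :
    ∃ σ, C.Adm σ ∧ ∀ t, Tendsto (fun j => γ j t) (hyperfilter ℕ) (𝓝 (σ t)) := by
  have key : ∀ t, ∃ z, Tendsto (fun j => γ j t) (hyperfilter ℕ) (𝓝 z) := by
    intro t
    have hb : ∀ᶠ j in (hyperfilter ℕ : Filter ℕ),
        γ j t ∈ Metric.closedBall (0 : ℂ) (R + (|t| + 1) / C.n0) := by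
      refine hyper_le ?_
      filter_upwards [hε.eventually (gt_mem_nhds one_pos)] with j hj
      have h1 := C.norm_le_d (γ j t) (γ j 0)
      have h2 := h j t 0
      rw [sub_zero] at h2
      have h3 : C.d (γ j t) (γ j 0) / C.n0 ≤ (|t| + 1) / C.n0 := by
        gcongr; exacts [C.n0_pos.le, by linarith]
      have h4 := norm_add_le (γ j 0) (γ j t - γ j 0)
      rw [add_sub_cancel] at h4
      simp only [Metric.mem_closedBall, dist_zero_right]
      linarith [h0 j]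
    obtain ⟨z, -, hz⟩ := (isCompact_closedBall (0 : ℂ) (R + (|t| + 1) / C.n0)).ultrafilter_le_nhds
      ((hyperfilter ℕ).map fun j => γ j t) (by rw [le_principal_iff]; exact hb)
    exact ⟨z, hz⟩
  choose σ hσ using key
  refine ⟨σ, fun s t => ?_, hσ⟩
  have h1 : Tendsto (fun j => C.d (γ j s) (γ j t)) (hyperfilter ℕ) (𝓝 (C.d (σ s) (σ t))) :=
    (continuous_d.tendsto (σ s, σ t)).comp ((hσ s).prodMk_nhds (hσ t))
  have h2 : Tendsto (fun j => |s - t| + ε j) (hyperfilter ℕ) (𝓝 (|s - t| + 0)) :=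
    (tendsto_const_nhds.add hε).mono_left hyper_le
  rw [add_zero] at h2
  exact le_of_tendsto_of_tendsto' h1 h2 fun j => h j s t

lemma lane_of_limit {u : ℂ → ℝ} (hu : C.Lip u) (γ : ℕ → ℝ → ℂ) (ε : ℕ → ℝ)
    (hε : Tendsto ε atTop (𝓝 0)) (R : ℝ)
    (h0 : ∀ j, ‖γ j 0‖ ≤ R) (h : ∀ j s t, C.d (γ j s) (γ j t) ≤ |s - t| + ε j)
    (hc : ∀ s t, s ≤ t → ∀ δ > 0, ∀ᶠ j in atTop, t - s - δ ≤ u (γ j t) - u (γ j s)) :
    ∃ σ, C.Lane u σ ∧ Tendsto (fun j => γ j 0) (hyperfilter ℕ) (𝓝 (σ 0)) := by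
  obtain ⟨σ, hσ, hl⟩ := exists_limit γ ε hε R h0 h
  have key : ∀ s t, s ≤ t → u (σ t) - u (σ s) = t - s := by
    intro s t hst
    refine le_antisymm ?_ (le_of_forall_pos_le_add fun δ hδ => ?_)
    · have := (hu (σ s) (σ t)).trans (hσ s t)
      rwa [abs_sub_comm, abs_of_nonneg (by linarith)] at this
    · have h1 : Tendsto (fun j => u (γ j t) - u (γ j s)) (hyperfilter ℕ)
          (𝓝 (u (σ t) - u (σ s))) :=
        ((hu.continuous.tendsto _).comp (hl t)).sub ((hu.continuous.tendsto _).comp (hl s))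
      have := ge_of_tendsto h1 (hyper_le (hc s t hst δ hδ))
      linarith
  refine ⟨σ, ⟨hσ, fun s t => ?_⟩, hl 0⟩
  rcases le_total s t with hst | hst
  · exact key s t hst
  · linarith [key t s hst]

lemma chain_d (x : ℤ → ℂ) (h : ℝ) (hx : ∀ i, C.d (x i) (x (i + 1)) ≤ h) (i j : ℤ)
    (hij : i ≤ j) : C.d (x i) (x j) ≤ h * (j - i) := by
  induction j, hij using Int.leInduction with
  | base => simp [C.d_self]
  | succ j _ ih =>
    have := C.d_tri (x i) (x j) (x (j + 1))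
    push_cast
    linarith [hx j]

lemma chain_curve (x : ℤ → ℂ) {h : ℝ} (h0 : 0 < h) (hx : ∀ i, C.d (x i) (x (i + 1)) ≤ h)
    (s t : ℝ) : C.d (x ⌊s / h⌋) (x ⌊t / h⌋) ≤ |s - t| + h := by
  wlog hst : s ≤ t generalizing s t
  · rw [C.d_comm, abs_sub_comm]; exact this t s (le_of_not_ge hst)
  have h1 : ⌊s / h⌋ ≤ ⌊t / h⌋ := Int.floor_le_floor (by gcongr)
  refine (chain_d x h hx _ _ h1).trans ?_
  rw [abs_sub_comm, abs_of_nonneg (by linarith)]
  have h2 := Int.floor_le (t / h)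
  have h3 := Int.lt_floor_add_one (s / h)
  calc h * ((⌊t / h⌋ : ℝ) - ⌊s / h⌋) ≤ h * (t / h - (s / h - 1)) := by gcongr; linarith
    _ = t - s + h := by field_simp; ring

lemma exists_geod (a b : ℂ) : ∃ σ, C.Adm σ ∧ σ 0 = a ∧ σ (C.d a b) = b := by
  have step : ∀ h : ℝ, 0 < h → ∃ γ : ℝ → ℂ, γ 0 = a ∧ C.d (γ (C.d a b)) b ≤ h ∧
      ∀ s t, C.d (γ s) (γ t) ≤ |s - t| + h := by
    intro h h0
    have hm := fun z => C.d_mid z b (min h (C.d z b)) (le_min h0.le (C.d_nonneg _ _))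
      (min_le_right _ _)
    choose f hf1 hf2 using hm
    have hd : ∀ i : ℕ, C.d (f^[i] a) b ≤ max (C.d a b - i * h) 0 := by
      intro i
      induction i with
      | zero => simp
      | succ i ih =>
        rw [Function.iterate_succ_apply', hf2]
        rcases le_total h (C.d (f^[i] a) b) with h1 | h1
        · rw [min_eq_left h1]
          refine le_max_of_le_left ?_
          rcases le_max_iff.1 ih with h2 | h2
          · push_cast; linarith
          · linarith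
        · rw [min_eq_right h1]; simp
    refine ⟨fun t => f^[⌊t / h⌋.toNat] a, by simp, ?_, ?_⟩
    · refine (hd _).trans (max_le ?_ h0.le)
      have h1 : (0 : ℤ) ≤ ⌊C.d a b / h⌋ := Int.floor_nonneg.2 (div_nonneg (C.d_nonneg _ _) h0.le)
      have h2 : ((⌊C.d a b / h⌋.toNat : ℕ) : ℝ) = ⌊C.d a b / h⌋ := by
        exact_mod_cast Int.toNat_of_nonneg h1
      have h3 := Int.lt_floor_add_one (C.d a b / h)
      rw [div_lt_iff₀ h0] at h3
      rw [h2]; linarith
    · refine chain_curve (fun i => f^[i.toNat] a) h0 fun i => ?_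
      rcases le_or_gt 0 i with hi | hi
      · have : (i + 1).toNat = i.toNat + 1 := by omega
        simp only [this, Function.iterate_succ_apply', hf1]
        exact min_le_left _ _
      · have : (i + 1).toNat = i.toNat := by omega
        simp only [this, C.d_self]; exact h0.le
  choose γ h1 h2 h3 using fun j : ℕ => step (1 / ((j : ℝ) + 1)) (by positivity)
  obtain ⟨σ, hσ, hl⟩ := exists_limit γ _ tendsto_one_div_add_atTop_nhds_zero_nat ‖a‖
    (fun j => by rw [h1]) h3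
  refine ⟨σ, hσ, ?_, ?_⟩
  · have := hl 0
    simp only [h1] at this
    exact (tendsto_nhds_unique tendsto_const_nhds this).symm
  · have h4 : Tendsto (fun j => C.d (γ j (C.d a b)) b) (hyperfilter ℕ)
        (𝓝 (C.d (σ (C.d a b)) b)) :=
      (continuous_d.tendsto (σ _, b)).comp ((hl _).prodMk_nhds tendsto_const_nhds)
    have h5 := le_of_tendsto_of_tendsto' h4
      (tendsto_one_div_add_atTop_nhds_zero_nat.mono_left hyper_le) h2
    have h6 := C.d_ge (σ (C.d a b)) b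
    have h7 : ‖σ (C.d a b) - b‖ ≤ 0 := by
      by_contra hh
      have := mul_pos C.n0_pos (lt_of_not_ge hh)
      linarith
    exact sub_eq_zero.1 (norm_le_zero_iff.1 h7)

lemma d_nsmul {k : ℂ} (hk : k ∈ Lat) (N : ℕ) : C.d 0 ((N : ℝ) • k) ≤ N * C.d 0 k := by
  induction N with
  | zero => simp [C.d_self]
  | succ N ih =>
    have h1 := C.d_tri 0 ((N : ℝ) • k) (((N + 1 : ℕ) : ℝ) • k)
    have h2 := C.d_per _ (natsmul_mem_Lat hk N) 0 k
    have h3 : ((N + 1 : ℕ) : ℝ) • k = k + (N : ℝ) • k := by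
      push_cast; rw [add_smul, one_smul, add_comm]
    rw [zero_add, ← h3] at h2
    push_cast at *
    linarith

lemma exists_almost {p : ℂ} {u : ℂ → ℝ} (hu : C.Sub p u) (hp : ∀ c > 0, (1 + c : ℝ) • p ∉ C.S)
    {L ε : ℝ} (hL : 0 < L) (hε : 0 < ε) : ∃ a b, C.d a b ≤ L ∧ L - ε ≤ u b - u a := by
  by_contra hcon
  push Not at hcon
  have hLε : 0 < L - ε := by simpa using hcon 0 0 (by rw [C.d_self]; exact hL.le)
  refine hp (ε / (L - ε)) (by positivity) fun k hk => ?_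
  have key : ∀ N : ℕ, N * dot p k ≤ (N * C.d 0 k / L + 1) * (L - ε) := by
    intro N
    obtain ⟨σ, hσ, h0, h1⟩ := exists_geod (C := C) 0 ((N : ℝ) • k)
    set D := C.d 0 ((N : ℝ) • k) with hD
    have hD0 : 0 ≤ D := C.d_nonneg _ _
    have h2 : ∀ i : ℕ, u (σ (min (i * L) D)) - u 0 ≤ i * (L - ε) := by
      intro i
      induction i with
      | zero => simp [hD0, h0]
      | succ i ih =>
        have h3 := hcon (σ (min (i * L) D)) (σ (min ((i + 1 : ℕ) * L) D)) ((hσ _ _).trans ?_)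
        · push_cast at *; linarith
        · refine (abs_min_sub_min_le_max _ _ _ _).trans ?_
          push_cast
          rw [sub_self, abs_zero, show (i : ℝ) * L - (i + 1) * L = -L by ring, abs_neg,
            abs_of_pos hL]
          exact max_le le_rfl hL.le
    have h3 := h2 ⌈D / L⌉₊
    have h4 : D ≤ ⌈D / L⌉₊ * L := by rw [← div_le_iff₀ hL]; exact Nat.le_ceil _
    rw [min_eq_right h4, h1] at h3
    have h5 := hu.2 _ (natsmul_mem_Lat hk N) 0
    rw [zero_add, dot_smul_right] at h5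
    have h6 : (⌈D / L⌉₊ : ℝ) ≤ N * C.d 0 k / L + 1 := by
      refine (Nat.ceil_lt_add_one (by positivity)).le.trans ?_
      gcongr
      exact d_nsmul hk N
    calc N * dot p k ≤ ⌈D / L⌉₊ * (L - ε) := by linarith
      _ ≤ _ := by gcongr
  have key2 : dot p k ≤ C.d 0 k / L * (L - ε) := by
    refine le_of_forall_pos_le_add fun δ hδ => ?_
    obtain ⟨N, hN⟩ := exists_nat_gt ((L - ε) / δ)
    have hN0 : (0 : ℝ) < N := lt_trans (by positivity) hN
    rw [div_lt_iff₀ hδ] at hN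
    have := key N
    refine le_of_mul_le_mul_left ?_ hN0
    calc N * dot p k ≤ (N * C.d 0 k / L + 1) * (L - ε) := this
      _ = N * (C.d 0 k / L * (L - ε)) + (L - ε) := by ring
      _ ≤ _ := by linarith
  rw [dot_smul_left]
  calc (1 + ε / (L - ε)) * dot p k ≤ (1 + ε / (L - ε)) * (C.d 0 k / L * (L - ε)) := by gcongr
    _ = C.d 0 k := by field_simp; ring

lemma exists_lane {p : ℂ} {u : ℂ → ℝ} (hu : C.Sub p u) (hp : ∀ c > 0, (1 + c : ℝ) • p ∉ C.S) :
    ∃ γ, C.Lane u γ := by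
  have step : ∀ j : ℕ, ∃ γ : ℝ → ℂ, ‖γ 0‖ ≤ 1 ∧ C.Adm γ ∧ ∀ s t : ℝ, -(j : ℝ) ≤ s → t ≤ j →
      t - s - 1 / ((j : ℝ) + 1) ≤ u (γ t) - u (γ s) := by
    intro j
    obtain ⟨a, b, h1, h2⟩ := exists_almost hu hp (L := 2 * j + 1) (ε := 1 / ((j : ℝ) + 1))
      (by positivity) (by positivity)
    obtain ⟨σ, hσ, h3, h4⟩ := exists_geod (C := C) a b
    obtain ⟨k, hk, hk1⟩ := exists_lat_near (σ j)
    refine ⟨fun t => σ (t + j) + -k, by simpa [sub_eq_add_neg] using hk1, fun s t => ?_,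
      fun s t hs ht => ?_⟩
    · rw [C.d_per _ (Lat.neg_mem hk)]; simpa using hσ (s + j) (t + j)
    · simp only [hu.2 _ (Lat.neg_mem hk)]
      have h5 := (hu.1 _ _).trans (hσ 0 (s + j))
      have h6 := (hu.1 _ _).trans (hσ (t + j) (C.d a b))
      have h7 := hu.1 a b
      have h8 : 1 / ((j : ℝ) + 1) ≤ 1 := by
        rw [div_le_one (by positivity)]; linarith [(Nat.cast_nonneg j : (0 : ℝ) ≤ j)]
      rw [h3, zero_sub, abs_neg, abs_of_nonneg (by linarith)] at h5
      rw [h4, abs_sub_comm, abs_of_nonneg (by linarith)] at h6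
      linarith
  choose γ h1 h2 h3 using step
  obtain ⟨σ, hσ, -⟩ := lane_of_limit hu.1 γ (fun _ => 0) tendsto_const_nhds 1 h1
    (fun j s t => by simpa using h2 j s t) fun s t _ δ hδ => by
      filter_upwards [tendsto_one_div_add_atTop_nhds_zero_nat.eventually (gt_mem_nhds hδ),
        tendsto_natCast_atTop_atTop.eventually_ge_atTop (-s),
        tendsto_natCast_atTop_atTop.eventually_ge_atTop t] with j a1 a2 a3
      have := h3 j s t (by linarith) a3
      linarith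
  exact ⟨σ, hσ⟩

/-- steps of almost maximal increase give calibrated lines through every point -/
lemma exists_lane_through {u : ℂ → ℝ} (hu : C.Lip u)
    (hs : ∀ ε > 0, ∃ h, 0 < h ∧ h ≤ ε ∧ ∀ x, (∃ y, C.d x y ≤ h ∧ (1 - ε) * h ≤ u y - u x) ∧
      ∃ y, C.d x y ≤ h ∧ (1 - ε) * h ≤ u x - u y) (x : ℂ) :
    ∃ γ, C.Lane u γ ∧ γ 0 = x := by
  have step : ∀ ε : ℝ, 0 < ε → ε ≤ 1 → ∃ γ : ℝ → ℂ, γ 0 = x ∧
      (∀ s t, C.d (γ s) (γ t) ≤ |s - t| + ε) ∧
      ∀ s t, s ≤ t → (1 - ε) * (t - s - ε) ≤ u (γ t) - u (γ s) := by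
    intro ε hε hε1
    obtain ⟨h, h0, h1, h2⟩ := hs ε hε
    choose f hf1 hf2 using fun x => (h2 x).1
    choose g hg1 hg2 using fun x => (h2 x).2
    let X : ℤ → ℂ := fun i => if 0 ≤ i then f^[i.toNat] x else g^[(-i).toNat] x
    have hX : ∀ i, C.d (X i) (X (i + 1)) ≤ h ∧ (1 - ε) * h ≤ u (X (i + 1)) - u (X i) := by
      intro i
      rcases le_or_gt 0 i with hi | hi
      · have e : (i + 1).toNat = i.toNat + 1 := by omega
        simp only [X, if_pos hi, if_pos (show 0 ≤ i + 1 by omega), e,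
          Function.iterate_succ_apply']
        exact ⟨hf1 _, hf2 _⟩
      · have e : X i = g (X (i + 1)) := by
          simp only [X, if_neg (not_le.2 hi)]
          have e1 : (-i).toNat = (-(i + 1)).toNat + 1 := by omega
          rw [e1, Function.iterate_succ_apply']
          split_ifs with h3
          · have : i + 1 = 0 := by omega
            simp [this]
          · rfl
        rw [e, C.d_comm]
        exact ⟨hg1 _, hg2 _⟩
    have hY : ∀ i j : ℤ, i ≤ j → (1 - ε) * h * (j - i) ≤ u (X j) - u (X i) := by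
      intro i j hij
      induction j, hij using Int.leInduction with
      | base => simp
      | succ j _ ih => push_cast; linarith [(hX j).2]
    refine ⟨fun t => X ⌊t / h⌋, by simp [X], fun s t => ?_, fun s t hst => ?_⟩
    · exact (chain_curve X h0 (fun i => (hX i).1) s t).trans (by linarith)
    · refine le_trans ?_ (hY _ _ (Int.floor_le_floor (by gcongr)))
      have h3 := Int.floor_le (s / h)
      have h4 := Int.lt_floor_add_one (t / h)
      rw [mul_assoc]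
      refine mul_le_mul_of_nonneg_left ?_ (by linarith)
      calc t - s - ε ≤ h * (t / h - 1 - s / h) := by
            rw [mul_sub, mul_sub, mul_div_cancel₀ _ h0.ne', mul_div_cancel₀ _ h0.ne']; linarith
        _ ≤ _ := by gcongr; linarith
  have h1 : ∀ j : ℕ, 1 / ((j : ℝ) + 1) ≤ 1 := fun j => by
    rw [div_le_one (by positivity)]; linarith [(Nat.cast_nonneg j : (0 : ℝ) ≤ j)]
  choose γ h2 h3 h4 using fun j : ℕ => step (1 / ((j : ℝ) + 1)) (by positivity) (h1 j)
  obtain ⟨σ, hσ, hl⟩ := lane_of_limit hu γ _ tendsto_one_div_add_atTop_nhds_zero_nat ‖x‖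
    (fun j => by rw [h2]) h3 fun s t hst δ hδ => by
      have h5 : Tendsto (fun j : ℕ => (1 - 1 / ((j : ℝ) + 1)) * (t - s - 1 / ((j : ℝ) + 1))) atTop
          (𝓝 ((1 - 0) * (t - s - 0))) :=
        (tendsto_const_nhds.sub tendsto_one_div_add_atTop_nhds_zero_nat).mul
          (tendsto_const_nhds.sub tendsto_one_div_add_atTop_nhds_zero_nat)
      filter_upwards [h5.eventually (lt_mem_nhds (show t - s - δ < _ by linarith))] with j hj
      exact hj.le.trans (h4 j s t hst)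
  refine ⟨σ, hσ, ?_⟩
  simp only [h2] at hl
  exact (tendsto_nhds_unique tendsto_const_nhds hl).symm

end Ctx

end Pool.Agent.Lib.MP_b2c218_an
end

-- part Pool.Agent.Lib.MP_b2c218_an.Sides
section

/-!
# The two sides of a calibrated line
-/

namespace Pool.Agent.Lib.MP_b2c218_an

open Complex Set Filter Topology

lemma clamp_fix {T t f : ℝ} (h : max (-T) (min T (t - f)) = t) (h1 : t = T → 0 < f)
    (h2 : t = -T → f < 0) (hT : 0 ≤ T) : f = 0 := by
  rcases le_total T (t - f) with a | a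
  · rw [min_eq_left a, max_eq_right (by linarith)] at h
    have := h1 h.symm; linarith
  · rw [min_eq_right a] at h
    rcases le_total (-T) (t - f) with b | b
    · rw [max_eq_right b] at h; linarith
    · rw [max_eq_left b] at h
      have := h2 h.symm; linarith

/-- Poincare-Miranda theorem in the plane. -/
lemma poincare_miranda (f g : ℝ × ℝ → ℝ) (hf : Continuous f) (hg : Continuous g) {T S : ℝ}
    (hT : 0 < T) (hS : 0 < S) (f1 : ∀ s, 0 < f (T, s)) (f2 : ∀ s, f (-T, s) < 0)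
    (g1 : ∀ t ∈ Icc (-T) T, 0 < g (t, S)) (g2 : ∀ t ∈ Icc (-T) T, g (t, -S) < 0) :
    ∃ t s, f (t, s) = 0 ∧ g (t, s) = 0 := by
  let Φ : ℂ → ℂ := fun z => (max (-T) (min T (z.re - f (z.re, z.im))) : ℝ) +
    (max (-S) (min S (z.im - g (z.re, z.im))) : ℝ) * I
  have hre : ∀ z, (Φ z).re = max (-T) (min T (z.re - f (z.re, z.im))) := fun z => by simp [Φ]
  have him : ∀ z, (Φ z).im = max (-S) (min S (z.im - g (z.re, z.im))) := fun z => by simp [Φ]
  have hcl : ∀ {T : ℝ}, 0 < T → ∀ x, |max (-T) (min T x)| ≤ T := fun hT x =>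
    abs_le.2 ⟨le_max_left _ _, max_le (by linarith) (min_le_left _ _)⟩
  obtain ⟨z, -, hz⟩ := Pool.Agent.Shared.Brouwer.brouwer (F := ℂ) (R := T + S) (by positivity) Φ
    (Continuous.continuousOn (by fun_prop)) (fun z _ => by
      simp only [Metric.mem_closedBall, dist_zero_right]
      refine (Complex.norm_le_abs_re_add_abs_im _).trans ?_
      rw [hre, him]
      exact add_le_add (hcl hT _) (hcl hS _))
  have h1 := hre z
  have h2 := him z
  rw [hz] at h1 h2
  have h3 : z.re ∈ Icc (-T) T := by rw [h1]; exact abs_le.1 (hcl hT _)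
  refine ⟨z.re, z.im, clamp_fix h1.symm (fun h => ?_) (fun h => ?_) hT.le,
    clamp_fix h2.symm (fun h => ?_) (fun h => ?_) hS.le⟩
  · rw [h]; exact f1 _
  · rw [h]; exact f2 _
  · rw [h]; exact g1 _ h3
  · rw [h]; exact g2 _ h3

/-- points that can be joined in the complement of `A` to a ray of direction `ρ` missing `A` -/
def Side (A : Set ℂ) (ρ : ℂ) : Set ℂ :=
  {z | ∃ w, JoinedIn Aᶜ z w ∧ ∀ s : ℝ, 0 ≤ s → w + s • ρ ∉ A}

lemma Side.notMem {A : Set ℂ} {ρ z : ℂ} (h : z ∈ Side A ρ) : z ∉ A := by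
  obtain ⟨w, h, -⟩ := h; exact h.source_mem

lemma Side.of_joined {A : Set ℂ} {ρ y z : ℂ} (h : z ∈ Side A ρ) (hj : JoinedIn Aᶜ y z) :
    y ∈ Side A ρ := by
  obtain ⟨w, h, h'⟩ := h; exact ⟨w, hj.trans h, h'⟩

lemma side_of_ray {A : Set ℂ} {ρ z : ℂ} (h : ∀ s : ℝ, 0 ≤ s → z + s • ρ ∉ A) : z ∈ Side A ρ :=
  ⟨z, JoinedIn.refl (by simpa using h 0 le_rfl), h⟩

lemma joinedIn_curve {F : Set ℂ} {σ : ℝ → ℂ} (hσ : Continuous σ) {a b : ℝ}
    (h : ∀ t ∈ uIcc a b, σ t ∈ F) : JoinedIn F (σ a) (σ b) := by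
  have h1 : JoinedIn (uIcc a b) a b := JoinedIn.of_segment_subset (segment_eq_uIcc a b).le
  exact (h1.map hσ).mono (image_subset_iff.2 h)

lemma Side.of_curve {A : Set ℂ} {ρ : ℂ} {σ : ℝ → ℂ} (hσ : Continuous σ) {a b : ℝ}
    (h : ∀ t ∈ uIcc a b, σ t ∉ A) (ha : σ a ∈ Side A ρ) : σ b ∈ Side A ρ :=
  Side.of_joined ha (joinedIn_curve hσ h).symm

lemma Side.add {γ : ℝ → ℂ} {ρ z : ℂ} (h : z ∈ Side (range γ) ρ) (k : ℂ) :
    z + k ∈ Side (range fun t => γ t + k) ρ := by
  obtain ⟨w, h1, h2⟩ := h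
  refine ⟨w + k, (h1.map (f := fun x => x + k) (by fun_prop)).mono ?_, fun s hs => ?_⟩
  · rintro _ ⟨x, hx, rfl⟩ ⟨t, ht⟩
    exact hx ⟨t, add_right_cancel ht⟩
  · rintro ⟨t, ht⟩
    refine h2 s hs ⟨t, add_right_cancel (b := k) ?_⟩
    simp only at ht
    rw [ht]; ring

lemma Side.trans {A B : Set ℂ} {ρ : ℂ} (h : ∀ z ∈ A, z ∉ Side B ρ) : Side B ρ ⊆ Side A ρ := by
  rintro z ⟨w, h1, h2⟩
  have hray : ∀ s : ℝ, 0 ≤ s → w + s • ρ ∈ Side B ρ := fun s hs =>
    side_of_ray fun s' hs' => by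
      rw [add_assoc, ← add_smul]; exact h2 _ (by positivity)
  refine ⟨w, ?_, fun s hs hA => h _ hA (hray s hs)⟩
  obtain ⟨P, hP⟩ := h1
  refine ⟨P, fun t hA => h _ hA ?_⟩
  have h3 : P.extend 1 ∈ Side B ρ := by simpa using hray 0 le_rfl
  have h4 := Side.of_curve (b := t) P.continuous_extend (fun s _ => ?_) h3
  · simpa using h4
  · have : P.extend s ∈ range P := by rw [← P.extend_range]; exact ⟨s, rfl⟩
    obtain ⟨t', ht'⟩ := this
    rw [← ht']; exact hP t'

/-- curves that move with bounded error at unit speed in the direction of the functional `q` -/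
def Proper (q : ℂ) (γ : ℝ → ℂ) : Prop := Continuous γ ∧ ∃ c, ∀ t, |t - dot q (γ t)| ≤ c

lemma eq_of_dot_det {q x y : ℂ} (hq : q ≠ 0) (h1 : dot q x = dot q y)
    (h2 : dot (I * q) x = dot (I * q) y) : x = y := by
  have h3 := dot_sq_add_det_sq q (x - y)
  rw [det_eq_dot, dot_sub_right, dot_sub_right, h1, h2] at h3
  have : 0 < ‖q‖ ^ 2 := by positivity
  have h4 : ‖x - y‖ ^ 2 = 0 := by
    apply le_antisymm _ (sq_nonneg _)
    by_contra hh
    have := mul_pos this (lt_of_not_ge hh)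
    simp at h3
    rcases h3 with h3 | h3
    · exact hq h3
    · simp [h3] at hh
  simpa [sub_eq_zero] using h4

lemma Proper.ne_zero {q : ℂ} {γ : ℝ → ℂ} (h : Proper q γ) : q ≠ 0 := by
  rintro rfl
  obtain ⟨c, hc⟩ := h.2
  have := hc (|c| + 1)
  simp only [dot_zero_left, sub_zero] at this
  linarith [le_abs_self (|c| + 1), le_abs_self c]

theorem side_disjoint {q : ℂ} {γ : ℝ → ℂ} (h : Proper q γ) {z : ℂ}
    (h1 : z ∈ Side (range γ) (I * q)) (h2 : z ∈ Side (range γ) (-(I * q))) : False := by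
  have hq := h.ne_zero
  obtain ⟨hγ, c, hc⟩ := h
  obtain ⟨w1, j1, r1⟩ := h1
  obtain ⟨w2, j2, r2⟩ := h2
  obtain ⟨P, hP⟩ := j2.symm.trans j1
  have hPe : ∀ s, P.extend s ∈ range P := fun s => by rw [← P.extend_range]; exact ⟨s, rfl⟩
  obtain ⟨B, hB⟩ := (isCompact_range P.continuous).isBounded.exists_norm_le
  have hB' : ∀ s, ‖P.extend s‖ ≤ B := fun s => hB _ (hPe s)
  set ρ := I * q with hρ
  let σ : ℝ → ℂ := fun s => P.extend s + (max (s - 1) 0 + min s 0) • ρ
  have hσc : Continuous σ := P.continuous_extend.add (by fun_prop)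
  have hσ : ∀ s, σ s ∉ range γ := by
    intro s
    rcases le_total s 0 with a | a
    · have := r2 (-s) (by linarith)
      simp only [σ, P.extend_of_le_zero a, max_eq_right (show s - 1 ≤ 0 by linarith),
        min_eq_left a, zero_add]
      simpa using this
    · rcases le_total s 1 with b | b
      · simp only [σ, max_eq_right (show s - 1 ≤ 0 by linarith), min_eq_right a,
          zero_smul, add_zero]
        obtain ⟨t, ht⟩ := hPe s
        rw [← ht]; exact hP t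
      · simp only [σ, P.extend_of_one_le b, max_eq_left (show 0 ≤ s - 1 by linarith),
          min_eq_right a, add_zero]
        exact r1 _ (by linarith)
  have hqσ : ∀ s, |dot q (σ s)| ≤ ‖q‖ * B := fun s => by
    simp only [σ, dot_add_right, dot_smul_right, hρ, dot_I_mul_self, mul_zero, add_zero]
    exact (abs_dot_le _ _).trans (by gcongr; exact hB' s)
  set T := |c| + |‖q‖ * B| + 1 with hT
  have hT0 : 0 < T := by positivity
  obtain ⟨D, hD⟩ := ((isCompact_Icc (a := -T) (b := T)).image hγ).isBounded.exists_norm_le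
  have hq2 : 0 < ‖q‖ ^ 2 := by positivity
  have hρρ : dot ρ ρ = ‖q‖ ^ 2 := by rw [dot_self, hρ, norm_I_mul]
  set S := (|‖q‖ * B| + |‖q‖ * D| + 1) / ‖q‖ ^ 2 + 1 with hS
  have hS1 : 1 < S := by rw [hS]; exact lt_add_of_pos_left _ (by positivity)
  have hS2 : (S - 1) * ‖q‖ ^ 2 = |‖q‖ * B| + |‖q‖ * D| + 1 := by rw [hS]; field_simp; ring
  have hd1 : ∀ s, |dot ρ (P.extend s)| ≤ ‖q‖ * B := fun s =>
    (abs_dot_le _ _).trans (by rw [hρ, norm_I_mul]; gcongr; exact hB' s)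
  have hd2 : ∀ t ∈ Icc (-T) T, |dot ρ (γ t)| ≤ ‖q‖ * D := fun t ht =>
    (abs_dot_le _ _).trans (by rw [hρ, norm_I_mul]; gcongr; exact hD _ ⟨t, ht, rfl⟩)
  have hPM := poincare_miranda (fun x => dot q (γ x.1) - dot q (σ x.2))
    (fun x => dot ρ (σ x.2) - dot ρ (γ x.1)) (by fun_prop) (by fun_prop) hT0
    (zero_lt_one.trans hS1) (fun s => by
      have a1 := abs_le.1 (hc T)
      have a2 := abs_le.1 (hqσ s)
      linarith [le_abs_self c, le_abs_self (‖q‖ * B)]) (fun s => by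
      have a1 := abs_le.1 (hc (-T))
      have a2 := abs_le.1 (hqσ s)
      linarith [le_abs_self c, le_abs_self (‖q‖ * B)]) (fun t ht => by
      have a1 := abs_le.1 (hd1 S)
      have a2 := abs_le.1 (hd2 t ht)
      simp only [σ, dot_add_right, dot_smul_right, hρρ, max_eq_left (show 0 ≤ S - 1 by linarith),
        min_eq_right (show 0 ≤ S by linarith), add_zero]
      linarith [le_abs_self (‖q‖ * D), le_abs_self (‖q‖ * B)]) (fun t ht => by
      have a1 := abs_le.1 (hd1 (-S))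
      have a2 := abs_le.1 (hd2 t ht)
      simp only [σ, dot_add_right, dot_smul_right, hρρ,
        max_eq_right (show -S - 1 ≤ 0 by linarith), min_eq_left (show -S ≤ 0 by linarith),
        zero_add]
      linarith [le_abs_self (‖q‖ * D), le_abs_self (‖q‖ * B)])
  obtain ⟨t, s, e1, e2⟩ := hPM
  exact hσ s ⟨t, eq_of_dot_det hq (sub_eq_zero.1 e1) (sub_eq_zero.1 e2).symm⟩

lemma Proper.exists_top {q : ℂ} {γ : ℝ → ℂ} (h : Proper q γ) (ρ : ℂ) :
    ∃ t0, dot q (γ t0) = 0 ∧ ∀ t, dot q (γ t) = 0 → dot ρ (γ t) ≤ dot ρ (γ t0) := by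
  obtain ⟨hγ, c, hc⟩ := h
  have hK : IsCompact {t | dot q (γ t) = 0} := by
    refine (isCompact_Icc (a := -c) (b := c)).of_isClosed_subset
      (isClosed_eq (by fun_prop) continuous_const) fun t ht => ?_
    have := hc t
    rw [show dot q (γ t) = 0 from ht, sub_zero] at this
    exact abs_le.1 this
  have hne : {t | dot q (γ t) = 0}.Nonempty := by
    have a1 := abs_le.1 (hc c)
    have a2 := abs_le.1 (hc (-c))
    have := intermediate_value_univ (-c) c (f := fun t => dot q (γ t)) (by fun_prop)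
      (show (0 : ℝ) ∈ Icc _ _ from ⟨by linarith, by linarith⟩)
    exact this
  obtain ⟨t0, h1, h2⟩ := hK.exists_isMaxOn hne (f := fun t => dot ρ (γ t))
    (Continuous.continuousOn (by fun_prop))
  exact ⟨t0, h1, fun t ht => h2 ht⟩

lemma side_or {q : ℂ} {A B : ℝ → ℂ} (hA : Proper q A) (hB : Proper q B)
    (hd : ∀ s t, A s ≠ B t) {ρ : ℂ} (hρ : ρ = I * q ∨ ρ = -(I * q)) :
    range B ⊆ Side (range A) ρ ∨ range A ⊆ Side (range B) ρ := by
  have hq := hA.ne_zero
  have hqρ : dot q ρ = 0 := by rcases hρ with rfl | rfl <;> simp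
  have key : ∀ {A B : ℝ → ℂ}, Proper q B → (∀ s t, A s ≠ B t) → ∀ t0, dot q (B t0) = 0 →
      (∀ t, dot q (A t) = 0 → dot ρ (A t) < dot ρ (B t0)) → range B ⊆ Side (range A) ρ := by
    intro A B hB hd t0 h1 h2
    have h3 : B t0 ∈ Side (range A) ρ := side_of_ray fun s hs => by
      rintro ⟨t, ht⟩
      have := h2 t (by simp [ht, h1, hqρ])
      rw [ht, dot_add_right, dot_smul_right, dot_self] at this
      have : 0 ≤ s * ‖ρ‖ ^ 2 := by positivity
      linarith
    rintro _ ⟨t, rfl⟩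
    exact Side.of_curve hB.1 (fun t' _ ⟨s, hs⟩ => hd s t' hs) h3
  obtain ⟨a, a1, a2⟩ := hA.exists_top ρ
  obtain ⟨b, b1, b2⟩ := hB.exists_top ρ
  rcases lt_trichotomy (dot ρ (A a)) (dot ρ (B b)) with h | h | h
  · exact Or.inl (key hB hd b b1 fun t ht => (a2 t ht).trans_lt h)
  · refine (hd a b (eq_of_dot_det hq (a1.trans b1.symm) ?_)).elim
    rcases hρ with rfl | rfl
    · exact h
    · simpa using h
  · exact Or.inr (key hA (fun s t => (hd t s).symm) a a1 fun t ht => (b2 t ht).trans_lt h)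

lemma side_dichotomy {q : ℂ} {A B : ℝ → ℂ} (hA : Proper q A) (hB : Proper q B)
    (hd : ∀ s t, A s ≠ B t) :
    (range B ⊆ Side (range A) (I * q) ∧ range A ⊆ Side (range B) (-(I * q))) ∨
      (range A ⊆ Side (range B) (I * q) ∧ range B ⊆ Side (range A) (-(I * q))) := by
  rcases side_or hA hB hd (Or.inl rfl) with h1 | h1 <;>
    rcases side_or hA hB hd (Or.inr rfl) with h2 | h2
  · exact (side_disjoint hA (h1 ⟨0, rfl⟩) (h2 ⟨0, rfl⟩)).elim
  · exact Or.inl ⟨h1, h2⟩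
  · exact Or.inr ⟨h1, h2⟩
  · exact (side_disjoint hB (h1 ⟨0, rfl⟩) (h2 ⟨0, rfl⟩)).elim

namespace Ctx

variable {C : Ctx}

lemma Lane.proper {q : ℂ} {u : ℂ → ℝ} {γ : ℝ → ℂ} (h : C.Lane u γ) (hu : C.Sub q u) :
    Proper q γ := by
  refine ⟨h.1.continuous, 6 * C.n1 + |dot q (γ 0)|, fun t => ?_⟩
  have h1 := h.abs_dot hu 0 t
  rw [sub_zero, dot_sub_right] at h1
  have := abs_sub (t - (dot q (γ t) - dot q (γ 0))) (dot q (γ 0))
  rw [show t - (dot q (γ t) - dot q (γ 0)) - dot q (γ 0) = t - dot q (γ t) by ring] at this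
  linarith

/-- far translates lie on the expected side -/
lemma Lane.eventually_side {q g ρ v : ℂ} {u : ℂ → ℝ} {γ : ℝ → ℂ} (h : C.Lane u γ)
    (hu : C.Sub q u) (hg : g ∈ C.S) (hqρ : dot q ρ = 0) (hgρ : 0 ≤ dot g ρ) (hqv : 0 ≤ dot q v)
    (hgv : dot q v < dot g v) (z : ℂ) :
    ∀ᶠ l : ℕ in atTop, z + (l : ℝ) • v ∈ Side (range γ) ρ := by
  set a := dot q (z - γ 0) with ha
  filter_upwards [tendsto_natCast_atTop_atTop.eventually_gt_atTop
    ((|a| + 12 * C.n1 - dot g (z - γ 0)) / (dot g v - dot q v))] with l hl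
  rw [div_lt_iff₀ (by linarith)] at hl
  refine side_of_ray fun s hs => ?_
  rintro ⟨t, ht⟩
  have e : γ t - γ 0 = (z - γ 0) + (l : ℝ) • v + s • ρ := by rw [ht]; ring
  have h1 := h.abs_dot hu 0 t
  have h2 := dot_le_d hg (γ 0) (γ t)
  have h3 := h.1 0 t
  rw [zero_sub, abs_neg] at h3
  rw [e] at h1 h2
  simp only [dot_add_right, dot_smul_right, hqρ, mul_zero, add_zero, sub_zero, ← ha] at h1 h2
  have h4 : 0 ≤ s * dot g ρ := by positivity
  have h5 : 0 ≤ l * dot q v := by positivity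
  have h6 : |t| ≤ |a| + l * dot q v + 6 * C.n1 := by
    have := abs_le.1 h1
    rw [abs_le]; constructor <;> linarith [le_abs_self a, neg_abs_le a]
  nlinarith

lemma range_rev (γ : ℝ → ℂ) : (range fun t => γ (-t)) = range γ :=
  (neg_surjective.range_comp γ)

lemma Lane.eventually_side' {q g ρ v : ℂ} {u : ℂ → ℝ} {γ : ℝ → ℂ} (h : C.Lane u γ)
    (hu : C.Sub q u) (hg : g ∈ C.S) (hqρ : dot q ρ = 0) (hgρ : 0 ≤ dot g ρ) (hqv : 0 ≤ dot q v)
    (hgv : dot q v < dot g v) (z : ℂ) :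
    ∀ᶠ l : ℕ in atTop, z + (l : ℝ) • (-v) ∈ Side (range γ) (-ρ) := by
  have := h.rev.eventually_side (v := -v) (ρ := -ρ) hu.neg (neg_mem_S hg) (by simpa) (by simpa)
    (by simpa) (by simpa) z
  rwa [range_rev] at this

/-- order of lattice translates -/
lemma Lane.translate_side {q g j : ℂ} {u : ℂ → ℝ} {γ : ℝ → ℂ} (h : C.Lane u γ)
    (hu : C.Sub q u) (hg : g ∈ C.S) (hgρ : 0 ≤ dot g (I * q)) (hj : j ∈ Lat) (hqv : 0 ≤ dot q j)
    (hgv : dot q j < dot g j) :
    (range fun t => γ t + j) ⊆ Side (range γ) (I * q) ∧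
      range γ ⊆ Side (range fun t => γ t + j) (-(I * q)) := by
  have hd : ∀ s t, γ s ≠ γ t + j := by
    intro s t e
    have h1 := h.2 t s
    have h2 := dot_le_d_lat hg (γ t) hj
    have h3 := h.1 t s
    rw [e] at h1 h3
    rw [hu.2 j hj] at h1
    rw [abs_sub_comm, abs_of_nonneg (by linarith)] at h3
    linarith
  have hP := h.proper hu
  rcases side_dichotomy hP ((h.add_lat hu hj).proper hu) hd with h1 | ⟨h1, h2⟩
  · exact h1
  exfalso
  have h3 : Side (range fun t => γ t + j) (-(I * q)) ⊆ Side (range γ) (-(I * q)) :=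
    Side.trans fun z hz hz' => side_disjoint ((h.add_lat hu hj).proper hu) (h1 hz) hz'
  have h4 : ∀ l : ℕ, γ 0 + ((l + 1 : ℕ) : ℝ) • j ∈ Side (range γ) (-(I * q)) := by
    intro l
    induction l with
    | zero => simpa using h2 ⟨0, rfl⟩
    | succ l ih =>
      have := h3 (Side.add ih j)
      rwa [add_assoc, show ((l + 1 : ℕ) : ℝ) • j + j = ((l + 1 + 1 : ℕ) : ℝ) • j by
        push_cast; rw [add_smul (l + 1 : ℝ), one_smul]] at this
  obtain ⟨l, hl⟩ := ((tendsto_add_atTop_nat 1).eventually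
    (h.eventually_side hu hg (dot_I_mul_self q) hgρ hqv hgv (γ 0))).exists
  exact side_disjoint hP hl (h4 l)

end Ctx

end Pool.Agent.Lib.MP_b2c218_an
end
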