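import Pool.Agent.Lib.MP_b2c218_an.Metric
import Pool.Agent.Lib.MP_b2c218_an.Defs

/-!
# Identification of the sublevel set of the effective Hamiltonian
-/

namespace Pool.Agent.Lib.MP_b2c218_an

open Complex Set Filter Topology

/-- identification of the complex numbers with the plane -/
noncomputable def Φ : ℂ ≃ₗᵢ[ℝ] Plane := Complex.orthonormalBasisOneI.repr

lemma IsZPeriodic.shift {f : Plane → ℝ} (hf : IsZPeriodic f) {k : ℂ} (hk : k ∈ Lat) (y : Plane) :
    f (y + Φ k) = f y := by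
  obtain ⟨m, n, rfl⟩ := hk
  rw [← hf ![m, n] y]
  congr 2
  ext i
  fin_cases i <;> simp [Φ, Complex.orthonormalBasisOneI_repr_apply]

lemma symm_mem_Lat (k : Fin 2 → ℤ) : Φ.symm (WithLp.toLp 2 fun i => (k i : ℝ)) ∈ Lat :=
  ⟨k 0, k 1, by simp [Φ, Complex.orthonormalBasisOneI_repr_symm_apply]⟩

lemma inner_Φ (p z : ℂ) : inner ℝ (Φ p) (Φ z) = dot p z := by
  rw [LinearIsometryEquiv.inner_map_map, inner_eq_dot]

lemma bdd_ham {a φ : Plane → ℝ} (hc : Continuous a) (hper : IsZPeriodic a) (h1 : ContDiff ℝ 1 φ)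
    (h2 : IsZPeriodic φ) (P : Plane) : BddAbove (range fun y => a y * ‖P + gradient φ y‖) := by
  have hg : Continuous (gradient φ) :=
    (InnerProductSpace.toDual ℝ Plane).symm.continuous.comp (h1.continuous_fderiv one_ne_zero)
  have hΦ := Φ.continuous
  obtain ⟨b0, b, hb⟩ := Per.bounds (f := fun z => a (Φ z) * ‖P + gradient φ (Φ z)‖) (by fun_prop)
    fun k hk x => by
      have : gradient φ (Φ x + Φ k) = gradient φ (Φ x) := by
        unfold gradient
        rw [← fderiv_comp_add_right]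
        simp only [h2.shift hk]
      simp only [map_add, hper.shift hk, this]
  refine ⟨a (Φ b) * ‖P + gradient φ (Φ b)‖, ?_⟩
  rintro _ ⟨y, rfl⟩
  simpa using (hb (Φ.symm y)).2

lemma sublevel_eq {a : Plane → ℝ} (hc : Continuous a) (hper : IsZPeriodic a) (hpos : ∀ y, 0 < a y)
    {C : Ctx} (hn : C.n = fun z => (a (Φ z))⁻¹) (hL : ∀ v ∈ LL C.n, C.Lip v) :
    {p | effHam a p ≤ 1} = Φ '' C.S := by
  have : Nonempty {φ : Plane → ℝ // ContDiff ℝ 1 φ ∧ IsZPeriodic φ} :=
    ⟨⟨fun _ => 0, contDiff_const, fun _ _ => rfl⟩⟩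
  ext P
  obtain ⟨p, rfl⟩ := Φ.surjective P
  rw [Φ.injective.mem_set_image, mem_ofPred_eq]
  constructor
  · intro h k hk
    have key : ∀ ε > 0, dot p k ≤ (1 + ε) * C.d 0 k := by
      intro ε hε
      obtain ⟨⟨φ, h1, h2⟩, h3⟩ := exists_lt_of_ciInf_lt (h.trans_lt (lt_add_of_pos_right 1 hε))
      have h4 : ∀ y, a y * ‖Φ p + gradient φ y‖ ≤ 1 + ε := fun y =>
        (le_ciSup (bdd_ham hc hper h1 h2 (Φ p)) y).trans h3.le
      have h5 := hL (fun z => (1 + ε)⁻¹ * (inner ℝ (Φ p) (Φ z) + φ (Φ z)))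
        (LL.of_fderiv fun z => ?_) 0 k
      · have h6 := h2.shift hk 0
        rw [zero_add] at h6
        simp only [inner_Φ, map_zero, h6, inner_zero_right] at h5
        rw [← mul_sub, inv_mul_le_iff₀ (by positivity)] at h5
        linarith
      have d1 : HasFDerivAt (fun y => inner ℝ (Φ p) y + φ y)
          (InnerProductSpace.toDual ℝ Plane (Φ p + gradient φ (Φ z))) (Φ z) := by
        rw [map_add]
        exact (InnerProductSpace.toDual ℝ Plane (Φ p)).hasFDerivAt.add
          (hasGradientAt_iff_hasFDerivAt.1 ((h1.differentiable one_ne_zero) _).hasGradientAt)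
      refine ⟨_, (d1.comp z Φ.toContinuousLinearEquiv.hasFDerivAt).const_mul (1 + ε)⁻¹, ?_⟩
      rw [norm_smul, hn, Real.norm_of_nonneg (by positivity), inv_mul_le_iff₀ (by positivity),
        ← div_eq_mul_inv, le_div_iff₀' (hpos _)]
      refine le_trans ?_ (h4 (Φ z))
      gcongr
      · exact (hpos _).le
      refine ContinuousLinearMap.opNorm_le_bound _ (norm_nonneg _) fun x => ?_
      have := abs_real_inner_le_norm (Φ p + gradient φ (Φ z)) (Φ x)
      rw [LinearIsometryEquiv.norm_map] at this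
      exact this
    have t : Tendsto (fun ε : ℝ => (1 + ε) * C.d 0 k) (𝓝[>] 0) (𝓝 ((1 + 0) * C.d 0 k)) :=
      (Continuous.tendsto (by fun_prop) 0).mono_left nhdsWithin_le_nhds
    simpa using ge_of_tendsto t (eventually_nhdsWithin_of_forall fun ε hε => key ε hε)
  · intro hp
    refine le_of_forall_pos_le_add fun ε hε => ?_
    have hn0 := C.n0_pos
    obtain ⟨w, h1, h2, h3⟩ := Ctx.exists_smooth hp (β := ε * C.n0) (by positivity)
    have h4 : ContDiff ℝ 1 fun y => w (Φ.symm y) := h1.comp Φ.symm.contDiff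
    have h5 : ContDiff ℝ 1 fun y : Plane => inner ℝ (Φ p) y :=
      (InnerProductSpace.toDual ℝ Plane (Φ p)).contDiff
    refine ciInf_le_of_le ⟨0, ?_⟩ ⟨fun y => w (Φ.symm y) - inner ℝ (Φ p) y, h4.sub h5,
      fun k y => ?_⟩ (ciSup_le fun y => ?_)
    · rintro _ ⟨φ, rfl⟩
      exact Real.iSup_nonneg fun y => mul_nonneg (hpos y).le (norm_nonneg _)
    · simp only [map_add, h2 _ (symm_mem_Lat k), inner_add_right, ← inner_Φ,
        LinearIsometryEquiv.apply_symm_apply]
      ring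
    have d1 : HasFDerivAt (fun y => w (Φ.symm y) - inner ℝ (Φ p) y)
        (fderiv ℝ (fun y => w (Φ.symm y)) y - InnerProductSpace.toDual ℝ Plane (Φ p)) y :=
      ((h4.differentiable one_ne_zero) y).hasFDerivAt.sub
        (InnerProductSpace.toDual ℝ Plane (Φ p)).hasFDerivAt
    have d2 : ‖fderiv ℝ (fun y => w (Φ.symm y)) y‖ ≤ C.n (Φ.symm y) + ε * C.n0 := by
      have := C.n_pos (Φ.symm y)
      refine norm_fderiv_le_of_lip' ℝ (by positivity) ?_
      filter_upwards [(Φ.symm.continuous.tendsto y).eventually (h3 (Φ.symm y))] with x hx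
      rwa [← map_sub, LinearIsometryEquiv.norm_map] at hx
    have d3 : a y * C.n (Φ.symm y) = 1 := by simp [hn, (hpos y).ne']
    have d4 : a y * C.n0 ≤ 1 := by
      rw [← d3]; gcongr; exacts [(hpos y).le, C.n_ge _]
    simp only [gradient, d1.fderiv, map_sub, LinearIsometryEquiv.symm_apply_apply, add_sub_cancel,
      LinearIsometryEquiv.norm_map]
    calc _ ≤ a y * (C.n (Φ.symm y) + ε * C.n0) := by gcongr; exact (hpos y).le
      _ = 1 + ε * (a y * C.n0) := by rw [mul_add, d3]; ring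
      _ ≤ 1 + ε * 1 := by gcongr
      _ = _ := by ring

lemma Ctx.sc_of_no_segment {C : Ctx}
    (h : ∀ q q' : ℂ, q ≠ q' → ¬segment ℝ q q' ⊆ frontier C.S) : C.SC := by
  have key : ∀ q ∈ C.S, ∀ q' ∈ C.S, ∀ a b : ℝ, 0 ≤ b → b ≤ a → a + b = 1 →
      a • q + b • q' ∈ interior C.S → (1 / 2 : ℝ) • (q + q') ∈ interior C.S := by
    intro q _ q' hq' a b hb hba hab hx
    have ha : 0 < a := by linarith
    have := Ctx.convex_S.combo_interior_self_mem_interior hx hq' (a := 1 / (2 * a))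
      (b := 1 - 1 / (2 * a)) (by positivity)
      (by rw [sub_nonneg, div_le_one (by positivity)]; linarith) (by ring)
    convert this using 1
    obtain rfl : b = 1 - a := by linarith
    have ha' : (a : ℂ) ≠ 0 := by exact_mod_cast ha.ne'
    simp only [real_smul]; push_cast; field_simp; ring
  intro q hq q' hq' hne
  obtain ⟨_, ⟨a, b, ha, hb, hab, rfl⟩, hx⟩ := not_subset.1 (h q q' hne)
  rw [Ctx.isClosed_S.frontier_eq, Set.mem_sdiff, not_and, not_not] at hx
  have h1 := hx (Ctx.convex_S hq hq' ha hb hab)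
  have h2 : (1 / 2 : ℝ) • (q + q') ∈ interior C.S := by
    rcases le_total b a with c | c
    · exact key q hq q' hq' a b hb c hab h1
    · rw [add_comm]; exact key q' hq' q hq b a ha c (by linarith) (by rwa [add_comm])
  have t : Tendsto (fun c : ℝ => ((1 + c) / 2 : ℝ) • (q + q')) (𝓝[>] 0)
      (𝓝 (((1 + 0) / 2 : ℝ) • (q + q'))) :=
    (Continuous.tendsto (by fun_prop) 0).mono_left nhdsWithin_le_nhds
  rw [add_zero] at t
  obtain ⟨c, h3, h4⟩ := ((t.eventually (mem_interior_iff_mem_nhds.1 h2)).and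
    self_mem_nhdsWithin).exists
  exact ⟨c, h4, h3⟩

theorem main (a : Plane → ℝ) (hc : Continuous a) (hper : IsZPeriodic a) (hpos : ∀ y, 0 < a y)
    (hnc : ∃ x y, a x ≠ a y) :
    ∃ p q : Plane, p ≠ q ∧ segment ℝ p q ⊆ frontier {p | effHam a p ≤ 1} := by
  obtain ⟨C, hn, hL⟩ := exists_ctx (n := fun z => (a (Φ z))⁻¹)
    ((hc.comp Φ.continuous).inv₀ fun z => (hpos _).ne')
    (fun k hk x => by simp only [map_add, hper.shift hk]) fun z => inv_pos.2 (hpos _)
  by_contra hcon
  have hS : C.SC := Ctx.sc_of_no_segment fun q q' hne hseg => hcon ⟨Φ q, Φ q',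
    Φ.injective.ne hne, by
      rw [sublevel_eq hc hper hpos hn (hn ▸ hL)]
      have e := Φ.toHomeomorph.image_frontier C.S
      simp only [LinearIsometryEquiv.coe_toHomeomorph] at e
      rw [← e]
      rintro _ ⟨s, t, hs, ht, hst, rfl⟩
      exact ⟨s • q + t • q', hseg ⟨s, t, hs, ht, hst, rfl⟩, by simp only [map_add, map_smul]⟩⟩
  obtain ⟨x, y, hxy⟩ := hnc
  have h1 := (Ctx.const_of_SC hS (Φ.symm x)).trans (Ctx.const_of_SC hS (Φ.symm y)).symm
  simp only [hn, LinearIsometryEquiv.apply_symm_apply, inv_inj] at h1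
  exact hxy h1

end Pool.Agent.Lib.MP_b2c218_an
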